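import Pool.Agent.Run7.h625.SQ.Gap

set_option autoImplicit false

/-! Definability of cliques with enough variables, and consequences. -/

namespace Run7.h625.SQ

open Finset Filter

theorem Def.congr {w : ℕ} {s : ℕ → ℕ} {ι : Type} {q q' : Query ι} (h : Def w s ι q)
    (e : ∀ (V : Type) [Finite V] (G : SimpleGraph V) (a : ι → V), q V G a ↔ q' V G a) :
    Def w s ι q' := by
  have : q = q' := by
    funext V _ G a
    exact propext (e V G a)
  rwa [← this]

theorem def_ex_many {w : ℕ} {s : ℕ → ℕ} (r : ℕ) : ∀ {ι : Type} [Finite ι]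
    (q : Query (ι ⊕ Fin r)), Def w s (ι ⊕ Fin r) q →
      Def w s ι (fun V _ G a => ∃ b : Fin r → V, q V G (Sum.elim a b)) := by
  induction r with
  | zero =>
    intro ι _ q h
    have hc := h.card_le.2
    rw [Nat.card_sum, Nat.card_fin, add_zero] at hc
    have h1 := h.subst hc (Sum.elim id Fin.elim0)
    refine h1.congr ?_
    intro V _ G a
    have e0 : ∀ b : Fin 0 → V, a ∘ Sum.elim id Fin.elim0 = Sum.elim a b := by
      intro b
      funext o
      rcases o with o | o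
      · rfl
      · exact o.elim0
    constructor
    · intro hb
      refine ⟨Fin.elim0, ?_⟩
      rwa [← e0]
    · rintro ⟨b, hb⟩
      rwa [e0 b]
  | succ r ih =>
    intro ι _ q h
    have hc := h.card_le.2
    rw [Nat.card_sum, Nat.card_fin] at hc
    haveI := Fintype.ofFinite ι
    have hc' : Nat.card (Option ι ⊕ Fin r) ≤ w := by
      rw [Nat.card_sum, Nat.card_fin, Nat.card_eq_fintype_card, Fintype.card_option]
      rw [Nat.card_eq_fintype_card] at hc
      omega
    have h1 := h.subst hc' (Sum.elim (fun i => Sum.inl (some i))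
      (Fin.cases (Sum.inl none) fun j => Sum.inr j))
    have h2 := (ih _ h1).count 1
    refine h2.congr ?_
    intro V _ G a
    have e1 : ∀ (x : V) (b : Fin r → V),
        (Sum.elim (fun o : Option ι => o.elim x a) b) ∘ (Sum.elim (fun i => Sum.inl (some i))
          (Fin.cases (Sum.inl none) fun j => Sum.inr j)) =
        Sum.elim a (Fin.cons x b : Fin (r + 1) → V) := by
      intro x b
      funext o
      rcases o with o | o
      · rfl
      · refine Fin.cases ?_ (fun j => ?_) o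
        · rfl
        · rfl
    rw [Nat.one_le_iff_ne_zero, ← Nat.pos_iff_ne_zero, Nat.card_pos_iff]
    constructor
    · rintro ⟨⟨⟨x, b, hb⟩⟩, -⟩
      rw [e1] at hb
      exact ⟨_, hb⟩
    · rintro ⟨b, hb⟩
      refine ⟨⟨⟨b 0, fun j => b j.succ, ?_⟩⟩, inferInstance⟩
      rw [e1]
      have e2 : (Fin.cons (b 0) fun j => b j.succ : Fin (r + 1) → V) = b := Fin.cons_self_tail b
      rwa [e2]

/-- `k` variables suffice. -/
theorem def_clique (k : ℕ) (s : ℕ → ℕ) : Def k s Empty (HasClique k) := by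
  have h1 : Def k s (Empty ⊕ Fin k) (fun V _ G a =>
      ∀ p : {p : Fin k × Fin k // p.1 ≠ p.2}, G.Adj (a (Sum.inr p.1.1)) (a (Sum.inr p.1.2))) := by
    have hc : Nat.card (Empty ⊕ Fin k) ≤ k := by
      rw [Nat.card_sum, Nat.card_fin]; simp
    exact Def.all hc _ fun p => Def.adj hc _ _
  have h2 := def_ex_many k _ h1
  refine h2.congr ?_
  intro V _ G a
  unfold HasClique
  rw [SimpleGraph.not_cliqueFree_iff_top_isContained]
  symm
  constructor
  · rintro ⟨f⟩
    exact ⟨f, fun p => f.toHom.map_adj (show (⊤ : SimpleGraph (Fin k)).Adj p.1.1 p.1.2 from p.2)⟩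
  · rintro ⟨b, hb⟩
    have hb' : ∀ i j, i ≠ j → G.Adj (b i) (b j) := fun i j hij => hb ⟨(i, j), hij⟩
    refine ⟨⟨⟨b, fun {i j} hij => hb' i j hij⟩, ?_⟩⟩
    intro i j hij
    by_contra hne
    exact (hb' i j hne).ne hij

theorem log_small (f g c : ℕ) (β : ℝ) (hβ : 0 < β) :
    ∀ᶠ n : ℕ in atTop, ((g * (Nat.log 2 (f * n ^ c) + 1) : ℕ) : ℝ) ≤ (n : ℝ) ^ β := by
  obtain ⟨δ, hδd⟩ : ∃ δ : ℝ, δ = β / (2 * (c + 1)) := ⟨_, rfl⟩
  have hδ : 0 < δ := by rw [hδd]; positivity
  have hlog2 : 0 < Real.log 2 := Real.log_pos (by norm_num)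
  obtain ⟨F, hF⟩ : ∃ F : ℝ, F = (f : ℝ) ^ δ / δ / Real.log 2 := ⟨_, rfl⟩
  have hF0 : 0 ≤ F := by rw [hF]; positivity
  have h1 := ((tendsto_rpow_atTop (show 0 < β / 2 by positivity)).comp
    tendsto_natCast_atTop_atTop).eventually_ge_atTop ((g : ℝ) * (F + 1))
  filter_upwards [h1, eventually_ge_atTop 1] with n hn hn1
  have hn0 : (1 : ℝ) ≤ n := by exact_mod_cast hn1
  have hnpos : (0 : ℝ) < n := by linarith
  have h2 : (g : ℝ) * (F + 1) ≤ (n : ℝ) ^ (β / 2) := hn
  have h3 : ((Nat.log 2 (f * n ^ c) : ℕ) : ℝ) ≤ F * (n : ℝ) ^ (β / 2) := by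
    have h4 : ((Nat.log 2 (f * n ^ c) : ℕ) : ℝ) ≤
        Real.log ((f * n ^ c : ℕ) : ℝ) / Real.log 2 := by
      have := Real.natLog_le_logb (f * n ^ c) 2
      rw [Real.logb] at this
      exact_mod_cast this
    have h5 := Real.log_le_rpow_div (x := ((f * n ^ c : ℕ) : ℝ)) (by positivity) hδ
    have h6 : (((f * n ^ c : ℕ) : ℝ)) ^ δ ≤ (f : ℝ) ^ δ * (n : ℝ) ^ (β / 2) := by
      push_cast
      rw [Real.mul_rpow (by positivity) (by positivity), ← Real.rpow_natCast, ← Real.rpow_mul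
        (by positivity)]
      apply mul_le_mul_of_nonneg_left _ (by positivity)
      apply Real.rpow_le_rpow_of_exponent_le hn0
      rw [hδd]
      rw [mul_div_assoc', div_le_div_iff₀ (by positivity) (by norm_num)]
      nlinarith
    calc ((Nat.log 2 (f * n ^ c) : ℕ) : ℝ) ≤ Real.log ((f * n ^ c : ℕ) : ℝ) / Real.log 2 := h4
      _ ≤ ((((f * n ^ c : ℕ) : ℝ)) ^ δ / δ) / Real.log 2 :=
          div_le_div_of_nonneg_right h5 hlog2.le
      _ ≤ (((f : ℝ) ^ δ * (n : ℝ) ^ (β / 2)) / δ) / Real.log 2 := by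
          apply div_le_div_of_nonneg_right _ hlog2.le
          exact div_le_div_of_nonneg_right h6 hδ.le
      _ = F * (n : ℝ) ^ (β / 2) := by rw [hF]; ring
  have h7 : (1 : ℝ) ≤ (n : ℝ) ^ (β / 2) := Real.one_le_rpow hn0 (by positivity)
  push_cast
  calc (g : ℝ) * ((Nat.log 2 (f * n ^ c) : ℕ) + 1) ≤
        g * (F * (n : ℝ) ^ (β / 2) + (n : ℝ) ^ (β / 2)) := by
        apply mul_le_mul_of_nonneg_left _ (by positivity)
        exact add_le_add h3 h7
    _ = (g * (F + 1)) * (n : ℝ) ^ (β / 2) := by ring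
    _ ≤ (n : ℝ) ^ (β / 2) * (n : ℝ) ^ (β / 2) := mul_le_mul_of_nonneg_right h2 (by positivity)
    _ = (n : ℝ) ^ β := by rw [← Real.rpow_add hnpos]; congr 1; ring

/-- **No reductions of the gap clique problem to questions on few elements.** -/
theorem no_turing (ε : ℝ) (hε : 0 < ε) : ∃ C : ℕ, ∀ (c : ℕ) (f g w : ℕ → ℕ) (k : ℕ),
    C * (w k + 1) ^ C ≤ k → ∀ᶠ n : ℕ in atTop, ∀ q,
      Def (w k) (fun n => g k * (Nat.log 2 (f k * n ^ c) + 1)) Empty q →
      ∃ G : SimpleGraph (Fin n), (¬ G.CliqueFree k ∧ ¬ q (Fin n) G Empty.elim) ∨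
        ((∀ L : Finset (Fin n), G.IsClique L → (L.card : ℝ) ≤ ε * k) ∧
          q (Fin n) G Empty.elim) := by
  obtain ⟨β, hβ, C, hC⟩ := gap_pair ε hε
  refine ⟨C, fun c f g w k hk => ?_⟩
  filter_upwards [hC (w k) k hk, log_small (f k) (g k) c β hβ] with n hn hs q hq
  obtain ⟨G, H, h1, h2, h3⟩ := hn
  have h4 := h3 (fun n => g k * (Nat.log 2 (f k * n ^ c) + 1)) hs q hq
  by_cases hG : q (Fin n) G Empty.elim
  · exact ⟨H, Or.inr ⟨h2, h4.1 hG⟩⟩
  · exact ⟨G, Or.inl ⟨h1, hG⟩⟩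

/-- A formula in conjunctive normal form with `d` literals in each clause and with the variables
`Fin N`, as a structure: `M j x` says that the clause which has for all `i < d` the literal `x i`
(if `j i` is true) or its negation (if `j i` is false) belongs to the formula. -/
abbrev Cnf (d N : ℕ) : Type := Str (Fin d → Bool) (fun _ => d) N

/-- The formula is satisfiable. -/
def Cnf.Sat {d N : ℕ} (M : Cnf d N) : Prop :=
  ∃ v : Fin N → Bool, ∀ j x, M j x → ∃ i : Fin d, v (x i) = j i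

/-- The interpretation uses only queries definable with `w` variables and small quantifiers. -/
def DefInterp (w : ℕ) (s : ℕ → ℕ) {J : Type} {ar : J → ℕ} (Θ : Interp Empty J ar) : Prop :=
  2 * Θ.e ≤ w ∧ (∀ i, Def w s (Empty ⊕ Fin Θ.e) (Θ.D i)) ∧
  (∀ i i', Def w s (Empty ⊕ (Fin Θ.e ⊕ Fin Θ.e)) (Θ.E i i')) ∧
  ∀ j f, Def w s (Empty ⊕ (Fin (ar j) × Fin Θ.e)) (Θ.R j f)

/-- **No many-one reductions** of the clique problem to satisfiability with few variables. -/
theorem no_many_one (c d w : ℕ) (f g : ℕ → ℕ) (k : ℕ) (hw : w < k) (hk : 3 ≤ k) :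
    ∀ᶠ n : ℕ in atTop, ∀ Θ : Interp Empty (Fin d → Bool) (fun _ => d),
      DefInterp w (fun n => g k * (Nat.log 2 (f k * n ^ c) + 1)) Θ →
      ∃ G : SimpleGraph (Fin n), ¬ (¬ G.CliqueFree k ↔
        ∃ N, N ≤ g k * (Nat.log 2 (f k * n ^ c) + 1) ∧ ∃ M : Cnf d N, M.Sat ∧
          Θ.Defines G Empty.elim M) := by
  obtain ⟨β, hβ, hβk⟩ : ∃ β : ℝ, 0 < β ∧ β * (k - 2) < 1 := by
    have hk' : (1 : ℝ) ≤ k - 2 := by
      have : (3 : ℝ) ≤ k := by exact_mod_cast hk
      linarith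
    refine ⟨1 / (2 * (k - 2)), by positivity, ?_⟩
    have : (0 : ℝ) < k - 2 := by linarith
    field_simp
    norm_num
  filter_upwards [clique_pair k hk β hβk, log_small (f k) (g k) c β hβ] with n hn hs Θ hΘ
  obtain ⟨G, H, h1, h2, h3⟩ := hn
  obtain ⟨q1, q2, q3, q4⟩ := hΘ
  have hmono : ∀ {ι : Type} {q : Query ι} {s : ℕ → ℕ}, Def w s ι q → Def (k - 1) s ι q := by
    intro ι q s hq
    induction hq with
    | adj hι i j => exact Def.adj (by omega) i j
    | eq hι i j => exact Def.eq (by omega) i j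
    | not h ih => exact ih.not
    | all hι q h ih => exact Def.all (by omega) q ih
    | subst hι f h ih => exact ih.subst (by omega) f
    | count c h ih => exact ih.count c
    | small Θ K hι hD hE hR iD iE iR => exact Def.small Θ K (by omega) iD iE iR
  have hq := Def.small Θ (fun N (M : Cnf d N) => M.Sat)
    (by rw [Nat.card_eq_fintype_card]; simp; omega) (fun i => hmono (q2 i))
    (fun i i' => hmono (q3 i i')) (fun j f => hmono (q4 j f))
  have h4 := h3 (fun n => g k * (Nat.log 2 (f k * n ^ c) + 1)) hs _ hq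
  simp only [Nat.card_fin] at h4
  by_contra hcon
  push Not at hcon
  have h5 := hcon G
  have h6 := hcon H
  exact (h6.2 (h4.1 (h5.1 h1))) h2

end Run7.h625.SQ
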