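import Pool.Agent.Run7.h625.SQ.OrcPair
import Pool.Agent.Run7.h625.CW.Barrier

set_option autoImplicit false

/-! The oracle. -/

namespace Run7.h625.SQ

open Finset Filter Function

open CW (total ugSat DuplicatorWins win_trans win_refl relabel)

theorem wins_mono {r K K' : ℕ} {Γ V W : Type} {I : CW.Str r Γ V} {J : CW.Str r Γ W}
    (h : DuplicatorWins K I J) (hK : K' ≤ K) : DuplicatorWins K' I J := by
  obtain ⟨S, h0, hS⟩ := h
  let ex : (Fin K' → Option (V × W)) → Fin K → Option (V × W) := fun p j =>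
    if hj : j.1 < K' then p ⟨j.1, hj⟩ else none
  refine ⟨{p | ex p ∈ S}, ?_, ?_⟩
  · have : ex (fun _ => none) = fun _ => none := by
      funext j
      simp only [ex]
      split <;> rfl
    show ex (fun _ => none) ∈ S
    rw [this]
    exact h0
  · intro p hp
    obtain ⟨⟨h1, h2⟩, h3⟩ := hS _ hp
    have hex : ∀ i : Fin K', ex p (Fin.castLE hK i) = p i := by
      intro i
      simp only [ex, Fin.val_castLE, Fin.is_lt, dite_true]
    refine ⟨⟨?_, ?_⟩, ?_⟩
    · intro i j a b hi hj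
      exact h1 (Fin.castLE hK i) (Fin.castLE hK j) a b (by rw [hex, hi]) (by rw [hex, hj])
    · intro c σ a ha
      exact h2 c (fun l => Fin.castLE hK (σ l)) a fun l => by rw [hex, ha]
    · intro i
      obtain ⟨f, hf⟩ := h3 (Fin.castLE hK i)
      refine ⟨f, fun v => ?_⟩
      show ex (update p i (some (v, f v))) ∈ S
      convert hf v using 1
      funext j
      by_cases hj : j = Fin.castLE hK i
      · subst hj
        rw [update_self]
        show (if _ : _ then _ else _) = _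
        rw [dif_pos (by simp)]
        have : (⟨(Fin.castLE hK i).1, by simp⟩ : Fin K') = i := by
          apply Fin.ext; simp
        rw [this, update_self]
      · rw [update_of_ne hj]
        show (if _ : _ then _ else _) = (if _ : _ then _ else _)
        by_cases hj' : j.1 < K'
        · rw [dif_pos hj', dif_pos hj', update_of_ne]
          intro h
          apply hj
          apply Fin.ext
          rw [← h]
          simp
        · rw [dif_neg hj', dif_neg hj']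

theorem dw_trans {r K : ℕ} {Γ U V W : Type} {I : CW.Str r Γ U} {J : CW.Str r Γ V}
    {L : CW.Str r Γ W} (h : DuplicatorWins K I J) (h' : DuplicatorWins K J L) :
    DuplicatorWins K I L := by
  obtain ⟨S, h0, hS⟩ := h
  obtain ⟨S', h0', hS'⟩ := h'
  refine ⟨{p | ∃ q1 ∈ S, ∃ q2 ∈ S', ∀ j, (p j = none ∧ q1 j = none ∧ q2 j = none) ∨
    ∃ u v w, p j = some (u, w) ∧ q1 j = some (u, v) ∧ q2 j = some (v, w)},
    ⟨_, h0, _, h0', fun j => Or.inl ⟨rfl, rfl, rfl⟩⟩, ?_⟩
  rintro p ⟨q1, hq1, q2, hq2, hp⟩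
  obtain ⟨⟨a1, a2⟩, a3⟩ := hS _ hq1
  obtain ⟨⟨b1, b2⟩, b3⟩ := hS' _ hq2
  have key : ∀ j a, p j = some a → ∃ v, q1 j = some (a.1, v) ∧ q2 j = some (v, a.2) := by
    intro j a ha
    rcases hp j with ⟨h1, -⟩ | ⟨u, v, w, h1, h2, h3⟩
    · rw [h1] at ha; exact absurd ha (by simp)
    · rw [h1, Option.some.injEq] at ha
      subst ha
      exact ⟨v, h2, h3⟩
  refine ⟨⟨?_, ?_⟩, ?_⟩
  · intro i j a b hi hj
    obtain ⟨v, h1, h2⟩ := key i a hi
    obtain ⟨v', h1', h2'⟩ := key j b hj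
    exact (a1 i j _ _ h1 h1').trans (b1 i j _ _ h2 h2')
  · intro c σ a ha
    choose v hv1 hv2 using fun l => key (σ l) (a l) (ha l)
    exact (a2 c σ _ hv1).trans (b2 c σ _ hv2)
  · intro i
    obtain ⟨f, hf⟩ := a3 i
    obtain ⟨g, hg⟩ := b3 i
    refine ⟨f.trans g, fun u => ⟨_, hf u, _, hg (f u), fun j => ?_⟩⟩
    by_cases hj : j = i
    · subst hj
      right
      exact ⟨u, f u, g (f u), by simp, by simp, by simp⟩
    · rw [update_of_ne hj, update_of_ne hj, update_of_ne hj]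
      exact hp j

/-- The oracle: it accepts the games which are equivalent, with `p N` pebbles, to a game of value
at least `1 - ε`. -/
def orc (ε : ℝ) (p : ℕ → ℕ) : Oracle := fun A _ _ N =>
  {J | ∃ I : CW.Str 2 (Equiv.Perm A) (Fin N), ValGe ε I ∧ DuplicatorWins (p N) I J}

theorem rpow_half_le {N : ℕ} {r : ℝ} (hr : 0 < r) : (N : ℝ) ^ (r / 2) ≤ (N : ℝ) ^ r := by
  rcases Nat.eq_zero_or_pos N with h | h
  · subst h
    rw [Nat.cast_zero, Real.zero_rpow (by positivity), Real.zero_rpow hr.ne']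
  · exact Real.rpow_le_rpow_of_exponent_le (by exact_mod_cast h) (by linarith)

/-- **The oracle does not help.** -/
theorem ug_oracle (ε γ r : ℝ) (hε : 0 < ε) (hε1 : ε ≤ 1 / 2) (hγ : 0 < γ) (hγ1 : γ < 1)
    (hr : r = 2 ^ 34 * (ε * Real.log (1 / ε)) / γ ^ 2) (hr1 : r ≤ 1) :
    ∃ O : Oracle,
      (∀ (A : Type) [Fintype A] [DecidableEq A] (N : ℕ) (J : CW.Str 2 (Equiv.Perm A) (Fin N)),
        ValGe ε J → J ∈ O A N) ∧
      (∀ (A : Type) [Fintype A] [DecidableEq A] (N : ℕ) (J : CW.Str 2 (Equiv.Perm A) (Fin N)),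
        J ∈ O A N → ValGe γ J) ∧
      (∀ (A : Type) [Fintype A] [DecidableEq A] (N : ℕ) (J : CW.Str 2 (Equiv.Perm A) (Fin N))
        (e : Fin N ≃ Fin N), J ∈ O A N → relabel e J ∈ O A N) ∧
      ∀ ρ : ℝ, 0 < ρ → ∃ c : ℝ, 0 < c ∧ ∀ᶠ n : ℕ in atTop,
        ∃ (k : ℕ) (G H : SimpleGraph (Fin n)), c * n ≤ k ∧ 4 * k ≤ n ∧ CoverLe G (3 * k) ∧
          (∀ t, CoverLe H t → (7 / 2 - ρ) * k ≤ t) ∧
          ∀ (w d : ℕ) (s M : ℕ → ℕ), (w : ℝ) + s n + d * ((M n : ℝ) + 1) ^ r ≤ c * n →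
            ∀ q, DfO O w s d M Empty q →
              (q (Fin n) G Empty.elim ↔ q (Fin n) H Empty.elim) := by
  have hlog2 : (1 : ℝ) / 2 < Real.log 2 := by
    have := Real.log_two_gt_d9; linarith
  have hlogε : Real.log 2 ≤ Real.log (1 / ε) := by
    refine Real.log_le_log (by norm_num) ?_
    rw [le_div_iff₀ hε]; linarith
  have hlogε0 : 0 < Real.log (1 / ε) := by linarith
  have hγ2 : 0 < γ ^ 2 := by positivity
  have hrγ : r * γ ^ 2 = 2 ^ 34 * (ε * Real.log (1 / ε)) := by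
    rw [hr]; field_simp
  have hr0 : 0 < r := by rw [hr]; positivity
  have hεγ : 2 ^ 32 * (ε * Real.log (2 / r)) ≤ r * γ ^ 2 := by
    rw [hrγ]
    have h1 : 2 * ε ^ 4 ≤ r := by
      have hγ3 : γ ^ 2 ≤ 1 := by nlinarith
      have h2 : r * γ ^ 2 ≤ r := by nlinarith
      have h3 : 2 ^ 34 * (ε * (1 / 2)) ≤ 2 ^ 34 * (ε * Real.log (1 / ε)) := by
        have : ε * (1 / 2) ≤ ε * Real.log (1 / ε) :=
          mul_le_mul_of_nonneg_left (by linarith) hε.le
        linarith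
      have h4 : ε ^ 4 ≤ ε := by
        calc ε ^ 4 = ε * ε ^ 3 := by ring
          _ ≤ ε * 1 := mul_le_mul_of_nonneg_left (pow_le_one₀ hε.le (by linarith)) hε.le
          _ = ε := mul_one _
      rw [hrγ] at h2
      norm_num at h2 h3 ⊢
      linarith
    have h2 : Real.log (2 / r) ≤ 4 * Real.log (1 / ε) := by
      rw [← Real.log_rpow (by positivity)]
      refine Real.log_le_log (by positivity) ?_
      rw [show (4 : ℝ) = ((4 : ℕ) : ℝ) by norm_num, Real.rpow_natCast, one_div, inv_pow,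
        ← one_div, div_le_div_iff₀ hr0 (by positivity)]
      linarith
    have h3 : ε * Real.log (2 / r) ≤ ε * (4 * Real.log (1 / ε)) :=
      mul_le_mul_of_nonneg_left h2 hε.le
    norm_num at h3 ⊢
    linarith
  have hlγ : 0 < Real.log (2 / γ) := by
    refine Real.log_pos ?_
    rw [lt_div_iff₀ hγ]; linarith
  obtain ⟨C, hC⟩ : ∃ C : ℝ, C = 2 ^ 42 * (Real.log (2 / γ) + 1 / (r ^ 2 * ε ^ 4)) := ⟨_, rfl⟩
  have hC0 : 0 < C := by rw [hC]; positivity
  obtain ⟨p, hp⟩ : ∃ p : ℕ → ℕ, p = fun N : ℕ => ⌈C * (N : ℝ) ^ r⌉₊ + 2 := ⟨_, rfl⟩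
  have hpm : ∀ {N N' : ℕ}, N ≤ N' → p N ≤ p N' := by
    intro N N' hN
    rw [hp]
    refine Nat.add_le_add_right (Nat.ceil_mono ?_) 2
    refine mul_le_mul_of_nonneg_left ?_ hC0.le
    exact Real.rpow_le_rpow (by positivity) (by exact_mod_cast hN) hr0.le
  refine ⟨orc ε p, ?_, ?_, ?_, ?_⟩
  · intro A _ _ N J hJ
    refine ⟨J, hJ, Set.univ ∩ {q | ∀ j a, q j = some a → a.1 = a.2}, ⟨trivial, ?_⟩, ?_⟩
    · intro j a ha; simp at ha
    · rintro q ⟨-, hq⟩
      refine ⟨⟨?_, ?_⟩, ?_⟩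
      · intro i j a b hi hj
        rw [hq i a hi, hq j b hj]
      · intro c σ a ha
        have : (fun l => (a l).1) = fun l => (a l).2 := funext fun l => hq _ _ (ha l)
        rw [this]
      · intro i
        refine ⟨Equiv.refl _, fun v => ⟨trivial, ?_⟩⟩
        intro j a ha
        by_cases hj : j = i
        · subst hj
          rw [update_self, Option.some.injEq] at ha
          rw [← ha]
          rfl
        · rw [update_of_ne hj] at ha
          exact hq j a ha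
  · rintro A _ _ N J ⟨I, ⟨x, hx⟩, hw⟩
    refine CW.ug_transfer I J r γ ε (p N) hr0 hr1 hγ hγ1 hε hεγ (by rw [hp]; simp) ?_ hw x hx
    rw [Fintype.card_fin]
    have h1 : C * (N : ℝ) ^ r ≤ p N := by
      rw [hp]
      push_cast
      have := Nat.le_ceil (C * (N : ℝ) ^ r)
      linarith
    refine le_trans ?_ h1
    have h4 : (N : ℝ) ^ (r / 2) / (r ^ 2 * ε ^ 4) ≤ (N : ℝ) ^ r / (r ^ 2 * ε ^ 4) :=
      div_le_div_of_nonneg_right (rpow_half_le hr0) (by positivity)
    calc 2 ^ 42 * (Real.log (2 / γ) * (N : ℝ) ^ r + (N : ℝ) ^ (r / 2) / (r ^ 2 * ε ^ 4)) ≤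
        2 ^ 42 * (Real.log (2 / γ) * (N : ℝ) ^ r + (N : ℝ) ^ r / (r ^ 2 * ε ^ 4)) :=
          mul_le_mul_of_nonneg_left (add_le_add le_rfl h4) (by positivity)
      _ = C * (N : ℝ) ^ r := by rw [hC]; ring
  · rintro A _ _ N J e ⟨I, hI, hw⟩
    exact ⟨I, hI, CW.wins_relabel (Equiv.refl _) e hw⟩
  · intro ρ hρ
    obtain ⟨c0, hc0, h⟩ := vc_pair_gen ρ hρ
    have hC9 : 1 ≤ C + 9 := by linarith
    refine ⟨c0 / (C + 9), by positivity, ?_⟩
    filter_upwards [h] with n hn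
    obtain ⟨k, W, G, H, h1, h2, h3, h4, h5, h6⟩ := hn
    have hcc : c0 / (C + 9) * n ≤ c0 * n := by
      refine mul_le_mul_of_nonneg_right ?_ (by positivity)
      rw [div_le_iff₀ (by positivity)]
      nlinarith
    refine ⟨k, G, H, hcc.trans h1, h2, h4, h5, ?_⟩
    intro w d s M hws q hq
    have hX : (1 : ℝ) ≤ ((M n : ℝ) + 1) ^ r :=
      Real.one_le_rpow (by
        have : (0 : ℝ) ≤ M n := by positivity
        linarith) hr0.le
    have hd0 : (0 : ℝ) ≤ d := by positivity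
    have hdX : (0 : ℝ) ≤ d * ((M n : ℝ) + 1) ^ r := by positivity
    have hs0 : (0 : ℝ) ≤ s n := by positivity
    have hw0 : (0 : ℝ) ≤ w := by positivity
    have e1 : (w : ℝ) + s n ≤ W := by linarith
    have e2 : (p (M n) : ℝ) + 6 ≤ (C + 9) * ((M n : ℝ) + 1) ^ r := by
      have g1 : (p (M n) : ℝ) ≤ C * (M n : ℝ) ^ r + 3 := by
        rw [hp]
        push_cast
        have := Nat.ceil_lt_add_one (show 0 ≤ C * (M n : ℝ) ^ r by positivity)
        linarith
      have g2 : (M n : ℝ) ^ r ≤ ((M n : ℝ) + 1) ^ r :=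
        Real.rpow_le_rpow (by positivity) (by linarith) hr0.le
      nlinarith
    have e3 : (w : ℝ) + (p (M n) + 6) * d ≤ W := by
      have g1 : ((p (M n) : ℝ) + 6) * d ≤ (C + 9) * (d * ((M n : ℝ) + 1) ^ r) := by
        calc ((p (M n) : ℝ) + 6) * d ≤ (C + 9) * ((M n : ℝ) + 1) ^ r * d :=
              mul_le_mul_of_nonneg_right e2 hd0
          _ = _ := by ring
      have g2 : (C + 9) * ((w : ℝ) + s n + d * ((M n : ℝ) + 1) ^ r) ≤
          (C + 9) * (c0 / (C + 9) * n) := mul_le_mul_of_nonneg_left hws (by positivity)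
      have g3 : (C + 9) * (c0 / (C + 9) * n) = c0 * n := by
        field_simp
      rw [g3] at g2
      nlinarith
    refine h6 q (fun X Q Φ _ _ _ S F => ?_) hq.iso
    refine inv_dfO (O := orc ε p) (p := p (M n)) F (by exact_mod_cast e1)
      (by exact_mod_cast e3) ?_ hq.co
    rintro A _ _ N J J' hN ⟨I, hI, hw⟩ hJJ
    exact ⟨I, hI, dw_trans hw (wins_mono hJJ (hpm hN))⟩

end Run7.h625.SQ
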