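import Mathlib

set_option autoImplicit false

/-! Infinitary logic with counting with `w` variables, extended by all Lindstroem quantifiers on
small interpreted structures; given semantically, as a closure of queries. -/

namespace Run7.h625.SQ

/-- A query with free variables indexed by `ι`: a property of finite graphs with an assignment. -/
def Query (ι : Type) : Type 1 :=
  ∀ (V : Type) [Finite V], SimpleGraph V → (ι → V) → Prop

/-- Structures on the universe `Fin N` with a relation of arity `ar j` for each `j`. -/
def Str (J : Type) (ar : J → ℕ) (N : ℕ) : Type := ∀ j : J, (Fin (ar j) → Fin N) → Prop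

/-- Interpretations of dimension `e` with parameters indexed by `ι`. The interpreted structure has
a relation of arity `ar j` for each `j : J`. Its elements are given by pairs `(i, x)`, where `i : I`
is an index (for example a tuple of numbers) and `x` is an `e`-tuple of vertices. -/
structure Interp (ι J : Type) (ar : J → ℕ) where
  /-- the indices -/
  I : Type
  /-- the dimension -/
  e : ℕ
  /-- which pairs `(i, x)` are elements -/
  D : I → Query (ι ⊕ Fin e)
  /-- which pairs `(i, x)` and `(i', x')` are the same element -/
  E : I → I → Query (ι ⊕ (Fin e ⊕ Fin e))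
  /-- the relations -/
  R : ∀ j, (Fin (ar j) → I) → Query (ι ⊕ (Fin (ar j) × Fin e))

/-- For the graph `G` and the parameters `a` the interpretation defines a structure isomorphic
to `M`. -/
def Interp.Defines {ι J : Type} {ar : J → ℕ} (Θ : Interp ι J ar) {V : Type} [Finite V]
    (G : SimpleGraph V) (a : ι → V) {N : ℕ} (M : Str J ar N) : Prop :=
  ∃ h : Θ.I → (Fin Θ.e → V) → Fin N,
    (∀ z, ∃ i x, Θ.D i V G (Sum.elim a x) ∧ h i x = z) ∧
    (∀ i i' x x', Θ.D i V G (Sum.elim a x) → Θ.D i' V G (Sum.elim a x') →
      (h i x = h i' x' ↔ Θ.E i i' V G (Sum.elim a (Sum.elim x x')))) ∧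
    (∀ (j : J) (f : Fin (ar j) → Θ.I) (X : Fin (ar j) → Fin Θ.e → V),
      (∀ l, Θ.D (f l) V G (Sum.elim a (X l))) →
      (Θ.R j f V G (Sum.elim a fun p => X p.1 p.2) ↔ M j fun l => h (f l) (X l)))

/-- The queries definable with `w` variables in infinitary logic with counting and with all
Lindstroem quantifiers for interpreted structures with at most `s n` elements on graphs with `n`
vertices. The class `K` of structures is arbitrary. -/
inductive Def (w : ℕ) (s : ℕ → ℕ) : (ι : Type) → Query ι → Prop
  /-- adjacency -/
  | adj {ι : Type} [Finite ι] (hι : Nat.card ι ≤ w) (i j : ι) :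
      Def w s ι (fun _ _ G a => G.Adj (a i) (a j))
  /-- equality -/
  | eq {ι : Type} [Finite ι] (hι : Nat.card ι ≤ w) (i j : ι) :
      Def w s ι (fun _ _ _ a => a i = a j)
  /-- negation -/
  | not {ι : Type} {q : Query ι} (h : Def w s ι q) : Def w s ι (fun V _ G a => ¬ q V G a)
  /-- conjunctions of any size -/
  | all {ι : Type} [Finite ι] (hι : Nat.card ι ≤ w) {T : Type} (q : T → Query ι)
      (h : ∀ t, Def w s ι (q t)) : Def w s ι (fun V _ G a => ∀ t, q t V G a)
  /-- substitution of variables -/
  | subst {ι ι' : Type} [Finite ι'] (hι : Nat.card ι' ≤ w) (f : ι → ι') {q : Query ι}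
      (h : Def w s ι q) : Def w s ι' (fun V _ G a => q V G (a ∘ f))
  /-- there are at least `c` elements `x` with `q` -/
  | count {ι : Type} (c : ℕ) {q : Query (Option ι)} (h : Def w s (Option ι) q) :
      Def w s ι (fun V _ G a => c ≤ Nat.card {x : V // q V G (fun o => o.elim x a)})
  /-- the interpreted structure has at most `s n` elements and is in the class `K` -/
  | small {ι J : Type} [Finite ι] {ar : J → ℕ} (Θ : Interp ι J ar)
      (K : ∀ N, Str J ar N → Prop)
      (hι : Nat.card ι + 2 * Θ.e ≤ w) (hD : ∀ i, Def w s (ι ⊕ Fin Θ.e) (Θ.D i))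
      (hE : ∀ i i', Def w s (ι ⊕ (Fin Θ.e ⊕ Fin Θ.e)) (Θ.E i i'))
      (hR : ∀ j f, Def w s (ι ⊕ (Fin (ar j) × Fin Θ.e)) (Θ.R j f)) :
      Def w s ι (fun V _ G a => ∃ N, N ≤ s (Nat.card V) ∧
        ∃ M : Str J ar N, K N M ∧ Θ.Defines G a M)

/-- There is a clique with `k` vertices. -/
def HasClique (k : ℕ) : Query Empty := fun _ _ G _ => ¬ G.CliqueFree k

theorem Def.card_le {w : ℕ} {s : ℕ → ℕ} {ι : Type} {q : Query ι} (h : Def w s ι q) :
    Finite ι ∧ Nat.card ι ≤ w := by
  induction h with
  | adj hι i j => exact ⟨inferInstance, hι⟩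
  | eq hι i j => exact ⟨inferInstance, hι⟩
  | not h ih => exact ih
  | all hι q h ih => exact ⟨inferInstance, hι⟩
  | subst hι f h ih => exact ⟨inferInstance, hι⟩
  | @count ι c q h ih =>
    obtain ⟨h1, h2⟩ := ih
    haveI : Finite ι := Finite.of_injective (some : ι → Option ι) (Option.some_injective ι)
    refine ⟨this, le_trans ?_ h2⟩
    exact Nat.card_le_card_of_injective (some : ι → Option ι) (Option.some_injective ι)
  | small Θ K hι hD hE hR ihD ihE ihR => exact ⟨inferInstance, by omega⟩

/-- Definable queries are invariant under isomorphisms. -/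
theorem Def.iso {w : ℕ} {s : ℕ → ℕ} {ι : Type} {q : Query ι} (h : Def w s ι q)
    {V V' : Type} [Finite V] [Finite V'] (G : SimpleGraph V) (G' : SimpleGraph V')
    (φ : V ≃ V') (hφ : ∀ x y, G.Adj x y ↔ G'.Adj (φ x) (φ y)) (a : ι → V) :
    q V G a ↔ q V' G' (φ ∘ a) := by
  have key : ∀ {ι : Type} {q : Query ι}, Def w s ι q → ∀ {V V' : Type} [Finite V] [Finite V']
      (G : SimpleGraph V) (G' : SimpleGraph V') (φ : V ≃ V')
      (_ : ∀ x y, G.Adj x y ↔ G'.Adj (φ x) (φ y)) (a : ι → V),
      q V G a → q V' G' (φ ∘ a) := by
    intro ι q h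
    induction h with
    | adj hι i j => intro V V' _ _ G G' φ hφ a h; exact (hφ _ _).1 h
    | eq hι i j => intro V V' _ _ G G' φ hφ a h; exact congrArg φ h
    | @not ι q h ih =>
      intro V V' _ _ G G' φ hφ a hn hc
      apply hn
      have := ih G' G φ.symm (fun x y => by rw [hφ]; simp) (φ ∘ a) hc
      have e : φ.symm ∘ (φ ∘ a) = a := by funext i; simp
      rwa [e] at this
    | all hι q h ih =>
      intro V V' _ _ G G' φ hφ a hq t
      exact ih t G G' φ hφ a (hq t)
    | subst hι f h ih =>
      intro V V' _ _ G G' φ hφ a hq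
      exact ih G G' φ hφ (a ∘ f) hq
    | @count ι c q h ih =>
      intro V V' _ _ G G' φ hφ a hq
      refine le_trans hq ?_
      refine Nat.card_le_card_of_injective
        (fun x : {x : V // q V G (fun o => o.elim x a)} =>
          (⟨φ x.1, ?_⟩ : {x : V' // q V' G' (fun o => o.elim x (φ ∘ a))})) ?_
      · have := ih G G' φ hφ _ x.2
        convert this using 1
        funext o
        cases o <;> rfl
      · intro x y hxy
        apply Subtype.ext
        exact φ.injective (congrArg Subtype.val hxy)
    | @small ι J _ ar Θ K hι hD hE hR ihD ihE ihR =>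
      intro V V' _ _ G G' φ hφ a hq
      obtain ⟨N, hN, M, hK, h, h1, h2, h3⟩ := hq
      have hφ' : ∀ x y, G'.Adj x y ↔ G.Adj (φ.symm x) (φ.symm y) := fun x y => by
        rw [hφ]; simp
      have e0 : ∀ {κ : Type} (x : κ → V'), φ.symm ∘ (Sum.elim (φ ∘ a) x) =
          Sum.elim a (φ.symm ∘ x) := by
        intro κ x; funext i; cases i <;> simp
      have e0' : ∀ {κ : Type} (x : κ → V'), φ ∘ (Sum.elim a (φ.symm ∘ x)) =
          Sum.elim (φ ∘ a) x := by
        intro κ x; funext i; cases i <;> simp
      have hDD : ∀ i (x : Fin Θ.e → V'), Θ.D i V' G' (Sum.elim (φ ∘ a) x) ↔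
          Θ.D i V G (Sum.elim a (φ.symm ∘ x)) := by
        intro i x
        constructor
        · intro hd
          have := ihD i G' G φ.symm hφ' _ hd
          rwa [e0] at this
        · intro hd
          have := ihD i G G' φ hφ _ hd
          rwa [e0'] at this
      refine ⟨N, by rwa [← Nat.card_congr φ], M, hK, fun i x => h i (φ.symm ∘ x), ?_, ?_, ?_⟩
      · intro z
        obtain ⟨i, x, hx, hz⟩ := h1 z
        refine ⟨i, φ ∘ x, ?_, ?_⟩
        · rw [hDD]
          convert hx using 2
          funext i; simp
        · rw [← hz]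
          show h i (φ.symm ∘ (φ ∘ x)) = h i x
          have e : φ.symm ∘ (φ ∘ x) = x := by funext l; simp
          rw [e]
      · intro i i' x x' hx hx'
        rw [h2 i i' _ _ ((hDD i x).1 hx) ((hDD i' x').1 hx')]
        constructor
        · intro hd
          have := ihE i i' G G' φ hφ _ hd
          convert this using 1
          funext o
          rcases o with o | o | o <;> simp
        · intro hd
          have := ihE i i' G' G φ.symm hφ' _ hd
          convert this using 1
          funext o
          rcases o with o | o | o <;> simp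
      · intro j f X hX
        rw [← h3 j f (fun l => φ.symm ∘ X l) (fun l => (hDD _ _).1 (hX l))]
        constructor
        · intro hd
          have := ihR j f G' G φ.symm hφ' _ hd
          convert this using 1
          funext o
          rcases o with o | o <;> simp
        · intro hd
          have := ihR j f G G' φ hφ _ hd
          convert this using 1
          funext o
          rcases o with o | o <;> simp
  constructor
  · exact key h G G' φ hφ a
  · intro hq
    have := key h G' G φ.symm (fun x y => by rw [hφ]; simp) _ hq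
    have e : φ.symm ∘ (φ ∘ a) = a := by funext i; simp
    rwa [e] at this

end Run7.h625.SQ
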