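import Pool.Agent.Run7.h625.SQ.Lin

set_option autoImplicit false

/-! Definable queries are invariant under isomorphisms and closed under complementation of the
graph. -/

namespace Run7.h625.SQ

/-- Definable queries are invariant under isomorphisms. -/
theorem Df.iso {w : ℕ} {s : ℕ → ℕ} {ι : Type} {q : Query ι} (h : Df w s ι q)
    {V V' : Type} [Finite V] [Finite V'] (G : SimpleGraph V) (G' : SimpleGraph V')
    (φ : V ≃ V') (hφ : ∀ x y, G.Adj x y ↔ G'.Adj (φ x) (φ y)) (a : ι → V) :
    q V G a ↔ q V' G' (φ ∘ a) := by
  have key : ∀ {ι : Type} {q : Query ι}, Df w s ι q → ∀ {V V' : Type} [Finite V] [Finite V']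
      (G : SimpleGraph V) (G' : SimpleGraph V') (φ : V ≃ V')
      (_ : ∀ x y, G.Adj x y ↔ G'.Adj (φ x) (φ y)) (a : ι → V),
      q V G a → q V' G' (φ ∘ a) := by
    intro ι q h
    induction h with
    | adj hι i j => intro V V' _ _ G G' φ hφ a h; exact (hφ _ _).1 h
    | eq hι i j => intro V V' _ _ G G' φ hφ a h; exact congrArg φ h
    | @not ι q h ih =>
      intro V V' _ _ G G' φ hφ a hn hc
      apply hn
      have := ih G' G φ.symm (fun x y => by rw [hφ]; simp) (φ ∘ a) hc
      have e : φ.symm ∘ (φ ∘ a) = a := by funext i; simp
      rwa [e] at this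
    | all hι q h ih =>
      intro V V' _ _ G G' φ hφ a hq t
      exact ih t G G' φ hφ a (hq t)
    | subst hι f h ih =>
      intro V V' _ _ G G' φ hφ a hq
      exact ih G G' φ hφ (a ∘ f) hq
    | @count ι c q h ih =>
      intro V V' _ _ G G' φ hφ a hq
      refine le_trans hq ?_
      refine Nat.card_le_card_of_injective
        (fun x : {x : V // q V G (fun o => o.elim x a)} =>
          (⟨φ x.1, ?_⟩ : {x : V' // q V' G' (fun o => o.elim x (φ ∘ a))})) ?_
      · have := ih G G' φ hφ _ x.2
        convert this using 1
        funext o
        cases o <;> rfl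
      · intro x y hxy
        apply Subtype.ext
        exact φ.injective (congrArg Subtype.val hxy)
    | @small ι J _ ar Θ K hι hD hE hR ihD ihE ihR =>
      intro V V' _ _ G G' φ hφ a hq
      obtain ⟨N, hN, M, hK, h, h1, h2, h3⟩ := hq
      have hφ' : ∀ x y, G'.Adj x y ↔ G.Adj (φ.symm x) (φ.symm y) := fun x y => by
        rw [hφ]; simp
      have e0 : ∀ {κ : Type} (x : κ → V'), φ.symm ∘ (Sum.elim (φ ∘ a) x) =
          Sum.elim a (φ.symm ∘ x) := by
        intro κ x; funext i; cases i <;> simp
      have e0' : ∀ {κ : Type} (x : κ → V'), φ ∘ (Sum.elim a (φ.symm ∘ x)) =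
          Sum.elim (φ ∘ a) x := by
        intro κ x; funext i; cases i <;> simp
      have hDD : ∀ i (x : Fin Θ.e → V'), Θ.D i V' G' (Sum.elim (φ ∘ a) x) ↔
          Θ.D i V G (Sum.elim a (φ.symm ∘ x)) := by
        intro i x
        constructor
        · intro hd
          have := ihD i G' G φ.symm hφ' _ hd
          rwa [e0] at this
        · intro hd
          have := ihD i G G' φ hφ _ hd
          rwa [e0'] at this
      refine ⟨N, by rwa [← Nat.card_congr φ], M, hK, fun i x => h i (φ.symm ∘ x), ?_, ?_, ?_⟩
      · intro z
        obtain ⟨i, x, hx, hz⟩ := h1 z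
        refine ⟨i, φ ∘ x, ?_, ?_⟩
        · rw [hDD]
          convert hx using 2
          funext i; simp
        · rw [← hz]
          show h i (φ.symm ∘ (φ ∘ x)) = h i x
          have e : φ.symm ∘ (φ ∘ x) = x := by funext l; simp
          rw [e]
      · intro i i' x x' hx hx'
        rw [h2 i i' _ _ ((hDD i x).1 hx) ((hDD i' x').1 hx')]
        constructor
        · intro hd
          have := ihE i i' G G' φ hφ _ hd
          convert this using 1
          funext o
          rcases o with o | o | o <;> simp
        · intro hd
          have := ihE i i' G' G φ.symm hφ' _ hd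
          convert this using 1
          funext o
          rcases o with o | o | o <;> simp
      · intro j f X hX
        rw [← h3 j f (fun l => φ.symm ∘ X l) (fun l => (hDD _ _).1 (hX l))]
        constructor
        · intro hd
          have := ihR j f G' G φ.symm hφ' _ hd
          convert this using 1
          funext o
          rcases o with o | o <;> simp
        · intro hd
          have := ihR j f G G' φ hφ _ hd
          convert this using 1
          funext o
          rcases o with o | o <;> simp
  constructor
  · exact key h G G' φ hφ a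
  · intro hq
    have := key h G' G φ.symm (fun x y => by rw [hφ]; simp) _ hq
    have e : φ.symm ∘ (φ ∘ a) = a := by funext i; simp
    rwa [e] at this

/-- The query for the complement of the graph. -/
def Query.co {ι : Type} (q : Query ι) : Query ι := fun V _ G a => q V Gᶜ a

theorem Df.co {w : ℕ} {s : ℕ → ℕ} {ι : Type} {q : Query ι} (h : Df w s ι q) :
    Df w s ι q.co := by
  induction h with
  | @adj ι _ hι i j =>
    have e : Query.co (fun (V : Type) [Finite V] (G : SimpleGraph V) (a : ι → V) =>
        G.Adj (a i) (a j)) = (fun (V : Type) [Finite V] (G : SimpleGraph V) (a : ι → V) =>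
        ∀ t : Bool, (Bool.rec (fun (V : Type) [Finite V] (G : SimpleGraph V) (a : ι → V) =>
          ¬ (a i = a j)) (fun (V : Type) [Finite V] (G : SimpleGraph V) (a : ι → V) =>
          ¬ G.Adj (a i) (a j)) t : Query ι) V G a) := by
      funext V _ G a
      apply propext
      show Gᶜ.Adj (a i) (a j) ↔ _
      rw [SimpleGraph.compl_adj]
      constructor
      · rintro ⟨h1, h2⟩ t
        cases t
        · exact h1
        · exact h2
      · intro h
        exact ⟨h false, h true⟩
    rw [e]
    refine Df.all hι _ fun t => ?_
    cases t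
    · exact (Df.eq hι i j).not
    · exact (Df.adj hι i j).not
  | eq hι i j => exact Df.eq hι i j
  | not h ih => exact ih.not
  | all hι q h ih => exact Df.all hι _ ih
  | subst hι f h ih => exact Df.subst hι f ih
  | @count ι c q h ih => exact Df.count c ih
  | @small ι J _ ar Θ K hι hD hE hR ihD ihE ihR =>
    exact Df.small (ι := ι) (J := J) (ar := ar)
      { I := Θ.I, e := Θ.e, D := fun i => (Θ.D i).co, E := fun i i' => (Θ.E i i').co,
        R := fun j f => (Θ.R j f).co } K hι ihD ihE ihR

end Run7.h625.SQ
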