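import Pool.Agent.Run7.h625.SQ.Kk
import Pool.Agent.Run7.h625.CW.Lin

set_option autoImplicit false

/-! The gap version: views are tuples of equations of an expanding system. -/

namespace Run7.h625.SQ

open Finset Filter Function
open Matrix hiding row
open Pool.Agent.W888.GX (wt rs row Exp wt_add wt_eq_zero rs_add row_dot Bad viol exists_hyp3
  exp3_of near_count z2 z2_add_self)
open Run7.h625.CW (Cons cons_mono cons_extend cons_empty cons_row)

/-- Expanding systems with three variables in each equation, with a right-hand side for which only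
about half of the equations can be satisfied. -/
theorem exists_sys (ρ : ℝ) (hρ : 0 < ρ) : ∃ C : ℕ, ∀ K : ℕ,
    ∃ (n m : ℕ) (c : Fin m → Fin 3 → Fin n) (b : Fin m → ZMod 2) (G : Finset (Fin m)),
      m ≤ C * (K + 1) ∧ K ≤ G.card ∧ 0 < G.card ∧ Exp (row c) (univ : Finset (Fin n)) G (4 * K) ∧
      ∀ x : Fin n → ZMod 2,
        ((G.filter fun j => ∑ l, x (c j l) = b j).card : ℝ) ≤ (1 / 2 + ρ) * G.card := by
  obtain ⟨δ, hδd⟩ : ∃ δ : ℝ, δ = min ρ (1 / 2) / 2 := ⟨_, rfl⟩
  have hδ : 0 < δ := by rw [hδd]; positivity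
  have hδ1 : δ ≤ 1 / 4 := by
    rw [hδd]; have := min_le_right ρ (1 / 2); linarith
  have hδρ : 2 * δ ≤ ρ := by
    rw [hδd]; have := min_le_left ρ (1 / 2); linarith
  obtain ⟨q, hq⟩ := exists_nat_gt (1 / δ)
  have hq0 : (0 : ℝ) < q := lt_trans (by positivity) hq
  obtain ⟨M, hM⟩ := exists_nat_gt (Real.log 2 / δ ^ 2)
  have hlog : 0 < Real.log 2 := Real.log_pos (by norm_num)
  have hM0 : (0 : ℝ) < M := lt_of_le_of_lt (by positivity) hM
  have hM1 : 1 ≤ M := by
    have : 0 < M := by exact_mod_cast hM0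
    omega
  obtain ⟨ξ, hξd⟩ : ∃ ξ : ℝ, ξ = 1 / (6 * 32 ^ q) := ⟨_, rfl⟩
  have hpξ : (32 : ℝ) ^ q * (6 * ξ) ≤ 1 := by
    rw [hξd]
    apply le_of_eq
    have : (0 : ℝ) < 32 ^ q := by positivity
    field_simp
  obtain ⟨B, hB⟩ : ∃ B : ℕ, B = 8192 * 3 ^ 12 * M ^ 4 := ⟨_, rfl⟩
  have hBpos : 0 < B := by
    rw [hB]
    have : 0 < M := by omega
    positivity
  have hB0 : (0 : ℝ) < B := by exact_mod_cast hBpos
  refine ⟨M * (9 * B + 6 * 32 ^ q), fun K => ?_⟩
  obtain ⟨n, hnd⟩ : ∃ n : ℕ, n = B + 6 * 32 ^ q + 8 * K * B := ⟨_, rfl⟩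
  have hn : B + 6 * 32 ^ q ≤ n := by omega
  have hn1 : 1 ≤ n := by omega
  have hn0 : (0 : ℝ) < n := by exact_mod_cast hn1
  obtain ⟨r0, hr0⟩ : ∃ r0, r0 = n / B := ⟨_, rfl⟩
  have hrn : r0 * B ≤ n := by
    rw [hr0]
    exact Nat.div_mul_le_self n B
  have hrn' : n < (r0 + 1) * B := by
    rw [hr0]
    exact Nat.lt_mul_of_div_lt (Nat.lt_succ_self _) hBpos
  obtain ⟨c, hc1, hc2⟩ := exists_hyp3 (M * n) n r0 q ξ hn1
    (Nat.le_mul_of_pos_left n hM1)
    (by
      have h4 : 2 ≤ B := by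
        rw [hB]
        calc 2 ≤ 8192 * 3 ^ 12 * 1 := by norm_num
          _ ≤ _ := Nat.mul_le_mul_left _ (Nat.one_le_pow _ _ (by omega))
      calc 2 * r0 = r0 * 2 := by ring
        _ ≤ r0 * B := Nat.mul_le_mul_left _ h4
        _ ≤ n := hrn)
    (by
      have h1 : (r0 : ℝ) * B ≤ n := by exact_mod_cast hrn
      push_cast
      calc 8192 * 3 ^ 12 * ((M : ℝ) * n) ^ 4 * r0 =
            ((r0 : ℝ) * (8192 * 3 ^ 12 * M ^ 4)) * n ^ 4 := by ring
        _ = ((r0 : ℝ) * B) * n ^ 4 := by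
            rw [hB]
            push_cast
            ring
        _ ≤ n * n ^ 4 := mul_le_mul_of_nonneg_right h1 (by positivity)
        _ = (n : ℝ) ^ 5 := by ring)
    (by
      rw [hξd, one_div, inv_mul_eq_div, one_le_div (by positivity)]
      have : 6 * 32 ^ q ≤ n := by omega
      exact_mod_cast this)
    hpξ
  classical
  obtain ⟨G, hG⟩ : ∃ G : Finset (Fin (M * n)), G = univ.filter fun j => ¬ Bad ∅ (c j) := ⟨_, rfl⟩
  have hmn : (0 : ℝ) < (M * n : ℕ) := by push_cast; positivity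
  -- the right-hand side
  obtain ⟨b, hb⟩ : ∃ b : Fin (M * n) → ZMod 2, ∀ x, (1 / 2 - δ) * (M * n : ℕ) ≤ viol c b x := by
    by_contra hcon
    push Not at hcon
    have h1 := near_count (n := n) hδ (m := M * n) (by
      push_cast
      rw [div_lt_iff₀ (by positivity)] at hM
      have : Real.log 2 * n ≤ M * δ ^ 2 * n := mul_le_mul_of_nonneg_right hM.le hn0.le
      nlinarith) c
    have h2 : (univ.filter fun b : Fin (M * n) → ZMod 2 =>
        ¬ ∀ x, (1 / 2 - δ) * (M * n : ℕ) ≤ viol c b x) = univ := by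
      refine filter_true_of_mem fun b _ => ?_
      push Not
      exact hcon b
    rw [h2, card_univ, Fintype.card_fun, ZMod.card, Fintype.card_fin] at h1
    push_cast at h1
    have h3 : (1 : ℝ) < 2 ^ n := one_lt_pow₀ (by norm_num) (by omega)
    have h4 : (0 : ℝ) < 2 ^ (M * n) := by positivity
    nlinarith
  have hbad : (q : ℝ) * (univ.filter fun j => Bad ∅ (c j)).card ≤ (M * n : ℕ) := by
    have := hc2 ∅ (by
      rw [Finset.card_empty, hξd]
      push_cast
      positivity)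
    exact_mod_cast this
  have hbad2 : ((univ.filter fun j => Bad ∅ (c j)).card : ℝ) ≤ δ * (M * n : ℕ) := by
    rw [div_lt_iff₀ hδ] at hq
    have h1 : (0 : ℝ) ≤ (univ.filter fun j => Bad ∅ (c j)).card := by positivity
    have h2 : ((univ.filter fun j => Bad ∅ (c j)).card : ℝ) ≤
        (q * δ) * (univ.filter fun j => Bad ∅ (c j)).card := by nlinarith
    calc ((univ.filter fun j => Bad ∅ (c j)).card : ℝ) ≤
        δ * (q * (univ.filter fun j => Bad ∅ (c j)).card) := by linarith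
      _ ≤ δ * (M * n : ℕ) := mul_le_mul_of_nonneg_left hbad hδ.le
  have hGc : (G.card : ℝ) + (univ.filter fun j => Bad ∅ (c j)).card = (M * n : ℕ) := by
    have := Finset.card_filter_add_card_filter_not (s := (univ : Finset (Fin (M * n))))
      (fun j => Bad ∅ (c j))
    rw [card_univ, Fintype.card_fin] at this
    rw [hG, add_comm]
    exact_mod_cast this
  have hval : ∀ x : Fin n → ZMod 2,
      ∑ j ∈ G, (if ∑ l, x (c j l) = b j then (1 : ℝ) else 0) ≤ (1 / 2 + ρ) * G.card := by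
    intro x
    have h1 := hb x
    unfold viol at h1
    have h2 : ∑ j, (if ∑ s, x (c j s) = b j then (0 : ℝ) else 1) ≤
        ∑ j ∈ G, (if ∑ s, x (c j s) = b j then (0 : ℝ) else 1) +
          (univ.filter fun j => Bad ∅ (c j)).card := by
      rw [← Finset.sum_filter_add_sum_filter_not (s := (univ : Finset (Fin (M * n))))
        (fun j => Bad ∅ (c j)), add_comm, ← hG]
      refine add_le_add le_rfl ?_
      rw [Finset.card_eq_sum_ones]
      push_cast
      refine Finset.sum_le_sum fun j _ => ?_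
      split_ifs <;> norm_num
    have h3 : ∑ j ∈ G, (if ∑ l, x (c j l) = b j then (1 : ℝ) else 0) +
        ∑ j ∈ G, (if ∑ s, x (c j s) = b j then (0 : ℝ) else 1) = G.card := by
      rw [← Finset.sum_add_distrib, Finset.card_eq_sum_ones]
      push_cast
      refine Finset.sum_congr rfl fun j _ => ?_
      split_ifs <;> norm_num
    have h4 : (0 : ℝ) ≤ G.card := by positivity
    have h5 : (0 : ℝ) ≤ (univ.filter fun j => Bad ∅ (c j)).card := by positivity
    have h6 : (G.card : ℝ) ≤ (M * n : ℕ) := by linarith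
    have h7 : (1 / 2 - 2 * δ) * G.card ≤ (1 / 2 - 2 * δ) * (M * n : ℕ) :=
      mul_le_mul_of_nonneg_left h6 (by linarith)
    have h8 : 2 * δ * G.card ≤ ρ * G.card := mul_le_mul_of_nonneg_right hδρ h4
    linarith
  refine ⟨n, M * n, c, b, G, ?_, ?_, ?_, ?_, ?_⟩
  · rw [mul_assoc]
    apply Nat.mul_le_mul_left
    rw [hnd]
    have h1 : 0 < 32 ^ q := by positivity
    nlinarith
  · have h1 : (3 / 4 : ℝ) * (M * n : ℕ) ≤ G.card := by nlinarith
    have h2 : 8 * K ≤ n := by
      have : 8 * K * 1 ≤ 8 * K * B := Nat.mul_le_mul_left _ hBpos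
      omega
    have h3 : (8 * K : ℝ) ≤ n := by exact_mod_cast h2
    have h4 : (n : ℝ) ≤ (M * n : ℕ) := by
      exact_mod_cast Nat.le_mul_of_pos_left n hM1
    have h5 : (K : ℝ) ≤ G.card := by
      have : (0 : ℝ) ≤ K := by positivity
      linarith
    exact_mod_cast h5
  · have h2 : (0 : ℝ) < G.card := by nlinarith
    exact_mod_cast h2
  · have h1 : Exp (row c) (∅ : Finset (Fin n))ᶜ G r0 := exp3_of c hc1 ∅ G (by
      intro j hj
      rw [hG, mem_filter] at hj
      exact hj.2)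
    rw [compl_empty] at h1
    have h2 : 4 * K ≤ r0 := by
      have h4 : 8 * K * B ≤ n := by omega
      have h5 : 8 * K * B < (r0 + 1) * B := lt_of_le_of_lt h4 hrn'
      have h6 : 8 * K < r0 + 1 := lt_of_mul_lt_mul_right h5 (Nat.zero_le B)
      omega
    intro a ha hw hne
    exact h1 a ha (hw.trans h2) hne
  · intro x
    have := hval x
    rw [← Finset.sum_filter, Finset.sum_const, nsmul_eq_mul, mul_one] at this
    exact this

section

variable {n m : ℕ} {c : Fin m → Fin 3 → Fin n} {b : Fin m → ZMod 2} {G : Finset (Fin m)} {K : ℕ}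

theorem cons_many (hE : Exp (row c) univ G (4 * K)) {h : Fin n → ZMod 2} (S V : Finset (Fin n)) :
    (S ∪ V).card ≤ K → Cons c b G K S h → ∃ h', Cons c b G K (S ∪ V) h' ∧ ∀ v ∈ S, h' v = h v := by
  classical
  induction V using Finset.induction_on with
  | empty =>
    intro _ hc
    exact ⟨h, by rwa [Finset.union_empty], fun _ _ => rfl⟩
  | insert u V _ ih =>
    intro hc hh
    have hsub : S ∪ V ⊆ S ∪ insert u V :=
      Finset.union_subset_union_right (Finset.subset_insert _ _)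
    obtain ⟨h1, h2, h3⟩ := ih ((Finset.card_le_card hsub).trans hc) hh
    rw [Finset.union_insert]
    by_cases hu : u ∈ S ∪ V
    · exact ⟨h1, by rwa [Finset.insert_eq_of_mem hu], h3⟩
    · obtain ⟨z, hz⟩ := cons_extend (u := u) hE ((Finset.card_le_card hsub).trans hc) h2
      refine ⟨_, hz, fun v hv => ?_⟩
      have hvu : v ≠ u := by
        rintro rfl
        exact hu (Finset.mem_union_left _ hv)
      rw [update_of_ne hvu, h3 v hv]

theorem cons_add {b b' : Fin m → ZMod 2} {S : Finset (Fin n)} {h h' : Fin n → ZMod 2}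
    (h1 : Cons c b G K S h) (h2 : Cons c b' G K S h') : Cons c (b + b') G K S (h + h') := by
  intro a ha hw hs
  have e1 := h1 a ha hw hs
  have e2 := h2 a ha hw hs
  simp only [Pi.add_apply, mul_add, Finset.sum_add_distrib]
  rw [e1, e2]

end

/-- The system with views `π φ`. -/
def gS {n m t k : ℕ} (c : Fin m → Fin 3 → Fin n) (π : Fin k → Fin t → Fin m) :
    Sys (Fin n) (Fin m) (Fin k) where
  vars φ := {v | ∃ l s, c (π φ l) s = v}
  eqs φ := {j | ∃ l, π φ l = j}
  inc := row c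
  sup := by
    rintro φ e ⟨l, rfl⟩ v hv
    by_contra hcon
    apply hv
    unfold row
    refine Finset.sum_eq_zero fun s _ => if_neg ?_
    intro hs
    exact hcon ⟨l, s, hs⟩
  comp := fun _ _ => True
  comp_symm := fun _ _ _ => trivial

/-- The variables of a view. -/
def vr {n m t k : ℕ} (c : Fin m → Fin 3 → Fin n) (π : Fin k → Fin t → Fin m) (φ : Fin k) :
    Finset (Fin n) :=
  (univ : Finset (Fin t × Fin 3)).image fun p => c (π φ p.1) p.2

theorem mem_vr {n m t k : ℕ} {c : Fin m → Fin 3 → Fin n} {π : Fin k → Fin t → Fin m} {φ : Fin k}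
    {v : Fin n} : v ∈ vr c π φ ↔ v ∈ (gS c π).vars φ := by
  unfold vr gS
  simp

theorem card_vr {n m t k : ℕ} (c : Fin m → Fin 3 → Fin n) (π : Fin k → Fin t → Fin m)
    (φ : Fin k) : (vr c π φ).card ≤ t * 3 := by
  refine Finset.card_image_le.trans ?_
  rw [Finset.card_univ, Fintype.card_prod, Fintype.card_fin, Fintype.card_fin]

theorem card_bU {n m t k : ℕ} (c : Fin m → Fin 3 → Fin n) (π : Fin k → Fin t → Fin m)
    (T : Finset (Fin k)) : (T.biUnion (vr c π)).card ≤ T.card * (t * 3) :=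
  Finset.card_biUnion_le_card_mul _ _ _ fun φ _ => card_vr c π φ

/-- Local consistency. -/
def gF {n m t k : ℕ} {c : Fin m → Fin 3 → Fin n} {G : Finset (Fin m)} {K w : ℕ}
    (π : Fin k → Fin t → Fin m) (hπ : ∀ φ l, π φ l ∈ G) (hE : Exp (row c) univ G (4 * K))
    (hK : 1 ≤ K) (hw : w * (t * 3) ≤ K) : LocFam (gS c π) w where
  Loc b T y := Cons c b G K (T.biUnion (vr c π)) y
  start b := by
    rw [Finset.biUnion_empty]
    exact cons_empty hE
  sat := by
    rintro b T y h φ hφ e ⟨l, rfl⟩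
    have h1 := cons_row hK h (hπ φ l) (fun s => Finset.mem_biUnion.2 ⟨φ, hφ, mem_vr.2 ⟨l, s, rfl⟩⟩)
    rw [← h1]
    exact row_dot c (π φ l) y
  mono b T T' y hT h := cons_mono (Finset.biUnion_subset_biUnion_of_subset_left _ hT) h
  ext := by
    intro b T y φ T' hT hc h
    have hun : T.biUnion (vr c π) ∪ vr c π φ = T'.biUnion (vr c π) := by
      ext v
      simp only [Finset.mem_union, Finset.mem_biUnion]
      constructor
      · rintro (⟨ψ, h1, h2⟩ | h2)
        · exact ⟨ψ, (hT ψ).2 (Or.inr h1), h2⟩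
        · exact ⟨φ, (hT φ).2 (Or.inl rfl), h2⟩
      · rintro ⟨ψ, h1, h2⟩
        rcases (hT ψ).1 h1 with rfl | h1
        · exact Or.inr h2
        · exact Or.inl ⟨ψ, h1, h2⟩
    obtain ⟨y', h1, h2⟩ := cons_many hE (T.biUnion (vr c π)) (vr c π φ) (by
      rw [hun]
      exact (card_bU c π T').trans ((Nat.mul_le_mul_right _ hc).trans hw)) h
    rw [hun] at h1
    exact ⟨y', h1, fun ψ hψ v hv => h2 v (Finset.mem_biUnion.2 ⟨ψ, hψ, mem_vr.2 hv⟩)⟩
  add b b' T y y' h h' := cons_add h h'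

theorem gS_det {n m t k : ℕ} (c : Fin m → Fin 3 → Fin n) (π : Fin k → Fin t → Fin m)
    {A : Type} [AddCommGroup A] [Module (ZMod 2) A] (U : Fin m → A) (φ : Fin k) :
    ∃ g : Fin (t * 3) → Fin n, ∀ p q : Vx (gS c π) U, p.fib = φ → q.fib = φ →
      (∀ i, p.co (g i) = q.co (g i)) → p = q := by
  refine ⟨fun i => c (π φ (finProdFinEquiv.symm i).1) (finProdFinEquiv.symm i).2, ?_⟩
  intro p q hp hq h
  refine Vx.ext' (hp.trans hq.symm) ?_
  funext v
  by_cases hv : v ∈ (gS c π).vars φ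
  · obtain ⟨l, s, rfl⟩ := hv
    have := h (finProdFinEquiv (l, s))
    simp only [Equiv.symm_apply_apply] at this
    exact this
  · rw [p.co_out (by rw [hp]; exact hv), q.co_out (by rw [hq]; exact hv)]

/-- **The gap version.** -/
theorem gap_pair (ε : ℝ) (hε : 0 < ε) : ∃ β : ℝ, 0 < β ∧ ∃ C : ℕ, ∀ w k : ℕ,
    C * (w + 1) ^ C ≤ k → ∀ᶠ n : ℕ in atTop, ∃ G H : SimpleGraph (Fin n), ¬ G.CliqueFree k ∧
      (∀ L : Finset (Fin n), H.IsClique L → (L.card : ℝ) ≤ ε * k) ∧
      ∀ s : ℕ → ℕ, (s n : ℝ) ≤ (n : ℝ) ^ β → ∀ q, Def w s Empty q →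
        (q (Fin n) G Empty.elim ↔ q (Fin n) H Empty.elim) := by
  classical
  obtain ⟨t, ht⟩ := exists_pow_lt_of_lt_one (show (0 : ℝ) < ε / 2 by positivity)
    (show (3 / 4 : ℝ) < 1 by norm_num)
  -- at least one equation
  obtain ⟨t', ht'1, ht'⟩ : ∃ t' : ℕ, 1 ≤ t' ∧ 2 * (3 / 4 : ℝ) ^ t' ≤ ε := by
    refine ⟨t + 1, by omega, ?_⟩
    rw [pow_succ]
    have : (0 : ℝ) < (3 / 4) ^ t := by positivity
    linarith
  obtain ⟨C0, hC0⟩ := exists_sys (1 / 4) (by norm_num)
  refine ⟨1 / (6 * t'), by positivity, (C0 * (3 * t' + 1)) ^ t' + ⌈1 / ε⌉₊ + t', ?_⟩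
  intro w k hk
  obtain ⟨K, hKd⟩ : ∃ K, K = (w + 1) * (t' * 3) := ⟨_, rfl⟩
  have hK1 : 1 ≤ K := by
    rw [hKd]
    have : 0 < (w + 1) * (t' * 3) := by positivity
    omega
  obtain ⟨n0, m0, c, b, G0, hm0, -, hG0, hE, hval⟩ := hC0 K
  -- the tuples
  obtain ⟨M, hM⟩ : ∃ M, M = G0.card ^ t' := ⟨_, rfl⟩
  have hMpos : 0 < M := by rw [hM]; positivity
  have hcardT : Fintype.card (Fin t' → G0) = M := by
    rw [Fintype.card_fun, Fintype.card_coe, Fintype.card_fin, hM]
  let eM : Fin M ≃ (Fin t' → G0) := (Fintype.equivFinOfCardEq hcardT).symm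
  have hw1 : 1 ≤ (w + 1) ^ ((C0 * (3 * t' + 1)) ^ t' + ⌈1 / ε⌉₊ + t') :=
    Nat.one_le_pow _ _ (by omega)
  have hkM : M ≤ k := by
    refine le_trans ?_ hk
    have h1 : G0.card ≤ C0 * (3 * t' + 1) * (w + 1) := by
      have h2 : G0.card ≤ m0 := by
        have := Finset.card_le_univ G0
        rwa [Fintype.card_fin] at this
      refine h2.trans (hm0.trans ?_)
      rw [mul_assoc]
      apply Nat.mul_le_mul_left
      rw [hKd]
      nlinarith
    calc M ≤ (C0 * (3 * t' + 1) * (w + 1)) ^ t' := by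
          rw [hM]; exact Nat.pow_le_pow_left h1 _
      _ = (C0 * (3 * t' + 1)) ^ t' * (w + 1) ^ t' := by rw [mul_pow]
      _ ≤ _ := Nat.mul_le_mul (by omega) (Nat.pow_le_pow_right (by omega) (by omega))
  have hkε : 1 / ε ≤ k := by
    refine (Nat.le_ceil _).trans ?_
    have : ⌈1 / ε⌉₊ ≤ k := by
      refine le_trans ?_ hk
      calc ⌈1 / ε⌉₊ = ⌈1 / ε⌉₊ * 1 := (mul_one _).symm
        _ ≤ _ := Nat.mul_le_mul (by omega) hw1
    exact_mod_cast this
  have hk1 : 1 ≤ k := by omega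
  let π : Fin k → Fin t' → Fin m0 := fun φ l => (eM ⟨φ.1 % M, Nat.mod_lt _ hMpos⟩ l).1
  have hπ : ∀ φ l, π φ l ∈ G0 := fun φ l => (eM ⟨φ.1 % M, Nat.mod_lt _ hMpos⟩ l).2
  have hε1 : 1 ≤ ε * k := by
    rw [div_le_iff₀ hε] at hkε
    linarith
  have hB1 : 1 ≤ ⌊ε * k⌋₊ := Nat.le_floor (by exact_mod_cast hε1)
  have hβ : ∀ x : Fin n0 → ZMod 2, (univ.filter fun φ : Fin k => ∀ e ∈ (gS c π).eqs φ,
      ∑ v, (gS c π).inc e v * x v = b e).card ≤ ⌊ε * k⌋₊ := by
    intro x
    apply Nat.le_floor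
    obtain ⟨Gx, hGx⟩ : ∃ Gx : Finset (Fin m0), Gx = G0.filter fun j => ∑ l, x (c j l) = b j :=
      ⟨_, rfl⟩
    have h1 : (Gx.card : ℝ) ≤ (3 / 4) * G0.card := by
      have := hval x
      rw [← hGx] at this
      linarith
    -- injection
    have h2 : (univ.filter fun φ : Fin k => ∀ e ∈ (gS c π).eqs φ,
        ∑ v, (gS c π).inc e v * x v = b e).card ≤
        ((Fintype.piFinset fun _ : Fin t' => Gx) ×ˢ Finset.range (k / M + 1)).card := by
      refine Finset.card_le_card_of_injOn (fun φ => (π φ, φ.1 / M)) ?_ ?_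
      · intro φ hφ
        have hφ' := (Finset.mem_filter.1 (Finset.mem_coe.1 hφ)).2
        rw [Finset.mem_coe, Finset.mem_product, Fintype.mem_piFinset, Finset.mem_range]
        constructor
        · intro l
          rw [hGx, Finset.mem_filter]
          refine ⟨hπ φ l, ?_⟩
          rw [← hφ' (π φ l) ⟨l, rfl⟩]
          exact (row_dot c (π φ l) x).symm
        · show φ.1 / M < k / M + 1
          exact Nat.lt_succ_of_le (Nat.div_le_div_right φ.2.le)
      · intro φ _ ψ _ hφψ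
        have e1 : π φ = π ψ := congrArg Prod.fst hφψ
        have e2 : φ.1 / M = ψ.1 / M := congrArg Prod.snd hφψ
        have e3 : eM ⟨φ.1 % M, Nat.mod_lt _ hMpos⟩ = eM ⟨ψ.1 % M, Nat.mod_lt _ hMpos⟩ := by
          funext l
          exact Subtype.ext (congrFun e1 l)
        have e4 : φ.1 % M = ψ.1 % M := congrArg Fin.val (eM.injective e3)
        apply Fin.ext
        rw [← Nat.div_add_mod φ.1 M, ← Nat.div_add_mod ψ.1 M, e2, e4]
    rw [Finset.card_product, Fintype.card_piFinset, Finset.card_range] at h2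
    simp only [Finset.prod_const, Finset.card_univ, Fintype.card_fin] at h2
    have h3 : ((univ.filter fun φ : Fin k => ∀ e ∈ (gS c π).eqs φ,
        ∑ v, (gS c π).inc e v * x v = b e).card : ℝ) ≤ (Gx.card : ℝ) ^ t' * ((k / M : ℕ) + 1) := by
      exact_mod_cast h2
    refine h3.trans ?_
    have hG0' : (0 : ℝ) < G0.card := by exact_mod_cast hG0
    have hM' : (M : ℝ) = (G0.card : ℝ) ^ t' := by rw [hM]; push_cast; rfl
    have hMr : (0 : ℝ) < M := by exact_mod_cast hMpos
    have h4 : (Gx.card : ℝ) ^ t' ≤ (3 / 4) ^ t' * M := by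
      rw [hM', ← mul_pow]
      exact pow_le_pow_left₀ (by positivity) h1 _
    have h5 : ((k / M : ℕ) : ℝ) + 1 ≤ 2 * (k / M) := by
      have h6 : ((k / M : ℕ) : ℝ) ≤ (k : ℝ) / M := Nat.cast_div_le
      have h7 : (1 : ℝ) ≤ (k : ℝ) / M := by
        rw [le_div_iff₀ hMr, one_mul]
        exact_mod_cast hkM
      linarith
    calc (Gx.card : ℝ) ^ t' * ((k / M : ℕ) + 1) ≤ ((3 / 4) ^ t' * M) * (2 * (k / M)) := by
          apply mul_le_mul h4 h5 (by positivity) (by positivity)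
      _ = (2 * (3 / 4) ^ t') * k := by field_simp
      _ ≤ ε * k := mul_le_mul_of_nonneg_right ht' (by positivity)
  have hD : (1 / (6 * (t' : ℝ))) * ((t' * 3 : ℕ) : ℝ) < 1 := by
    push_cast
    have : (0 : ℝ) < t' := by exact_mod_cast ht'1
    field_simp
    norm_num
  filter_upwards [exists_m (t' * 3) ((w + 1) * Fintype.card (Fin n0) + Nat.card (Fin m0) + 1) k
    (by omega) hk1 (1 / (6 * (t' : ℝ))) hD] with n hn
  obtain ⟨m, hm1, hm2, hm3⟩ := hn
  obtain ⟨G, H, h1, h2, h3⟩ := general_pair (n := n) (m := m)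
    (gF (w := w + 1) π hπ hE hK1 (by rw [hKd])) (by omega) (fun _ _ _ => trivial) b
    (B := ⌊ε * k⌋₊) hB1 (fun x => by convert hβ x) (t' * 3)
    (fun m φ => gS_det c π _ φ) hm1 (by rw [Fintype.card_fin]; exact hm2)
  refine ⟨G, H, by rwa [Fintype.card_fin] at h1, ?_, ?_⟩
  · intro L hL
    exact le_trans (by exact_mod_cast h2 L hL) (Nat.floor_le (by positivity))
  · intro s hs q hq
    exact h3 w s (by omega) (hm3 _ hs) q hq

end Run7.h625.SQ
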