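import Pool.Agent.Run7.h625.SQ.Fin

set_option autoImplicit false

/-! The total gap version: cliques with `k` vertices against cliques with `C (w + 1)` vertices, for
all `k`. The views are clusters of equations. -/

namespace Run7.h625.SQ

open Finset Filter Function
open Matrix hiding row
open Pool.Agent.W888.GX (row Exp row_dot)
open Run7.h625.CW (Cons cons_mono cons_extend cons_empty cons_row)

/-- The system with clusters `P φ`. -/
def cS {n m k : ℕ} (c : Fin m → Fin 3 → Fin n) (P : Fin k → Finset (Fin m)) :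
    Sys (Fin n) (Fin m) (Fin k) where
  vars φ := {v | ∃ j ∈ P φ, ∃ s, c j s = v}
  eqs φ := {j | j ∈ P φ}
  inc := row c
  sup := by
    intro φ e he v hv
    by_contra hcon
    apply hv
    unfold row
    refine Finset.sum_eq_zero fun s _ => if_neg ?_
    intro hs
    exact hcon ⟨e, he, s, hs⟩
  comp := fun _ _ => True
  comp_symm := fun _ _ _ => trivial

/-- The variables of a cluster. -/
def vc {n m k : ℕ} (c : Fin m → Fin 3 → Fin n) (P : Fin k → Finset (Fin m)) (φ : Fin k) :
    Finset (Fin n) :=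
  (P φ).biUnion fun j => univ.image (c j)

theorem mem_vc {n m k : ℕ} {c : Fin m → Fin 3 → Fin n} {P : Fin k → Finset (Fin m)} {φ : Fin k}
    {v : Fin n} : v ∈ vc c P φ ↔ v ∈ (cS c P).vars φ := by
  unfold vc cS
  simp

theorem card_vc {n m k : ℕ} (c : Fin m → Fin 3 → Fin n) (P : Fin k → Finset (Fin m))
    (φ : Fin k) : (vc c P φ).card ≤ (P φ).card * 3 :=
  Finset.card_biUnion_le_card_mul _ _ _ fun j _ =>
    Finset.card_image_le.trans (by rw [Finset.card_univ, Fintype.card_fin])

/-- Local consistency. -/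
def cF {n m k : ℕ} {c : Fin m → Fin 3 → Fin n} {G : Finset (Fin m)} {K w : ℕ}
    (P : Fin k → Finset (Fin m)) (hP : ∀ φ, P φ ⊆ G) (hE : Exp (row c) univ G (4 * K))
    (hK : 1 ≤ K) (hw : ∀ φ, w * ((P φ).card * 3) ≤ K) (hw1 : 1 ≤ w) : LocFam (cS c P) w where
  Loc b T y := Cons c b G K (T.biUnion (vc c P)) y
  start b := by
    rw [Finset.biUnion_empty]
    exact cons_empty hE
  sat := by
    intro b T y h φ hφ e he
    have h1 := cons_row hK h (hP φ he)
      (fun s => Finset.mem_biUnion.2 ⟨φ, hφ, mem_vc.2 ⟨e, he, s, rfl⟩⟩)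
    rw [← h1]
    exact row_dot c e y
  mono b T T' y hT h := cons_mono (Finset.biUnion_subset_biUnion_of_subset_left _ hT) h
  ext := by
    intro b T y φ T' hT hc h
    have hun : T.biUnion (vc c P) ∪ vc c P φ = T'.biUnion (vc c P) := by
      ext v
      simp only [Finset.mem_union, Finset.mem_biUnion]
      constructor
      · rintro (⟨ψ, h1, h2⟩ | h2)
        · exact ⟨ψ, (hT ψ).2 (Or.inr h1), h2⟩
        · exact ⟨φ, (hT φ).2 (Or.inl rfl), h2⟩
      · rintro ⟨ψ, h1, h2⟩
        rcases (hT ψ).1 h1 with rfl | h1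
        · exact Or.inr h2
        · exact Or.inl ⟨ψ, h1, h2⟩
    have hcard : (T'.biUnion (vc c P)).card ≤ K := by
      have h1 : (T'.biUnion (vc c P)).card ≤ T'.card * (K / w) :=
        Finset.card_biUnion_le_card_mul _ _ _ fun ψ _ => by
          refine (card_vc c P ψ).trans ?_
          rw [Nat.le_div_iff_mul_le hw1, mul_comm]
          exact hw ψ
      refine h1.trans ((Nat.mul_le_mul_right _ hc).trans ?_)
      rw [mul_comm]
      exact Nat.div_mul_le_self K w
    obtain ⟨y', h1, h2⟩ := cons_many hE (T.biUnion (vc c P)) (vc c P φ) (by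
      rw [hun]
      exact hcard) h
    rw [hun] at h1
    exact ⟨y', h1, fun ψ hψ v hv => h2 v (Finset.mem_biUnion.2 ⟨ψ, hψ, mem_vc.2 hv⟩)⟩
  add b b' T y y' h h' := cons_add h h'

/-- Equidistributed labels. -/
theorem exists_labels {m k r : ℕ} (hr : 0 < r) (G : Finset (Fin m)) :
    ∃ F : Fin m → (Fin k → Fin r), ∀ Z : Finset (Fin k → Fin r),
      (G.filter fun e => F e ∈ Z).card ≤ Z.card * (G.card / r ^ k + 1) := by
  classical
  have hpos : 0 < r ^ k := by positivity
  let idx : Fin m → ℕ := fun e => if h : e ∈ G then (G.equivFin ⟨e, h⟩).1 else 0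
  have hidx : ∀ e (h : e ∈ G), idx e = (G.equivFin ⟨e, h⟩).1 := fun e h => dif_pos h
  refine ⟨fun e => finFunctionFinEquiv.symm ⟨idx e % r ^ k, Nat.mod_lt _ hpos⟩, fun Z => ?_⟩
  have h1 : (Z ×ˢ Finset.range (G.card / r ^ k + 1)).card = Z.card * (G.card / r ^ k + 1) := by
    rw [Finset.card_product, Finset.card_range]
  rw [← h1]
  refine Finset.card_le_card_of_injOn
    (fun e => (finFunctionFinEquiv.symm ⟨idx e % r ^ k, Nat.mod_lt _ hpos⟩, idx e / r ^ k)) ?_ ?_
  · intro e he
    have he' := Finset.mem_filter.1 (Finset.mem_coe.1 he)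
    rw [Finset.mem_coe, Finset.mem_product, Finset.mem_range]
    refine ⟨he'.2, ?_⟩
    show idx e / r ^ k < G.card / r ^ k + 1
    refine Nat.lt_succ_of_le (Nat.div_le_div_right ?_)
    rw [hidx e he'.1]
    exact (G.equivFin ⟨e, he'.1⟩).2.le
  · intro e he e' he' hee
    have hG := (Finset.mem_filter.1 (Finset.mem_coe.1 he)).1
    have hG' := (Finset.mem_filter.1 (Finset.mem_coe.1 he')).1
    have e1 : finFunctionFinEquiv.symm (⟨idx e % r ^ k, Nat.mod_lt _ hpos⟩ : Fin (r ^ k)) =
      finFunctionFinEquiv.symm ⟨idx e' % r ^ k, Nat.mod_lt _ hpos⟩ := congrArg Prod.fst hee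
    have e2 : idx e / r ^ k = idx e' / r ^ k := congrArg Prod.snd hee
    have e3 : idx e % r ^ k = idx e' % r ^ k :=
      congrArg Fin.val (finFunctionFinEquiv.symm.injective e1)
    have e4 : idx e = idx e' := by
      rw [← Nat.div_add_mod (idx e) (r ^ k), ← Nat.div_add_mod (idx e') (r ^ k), e2, e3]
    rw [hidx e hG, hidx e' hG'] at e4
    have e5 := G.equivFin.injective (Fin.ext e4)
    exact congrArg Subtype.val e5

/-- **The total gap version.** -/
theorem total_gap : ∃ C : ℕ, ∀ w k : ℕ, ∃ β : ℝ, 0 < β ∧ ∀ᶠ n : ℕ in atTop,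
    ∃ G H : SimpleGraph (Fin n), ¬ G.CliqueFree k ∧
      (∀ L : Finset (Fin n), H.IsClique L → L.card ≤ C * (w + 1)) ∧
      ∀ s : ℕ → ℕ, (s n : ℝ) ≤ (n : ℝ) ^ β → ∀ q, Def w s Empty q →
        (q (Fin n) G Empty.elim ↔ q (Fin n) H Empty.elim) := by
  classical
  obtain ⟨C0, hC0⟩ := exists_sys (1 / 4) (by norm_num)
  refine ⟨36 * C0 + 3, fun w k' => ?_⟩
  obtain ⟨k, hkd⟩ : ∃ k, k = k' + 1 := ⟨_, rfl⟩
  obtain ⟨r, hrd⟩ : ∃ r, r = 12 * C0 * (w + 1) + 1 := ⟨_, rfl⟩
  have hr : 0 < r := by omega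
  obtain ⟨K, hKd⟩ : ∃ K, K = r ^ k := ⟨_, rfl⟩
  have hK1 : 1 ≤ K := by rw [hKd]; exact Nat.one_le_pow _ _ hr
  obtain ⟨n0, m0, c, b, G0, hm0, hKG, hG0, hE, hval⟩ := hC0 K
  have hG0m : G0.card ≤ C0 * (K + 1) := by
    have := Finset.card_le_univ G0
    rw [Fintype.card_fin] at this
    exact this.trans hm0
  obtain ⟨F, hF⟩ := exists_labels (k := k) hr G0
  haveI : NeZero r := ⟨by omega⟩
  let P : Fin k → Finset (Fin m0) := fun φ => G0.filter fun e => F e φ = 0
  have hPG : ∀ φ, P φ ⊆ G0 := fun φ => Finset.filter_subset _ _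
  have hGr : (0 : ℝ) < G0.card := by exact_mod_cast hG0
  have hrr : (0 : ℝ) < r := by exact_mod_cast hr
  -- the number of labels is at most the number of equations
  have hdiv : ((G0.card / r ^ k : ℕ) : ℝ) + 1 ≤ 2 * (G0.card / (r : ℝ) ^ k) := by
    have h6 : ((G0.card / r ^ k : ℕ) : ℝ) ≤ (G0.card : ℝ) / (r : ℝ) ^ k := by
      have := Nat.cast_div_le (α := ℝ) (m := G0.card) (n := r ^ k)
      push_cast at this
      exact this
    have h7 : (1 : ℝ) ≤ (G0.card : ℝ) / (r : ℝ) ^ k := by
      rw [le_div_iff₀ (by positivity), one_mul]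
      have : r ^ k ≤ G0.card := by rw [← hKd]; exact hKG
      exact_mod_cast this
    linarith
  have hFr : ∀ Z : Finset (Fin k → Fin r), ((G0.filter fun e => F e ∈ Z).card : ℝ) ≤
      2 * G0.card * (Z.card / (r : ℝ) ^ k) := by
    intro Z
    have h1 : ((G0.filter fun e => F e ∈ Z).card : ℝ) ≤ Z.card * ((G0.card / r ^ k : ℕ) + 1) := by
      exact_mod_cast hF Z
    refine h1.trans ?_
    calc (Z.card : ℝ) * ((G0.card / r ^ k : ℕ) + 1) ≤ Z.card * (2 * (G0.card / (r : ℝ) ^ k)) :=
          mul_le_mul_of_nonneg_left hdiv (by positivity)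
      _ = 2 * G0.card * (Z.card / (r : ℝ) ^ k) := by ring
  -- the size of the clusters
  have hPcard : ∀ φ, (w + 1) * ((P φ).card * 3) ≤ K := by
    intro φ
    have h1 := hFr (Fintype.piFinset fun i => if i = φ then ({0} : Finset (Fin r)) else univ)
    have h2 : (G0.filter fun e => F e ∈ Fintype.piFinset
        fun i => if i = φ then ({0} : Finset (Fin r)) else univ) = P φ := by
      apply Finset.filter_congr
      intro e _
      rw [Fintype.mem_piFinset]
      constructor
      · intro h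
        have := h φ
        rw [if_pos rfl, Finset.mem_singleton] at this
        exact this
      · intro h i
        by_cases hi : i = φ
        · rw [if_pos hi, hi, Finset.mem_singleton]; exact h
        · rw [if_neg hi]; exact Finset.mem_univ _
    have h3 : ((Fintype.piFinset fun i : Fin k => if i = φ then ({0} : Finset (Fin r)) else univ).card
        : ℝ) * r = (r : ℝ) ^ k := by
      rw [Fintype.card_piFinset, ← Finset.mul_prod_erase _ _ (Finset.mem_univ φ), if_pos rfl,
        Finset.card_singleton, one_mul]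
      have h4 : ∏ x ∈ univ.erase φ, (if x = φ then ({0} : Finset (Fin r)) else univ).card =
          r ^ (k - 1) := by
        rw [Finset.prod_congr rfl (g := fun _ => r) (fun x hx => by
          rw [if_neg (Finset.ne_of_mem_erase hx), Finset.card_univ, Fintype.card_fin])]
        rw [Finset.prod_const, Finset.card_erase_of_mem (Finset.mem_univ _), Finset.card_univ,
          Fintype.card_fin]
      rw [h4]
      push_cast
      rw [← pow_succ]
      congr 1
      omega
    rw [h2] at h1
    have h5 : ((P φ).card : ℝ) * r ≤ 2 * G0.card := by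
      have h6 : ((P φ).card : ℝ) * r ≤ (2 * G0.card *
          ((Fintype.piFinset fun i : Fin k => if i = φ then ({0} : Finset (Fin r)) else univ).card
            / (r : ℝ) ^ k)) * r := mul_le_mul_of_nonneg_right h1 hrr.le
      refine h6.trans (le_of_eq ?_)
      have h7 : (r : ℝ) ^ k ≠ 0 := by positivity
      rw [← h3] at h7 ⊢
      field_simp
    have h6 : (P φ).card * r ≤ 2 * G0.card := by exact_mod_cast h5
    have h7 : ((w + 1) * ((P φ).card * 3)) * r ≤ K * r := by
      calc ((w + 1) * ((P φ).card * 3)) * r = 3 * (w + 1) * ((P φ).card * r) := by ring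
        _ ≤ 3 * (w + 1) * (2 * G0.card) := Nat.mul_le_mul_left _ h6
        _ ≤ 3 * (w + 1) * (2 * (C0 * (K + 1))) :=
            Nat.mul_le_mul_left _ (Nat.mul_le_mul_left _ hG0m)
        _ ≤ 3 * (w + 1) * (2 * (C0 * (K + K))) :=
            Nat.mul_le_mul_left _ (Nat.mul_le_mul_left _ (Nat.mul_le_mul_left _ (by omega)))
        _ = K * (12 * C0 * (w + 1)) := by ring
        _ ≤ K * r := Nat.mul_le_mul_left _ (by omega)
    exact Nat.le_of_mul_le_mul_right h7 hr
  -- satisfied clusters
  have hβ : ∀ x : Fin n0 → ZMod 2, (univ.filter fun φ : Fin k => ∀ e ∈ (cS c P).eqs φ,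
      ∑ v, (cS c P).inc e v * x v = b e).card ≤ 3 * r := by
    intro x
    by_contra hcon
    rw [not_le] at hcon
    obtain ⟨Hs, hHs⟩ : ∃ Hs : Finset (Fin k), Hs = univ.filter fun φ : Fin k =>
      ∀ e ∈ (cS c P).eqs φ, ∑ v, (cS c P).inc e v * x v = b e := ⟨_, rfl⟩
    rw [← hHs] at hcon
    have hsat : ∀ φ ∈ Hs, ∀ e ∈ P φ, ∑ l, x (c e l) = b e := by
      intro φ hφ e he
      rw [hHs, Finset.mem_filter] at hφ
      rw [← hφ.2 e he]
      exact (row_dot c e x).symm
    have h1 := hFr (Fintype.piFinset fun i => if i ∈ Hs then (univ.erase (0 : Fin r)) else univ)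
    -- equations that are not covered
    have h2 : G0 ⊆ (G0.filter fun j => ∑ l, x (c j l) = b j) ∪ (G0.filter fun e => F e ∈
        Fintype.piFinset fun i => if i ∈ Hs then (univ.erase (0 : Fin r)) else univ) := by
      intro e he
      rw [Finset.mem_union, Finset.mem_filter, Finset.mem_filter]
      by_cases hcov : ∃ φ ∈ Hs, F e φ = 0
      · obtain ⟨φ, hφ, hz⟩ := hcov
        exact Or.inl ⟨he, hsat φ hφ e (Finset.mem_filter.2 ⟨he, hz⟩)⟩
      · push Not at hcov
        refine Or.inr ⟨he, ?_⟩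
        rw [Fintype.mem_piFinset]
        intro i
        by_cases hi : i ∈ Hs
        · rw [if_pos hi, Finset.mem_erase]
          exact ⟨hcov i hi, Finset.mem_univ _⟩
        · rw [if_neg hi]; exact Finset.mem_univ _
    have h3 := (Finset.card_le_card h2).trans (Finset.card_union_le _ _)
    have h3' : (G0.card : ℝ) ≤ ((G0.filter fun j => ∑ l, x (c j l) = b j).card : ℝ) +
        ((G0.filter fun e => F e ∈ Fintype.piFinset
          fun i => if i ∈ Hs then (univ.erase (0 : Fin r)) else univ).card : ℝ) := by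
      exact_mod_cast h3
    have h4 : ((Fintype.piFinset fun i : Fin k =>
        if i ∈ Hs then (univ.erase (0 : Fin r)) else univ).card : ℝ) / (r : ℝ) ^ k ≤ 1 / 9 := by
      rw [Fintype.card_piFinset]
      have h5 : ∏ i : Fin k, (if i ∈ Hs then (univ.erase (0 : Fin r)) else univ).card =
          (r - 1) ^ Hs.card * r ^ (k - Hs.card) := by
        rw [← Finset.prod_mul_prod_compl Hs]
        congr 1
        · rw [Finset.prod_congr rfl (g := fun _ => r - 1) (fun i hi => by
            rw [if_pos hi, Finset.card_erase_of_mem (Finset.mem_univ _), Finset.card_univ,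
              Fintype.card_fin])]
          rw [Finset.prod_const]
        · rw [Finset.prod_congr rfl (g := fun _ => r) (fun i hi => by
            rw [if_neg (Finset.mem_compl.1 hi), Finset.card_univ, Fintype.card_fin])]
          rw [Finset.prod_const, Finset.card_compl, Fintype.card_fin]
      rw [h5]
      have hHk : Hs.card ≤ k := by
        have := Finset.card_le_univ Hs
        rwa [Fintype.card_fin] at this
      push_cast
      rw [Nat.cast_sub (by omega : 1 ≤ r), Nat.cast_one]
      have h6 : (r : ℝ) ^ k = (r : ℝ) ^ Hs.card * (r : ℝ) ^ (k - Hs.card) := by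
        rw [← pow_add]; congr 1; omega
      rw [h6, mul_div_mul_right _ _ (by positivity), ← div_pow]
      have h7 : ((r : ℝ) - 1) / r = 1 - 1 / r := by field_simp
      rw [h7]
      have h8 : (1 - 1 / (r : ℝ)) ≤ Real.exp (-(1 / r)) := by
        have := Real.add_one_le_exp (-(1 / (r : ℝ)))
        linarith
      have h80 : 0 ≤ (1 - 1 / (r : ℝ)) := by
        have : 1 / (r : ℝ) ≤ 1 := by
          rw [div_le_one hrr]
          exact_mod_cast hr
        linarith
      have h9 : (1 - 1 / (r : ℝ)) ^ Hs.card ≤ Real.exp (-3) := by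
        calc (1 - 1 / (r : ℝ)) ^ Hs.card ≤ (Real.exp (-(1 / r))) ^ Hs.card :=
              pow_le_pow_left₀ h80 h8 _
          _ = Real.exp (-(Hs.card / r)) := by
              rw [← Real.exp_nat_mul]; congr 1; ring
          _ ≤ Real.exp (-3) := by
              apply Real.exp_le_exp.2
              have : (3 : ℝ) ≤ Hs.card / r := by
                rw [le_div_iff₀ hrr]
                exact_mod_cast hcon.le
              linarith
      refine h9.trans ?_
      rw [Real.exp_neg, inv_eq_one_div]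
      apply one_div_le_one_div_of_le (by norm_num)
      have h10 : (2 : ℝ) ≤ Real.exp 1 := by
        have := Real.add_one_le_exp (1 : ℝ)
        linarith
      have h11 : (2.7182818283 : ℝ) < Real.exp 1 := Real.exp_one_gt_d9
      have h12 : Real.exp 3 = Real.exp 1 ^ 3 := by
        rw [← Real.exp_nat_mul]; norm_num
      rw [h12]
      nlinarith [sq_nonneg (Real.exp 1 - 2.7), sq_nonneg (Real.exp 1)]
    have h5 := hval x
    have h6 : 2 * (G0.card : ℝ) * (((Fintype.piFinset fun i : Fin k =>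
        if i ∈ Hs then (univ.erase (0 : Fin r)) else univ).card : ℝ) / (r : ℝ) ^ k) ≤
        2 * (G0.card : ℝ) * (1 / 9) := mul_le_mul_of_nonneg_left h4 (by positivity)
    linarith
  have hn0 : 1 ≤ n0 := by
    obtain ⟨j, _⟩ := Finset.card_pos.1 hG0
    have := (c j 0).2
    omega
  refine ⟨1 / (2 * n0), by positivity, ?_⟩
  have hD : (1 / (2 * (n0 : ℝ))) * (n0 : ℝ) < 1 := by
    have : (0 : ℝ) < n0 := by exact_mod_cast hn0
    field_simp
    norm_num
  filter_upwards [exists_m n0 ((w + 1) * Fintype.card (Fin n0) + Nat.card (Fin m0) + 1) k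
    hn0 (by omega) (1 / (2 * (n0 : ℝ))) hD] with n hn
  obtain ⟨m, hm1, hm2, hm3⟩ := hn
  obtain ⟨G, H, h1, h2, h3⟩ := general_pair (n := n) (m := m)
    (cF (w := w + 1) P hPG hE hK1 hPcard (by omega)) (by omega) (fun _ _ _ => trivial) b
    (B := 3 * r) (by omega) (fun x => by convert hβ x) n0
    (fun m φ => ⟨id, fun p q hp hq h => Vx.ext' (hp.trans hq.symm) (funext h)⟩) hm1
    (by rw [Fintype.card_fin]; exact hm2)
  refine ⟨G, H, ?_, ?_, ?_⟩
  · intro hc
    rw [Fintype.card_fin] at h1
    exact h1 (hc.mono (by omega))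
  · intro L hL
    refine (h2 L hL).trans ?_
    rw [hrd]
    nlinarith
  · intro s hs q hq
    exact h3 w s (by omega) (hm3 _ hs) q hq

/-- **No Turing reductions** of the total gap clique problem. -/
theorem no_turing_total : ∃ C : ℕ, ∀ (c w k : ℕ) (f g : ℕ → ℕ), ∀ᶠ n : ℕ in atTop, ∀ q,
    Def w (fun n => g k * (Nat.log 2 (f k * n ^ c) + 1)) Empty q →
      ∃ G : SimpleGraph (Fin n), (¬ G.CliqueFree k ∧ ¬ q (Fin n) G Empty.elim) ∨
        ((∀ L : Finset (Fin n), G.IsClique L → L.card ≤ C * (w + 1)) ∧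
          q (Fin n) G Empty.elim) := by
  obtain ⟨C, hC⟩ := total_gap
  refine ⟨C, fun c w k f g => ?_⟩
  obtain ⟨β, hβ, hn⟩ := hC w k
  filter_upwards [hn, log_small (f k) (g k) c β hβ] with n hn hs q hq
  obtain ⟨G, H, h1, h2, h3⟩ := hn
  have h4 := h3 (fun n => g k * (Nat.log 2 (f k * n ^ c) + 1)) hs q hq
  by_cases hG : q (Fin n) G Empty.elim
  · exact ⟨H, Or.inr ⟨h2, h4.1 hG⟩⟩
  · exact ⟨G, Or.inl ⟨h1, hG⟩⟩

end Run7.h625.SQ
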