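import Mathlib

set_option autoImplicit false

/-! A small index property for translations and transvections. -/

namespace Run7.h625.SQ

open Finset

variable {A : Type} [AddCommGroup A] [Module (ZMod 2) A] [Finite A]

theorem zmod_cases (c : ZMod 2) : c = 0 ∨ c = 1 := by
  revert c; decide

theorem card_dual : Nat.card (Module.Dual (ZMod 2) A) = Nat.card A := by
  rw [Module.natCard_eq_pow_finrank (K := ZMod 2) (V := Module.Dual (ZMod 2) A),
    Module.natCard_eq_pow_finrank (K := ZMod 2) (V := A), Subspace.dual_finrank_eq]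

theorem card_annih (B : Submodule (ZMod 2) A) :
    Nat.card B * Nat.card B.dualAnnihilator = Nat.card A := by
  rw [Module.natCard_eq_pow_finrank (K := ZMod 2) (V := A),
    Module.natCard_eq_pow_finrank (K := ZMod 2) (V := B),
    Module.natCard_eq_pow_finrank (K := ZMod 2) (V := B.dualAnnihilator), ← pow_add,
    Subspace.finrank_add_finrank_dualAnnihilator_eq]

/-- The functionals which vanish on `a₀` and on all `u t`. -/
def Lam {T : Type} (u : T → A) (a₀ : A) : Submodule (ZMod 2) (Module.Dual (ZMod 2) A) where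
  carrier := {l | l a₀ = 0 ∧ ∀ t, l (u t) = 0}
  add_mem' := by
    rintro a b ⟨h1, h2⟩ ⟨h3, h4⟩
    exact ⟨by simp [h1, h3], fun t => by simp [h2 t, h4 t]⟩
  zero_mem' := ⟨by simp, fun t => by simp⟩
  smul_mem' := by
    rintro c a ⟨h1, h2⟩
    exact ⟨by simp [h1], fun t => by simp [h2 t]⟩

theorem card_lam {T : Type} [Finite T] (u : T → A) (a₀ : A) :
    Nat.card A ≤ Nat.card (Lam u a₀) * 2 ^ (Nat.card T + 1) := by
  classical
  haveI := Fintype.ofFinite T
  let ev : Module.Dual (ZMod 2) A →ₗ[ZMod 2] (Option T → ZMod 2) :=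
    { toFun := fun l o => l (o.elim a₀ u)
      map_add' := fun a b => by funext o; simp
      map_smul' := fun c a => by funext o; simp }
  have hker : LinearMap.ker ev = Lam u a₀ := by
    ext l
    rw [LinearMap.mem_ker]
    constructor
    · intro h
      exact ⟨congrFun h none, fun t => congrFun h (some t)⟩
    · intro h
      funext o
      cases o with
      | none => exact h.1
      | some t => exact h.2 t
  have h1 := LinearMap.finrank_range_add_finrank_ker ev
  have h2 : Module.finrank (ZMod 2) (LinearMap.range ev) ≤ Nat.card T + 1 := by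
    refine le_trans (Submodule.finrank_le _) ?_
    rw [Module.finrank_fintype_fun_eq_card, Fintype.card_option, Nat.card_eq_fintype_card]
  rw [hker] at h1
  rw [← card_dual (A := A), Module.natCard_eq_pow_finrank (K := ZMod 2)
    (V := Module.Dual (ZMod 2) A), Module.natCard_eq_pow_finrank (K := ZMod 2) (V := Lam u a₀),
    ← h1]
  simp only [Nat.card_zmod]
  rw [← pow_add]
  exact Nat.pow_le_pow_right (by norm_num) (by omega)

/-- Small index: if translations `tau` and transvections `gl` act on a set with a map to less than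
`|L|` values, compatibly, then `tau a₀` preserves the values. -/
theorem small_index {X : Type} {N : ℕ} (h : X → Fin N) (tau : A → X → X) (a₀ : A)
    (L : Submodule (ZMod 2) (Module.Dual (ZMod 2) A)) (gl : L → X → X)
    (hL : ∀ l ∈ L, l a₀ = 0)
    (tau_add : ∀ d e x, tau d (tau e x) = tau (d + e) x) (tau_zero : ∀ x, tau 0 x = x)
    (gl_gl : ∀ l x, gl l (gl l x) = x)
    (conj : ∀ (l : L) d x, gl l (tau d (gl l x)) =
      tau (d + (l : Module.Dual (ZMod 2) A) d • a₀) x)
    (inv_tau : ∀ d x y, h x = h y → h (tau d x) = h (tau d y))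
    (inv_gl : ∀ l x y, h x = h y → h (gl l x) = h (gl l y))
    (hN : N < Nat.card L) (x : X) : h (tau a₀ x) = h x := by
  classical
  haveI := Fintype.ofFinite A
  haveI : Finite (Module.Dual (ZMod 2) A) := Module.finite_of_finite (ZMod 2)
  haveI := Fintype.ofFinite (Module.Dual (ZMod 2) A)
  by_contra ha
  let B : Submodule (ZMod 2) A :=
    { carrier := {d | h (tau d x) = h x}
      add_mem' := by
        intro d e hd he
        show h (tau (d + e) x) = h x
        rw [← tau_add, inv_tau d _ _ he]
        exact hd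
      zero_mem' := by show h (tau 0 x) = h x; rw [tau_zero]
      smul_mem' := by
        intro c d hd
        rcases zmod_cases c with rfl | rfl
        · show h (tau ((0 : ZMod 2) • d) x) = h x
          rw [zero_smul, tau_zero]
        · show h (tau ((1 : ZMod 2) • d) x) = h x
          rw [one_smul]; exact hd }
  have hB : ∀ d, d ∈ B ↔ h (tau d x) = h x := fun d => Iff.rfl
  have haB : a₀ ∉ B := ha
  have two : ∀ a : A, a + a = 0 := fun a => ZModModule.add_self a
  -- first claim
  have claim1 : ∀ d d' : A, ∀ l l' : L,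
      h (tau d (gl l x)) = h (tau d' (gl l' x)) →
      ((l : Module.Dual (ZMod 2) A) + l') ∈ B.dualAnnihilator := by
    intro d d' ⟨l, hl⟩ ⟨l', hl'⟩ hh
    rw [Submodule.mem_dualAnnihilator]
    intro e he
    rw [hB] at he
    by_contra hne
    have hone : (l + l') e = 1 := (zmod_cases _).resolve_left hne
    apply haB
    -- `e'` is the image of `e`
    have h1 : h (tau (e + l e • a₀) (gl ⟨l, hl⟩ x)) = h (gl ⟨l, hl⟩ x) := by
      have := inv_gl ⟨l, hl⟩ _ _ he
      have hc := conj ⟨l, hl⟩ e (gl ⟨l, hl⟩ x)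
      rw [gl_gl] at hc
      rw [← this]
      exact congrArg h hc.symm
    have h2 : h (tau (e + l e • a₀) (tau d (gl ⟨l, hl⟩ x))) = h (tau d (gl ⟨l, hl⟩ x)) := by
      rw [tau_add, add_comm, ← tau_add]
      exact inv_tau _ _ _ h1
    have h3 : h (tau (e + l e • a₀) (tau d' (gl ⟨l', hl'⟩ x))) =
        h (tau d' (gl ⟨l', hl'⟩ x)) := by
      rw [← inv_tau _ _ _ hh, h2, hh]
    have h4 : h (tau (e + l e • a₀) (gl ⟨l', hl'⟩ x)) = h (gl ⟨l', hl'⟩ x) := by
      have := inv_tau d' _ _ h3
      have e9 : d' + (e + l e • a₀) + d' = (e + l e • a₀) + (d' + d') := by abel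
      rw [tau_add, tau_add, tau_add, e9, two, add_zero, tau_zero] at this
      exact this
    have h5 := inv_gl ⟨l', hl'⟩ _ _ h4
    rw [conj ⟨l', hl'⟩, gl_gl ⟨l', hl'⟩] at h5
    change h (tau (e + l e • a₀ + l' (e + l e • a₀) • a₀) x) = h x at h5
    have h6 : l' (e + l e • a₀) = l' e := by
      simp [hL l' hl']
    rw [h6, ← hB] at h5
    have h7 := B.add_mem h5 ((hB e).2 he)
    have h8 : e + l e • a₀ + l' e • a₀ + e = a₀ := by
      have : e + l e • a₀ + l' e • a₀ + e = (e + e) + (l e + l' e) • a₀ := by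
        rw [add_smul]; abel
      rw [this, two, zero_add]
      have : l e + l' e = 1 := hone
      rw [this, one_smul]
    rw [h8] at h7
    exact h7
  -- second claim
  have claim2 : ∀ d d' : A, ∀ l : L, h (tau d (gl l x)) = h (tau d' (gl l x)) →
      (d + d') + (l : Module.Dual (ZMod 2) A) (d + d') • a₀ ∈ B := by
    intro d d' l hh
    have h1 := inv_tau d' _ _ hh
    rw [tau_add, tau_add, two, tau_zero] at h1
    have h2 := inv_gl l _ _ h1
    rw [conj l, gl_gl l, add_comm d' d] at h2
    exact h2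
  -- counting
  let F : A × L → Fin N := fun p => h (tau p.1 (gl p.2 x))
  have hNpos : 0 < N := by
    have := (h x).2
    omega
  have hcard : Fintype.card (Fin N) * Fintype.card A < Fintype.card (A × L) := by
    rw [Fintype.card_prod, Fintype.card_fin, mul_comm]
    refine Nat.mul_lt_mul_of_pos_left ?_ ?_
    · rwa [← Nat.card_eq_fintype_card]
    · exact Fintype.card_pos
  obtain ⟨z, hz⟩ := Fintype.exists_lt_card_fiber_of_mul_lt_card F hcard
  let S := Finset.univ.filter fun p : A × L => F p = z
  have hS : Fintype.card A < S.card := hz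
  obtain ⟨p0, hp0⟩ : S.Nonempty := by
    rw [← Finset.card_pos]; omega
  have hSF : ∀ p ∈ S, F p = z := fun p hp => (Finset.mem_filter.1 hp).2
  -- representatives
  let rep : L → A := fun l => if H : ∃ d, (d, l) ∈ S then H.choose else 0
  have hrep : ∀ d l, (d, l) ∈ S → (rep l, l) ∈ S := by
    intro d l hdl
    have H : ∃ d, (d, l) ∈ S := ⟨d, hdl⟩
    show ((if H : ∃ d, (d, l) ∈ S then H.choose else 0), l) ∈ S
    rw [dif_pos H]
    exact H.choose_spec
  let Ψ : S → B × B.dualAnnihilator := fun p =>
    (⟨(p.1.1 + rep p.1.2) + (p.1.2 : Module.Dual (ZMod 2) A) (p.1.1 + rep p.1.2) • a₀,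
        claim2 _ _ _ ((hSF _ p.2).trans (hSF _ (hrep p.1.1 p.1.2 p.2)).symm)⟩,
      ⟨(p.1.2 : Module.Dual (ZMod 2) A) + p0.2,
        claim1 p.1.1 p0.1 _ _ ((hSF _ p.2).trans (hSF _ hp0).symm)⟩)
  have hΨ : Function.Injective Ψ := by
    intro p q hpq
    have e2 : (p.1.2 : Module.Dual (ZMod 2) A) + p0.2 = (q.1.2 : Module.Dual (ZMod 2) A) + p0.2 :=
      congrArg (fun r : B × B.dualAnnihilator => (r.2 : Module.Dual (ZMod 2) A)) hpq
    have e2' : p.1.2 = q.1.2 := Subtype.ext (add_right_cancel e2)
    have e1 : (p.1.1 + rep p.1.2) + (p.1.2 : Module.Dual (ZMod 2) A) (p.1.1 + rep p.1.2) • a₀ =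
        (q.1.1 + rep q.1.2) + (q.1.2 : Module.Dual (ZMod 2) A) (q.1.1 + rep q.1.2) • a₀ :=
      congrArg (fun r : B × B.dualAnnihilator => (r.1 : A)) hpq
    rw [← e2'] at e1
    have e3 := congrArg (p.1.2 : Module.Dual (ZMod 2) A) e1
    have hl0 := hL _ p.1.2.2
    simp only [map_add, map_smul, hl0, smul_zero, add_zero] at e3
    have e4 : (p.1.2 : Module.Dual (ZMod 2) A) (p.1.1 + rep p.1.2) =
        (p.1.2 : Module.Dual (ZMod 2) A) (q.1.1 + rep p.1.2) := by
      simp only [map_add]; exact e3
    rw [e4] at e1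
    have e5 : p.1.1 = q.1.1 := add_right_cancel (add_right_cancel e1)
    exact Subtype.ext (Prod.ext e5 e2')
  have hle := Fintype.card_le_of_injective Ψ hΨ
  rw [Fintype.card_prod, Fintype.card_coe] at hle
  have := card_annih B
  rw [Nat.card_eq_fintype_card, Nat.card_eq_fintype_card, Nat.card_eq_fintype_card] at this
  omega

end Run7.h625.SQ
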