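import Pool.Agent.Run7.h625.SQ.Defs
import Pool.Agent.Run7.h625.SQ.Index

set_option autoImplicit false

/-! Graphs of local solutions of linear systems over a vector space, and the game on them. -/

namespace Run7.h625.SQ

open Finset

/-- A system of linear equations `Q` in the variables `X`, with local views `Φ`. -/
structure Sys (X Q Φ : Type) [Fintype X] where
  /-- the variables of a view -/
  vars : Φ → Set X
  /-- the equations of a view -/
  eqs : Φ → Set Q
  /-- the coefficients -/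
  inc : Q → X → ZMod 2
  sup : ∀ φ, ∀ e ∈ eqs φ, ∀ v, inc e v ≠ 0 → v ∈ vars φ
  /-- which views can be adjacent -/
  comp : Φ → Φ → Prop
  comp_symm : ∀ φ ψ, comp φ ψ → comp ψ φ

/-- Locally consistent assignments on at most `w` views. -/
structure LocFam {X Q Φ : Type} [Fintype X] (S : Sys X Q Φ) (w : ℕ) where
  /-- `y` is locally consistent on the views in `T` for the right-hand side `b` -/
  Loc : (Q → ZMod 2) → Finset Φ → (X → ZMod 2) → Prop
  start : ∀ b, Loc b ∅ 0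
  sat : ∀ b T y, Loc b T y → ∀ φ ∈ T, ∀ e ∈ S.eqs φ, ∑ v, S.inc e v * y v = b e
  mono : ∀ b T T' y, T' ⊆ T → Loc b T y → Loc b T' y
  ext : ∀ b (T : Finset Φ) y φ (T' : Finset Φ), (∀ ψ, ψ ∈ T' ↔ ψ = φ ∨ ψ ∈ T) → T'.card ≤ w →
    Loc b T y → ∃ y', Loc b T' y' ∧ ∀ ψ ∈ T, ∀ v ∈ S.vars ψ, y' v = y v
  add : ∀ b b' T y y', Loc b T y → Loc b' T y' → Loc (b + b') T (y + y')

variable {X Q Φ : Type} [Fintype X] {A : Type} [AddCommGroup A] [Module (ZMod 2) A]

/-- The vertices: local solutions. -/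
def Vx (S : Sys X Q Φ) (U : Q → A) : Type :=
  {p : Φ × (X → A) // (∀ v, v ∉ S.vars p.1 → p.2 v = 0) ∧
    ∀ e ∈ S.eqs p.1, ∑ v, S.inc e v • p.2 v = U e}

namespace Vx

variable {S : Sys X Q Φ} {U : Q → A}

/-- The view. -/
def fib (p : Vx S U) : Φ := p.1.1

/-- The values of the variables. -/
def co (p : Vx S U) : X → A := p.1.2

theorem co_out (p : Vx S U) {v : X} (h : v ∉ S.vars p.fib) : p.co v = 0 := p.2.1 v h

theorem co_eq (p : Vx S U) {e : Q} (h : e ∈ S.eqs p.fib) : ∑ v, S.inc e v • p.co v = U e :=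
  p.2.2 e h

theorem ext' {p q : Vx S U} (h1 : p.fib = q.fib) (h2 : p.co = q.co) : p = q :=
  Subtype.ext (Prod.ext h1 h2)

end Vx

instance (S : Sys X Q Φ) (U : Q → A) [Finite A] [Finite Φ] : Finite (Vx S U) := by
  unfold Vx; infer_instance

/-- The graph. -/
def gx (S : Sys X Q Φ) (U : Q → A) : SimpleGraph (Vx S U) where
  Adj p q := p.fib ≠ q.fib ∧ S.comp p.fib q.fib ∧
    ∀ v, v ∈ S.vars p.fib → v ∈ S.vars q.fib → p.co v = q.co v
  symm := ⟨fun _ _ h => ⟨h.1.symm, S.comp_symm _ _ h.2.1, fun v h1 h2 => (h.2.2 v h2 h1).symm⟩⟩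
  loopless := ⟨fun _ h => h.1 rfl⟩

variable {S : Sys X Q Φ}

open Classical in
/-- The shift on a view. -/
noncomputable def sf (S : Sys X Q Φ) (d : A) (y : X → ZMod 2) (φ : Φ) : X → A :=
  fun v => if v ∈ S.vars φ then y v • d else 0

theorem sf_in {d : A} {y : X → ZMod 2} {φ : Φ} {v : X} (h : v ∈ S.vars φ) :
    sf S d y φ v = y v • d := if_pos h

theorem sf_out {d : A} {y : X → ZMod 2} {φ : Φ} {v : X} (h : v ∉ S.vars φ) :
    sf S d y φ v = 0 := if_neg h

theorem sf_congr {d : A} {y y' : X → ZMod 2} {φ : Φ} (h : ∀ v ∈ S.vars φ, y v = y' v) :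
    sf S d y φ = sf S d y' φ := by
  funext v
  by_cases hv : v ∈ S.vars φ
  · rw [sf_in hv, sf_in hv, h v hv]
  · rw [sf_out hv, sf_out hv]

theorem sf_add (d : A) (y y' : X → ZMod 2) (φ : Φ) :
    sf S d (y + y') φ = sf S d y φ + sf S d y' φ := by
  funext v
  by_cases hv : v ∈ S.vars φ
  · rw [Pi.add_apply, sf_in hv, sf_in hv, sf_in hv, Pi.add_apply, add_smul]
  · rw [Pi.add_apply, sf_out hv, sf_out hv, sf_out hv, add_zero]

theorem sf_add' (d d' : A) (y : X → ZMod 2) (φ : Φ) :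
    sf S (d + d') y φ = sf S d y φ + sf S d' y φ := by
  funext v
  by_cases hv : v ∈ S.vars φ
  · rw [Pi.add_apply, sf_in hv, sf_in hv, sf_in hv, smul_add]
  · rw [Pi.add_apply, sf_out hv, sf_out hv, sf_out hv, add_zero]

theorem sf_self (d : A) (y : X → ZMod 2) (φ : Φ) : sf S d y φ + sf S d y φ = 0 := by
  funext v
  exact ZModModule.add_self _

theorem sf_map (g : A →ₗ[ZMod 2] A) (d : A) (y : X → ZMod 2) (φ : Φ) (v : X) :
    g (sf S d y φ v) = sf S (g d) y φ v := by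
  by_cases hv : v ∈ S.vars φ
  · rw [sf_in hv, sf_in hv, map_smul]
  · rw [sf_out hv, sf_out hv, map_zero]

variable {U U' : Q → A}

/-- `q` arises from `p` by a shift. -/
def Sx {U U' : Q → A} (d : A) (y : X → ZMod 2) (p : Vx S U) (q : Vx S U') : Prop :=
  q.fib = p.fib ∧ q.co = p.co + sf S d y p.fib

theorem Sx.symm {d : A} {y : X → ZMod 2} {p : Vx S U} {q : Vx S U'} (h : Sx d y p q) :
    Sx d y q p := by
  refine ⟨h.1.symm, ?_⟩
  rw [h.2, h.1, add_assoc, sf_self, add_zero]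

theorem Sx.unique {d : A} {y : X → ZMod 2} {p : Vx S U} {q q' : Vx S U'} (h : Sx d y p q)
    (h' : Sx d y p q') : q = q' :=
  Vx.ext' (h.1.trans h'.1.symm) (h.2.trans h'.2.symm)

theorem Sx.inj {d : A} {y : X → ZMod 2} {p p' : Vx S U} {q : Vx S U'} (h : Sx d y p q)
    (h' : Sx d y p' q) : p = p' := h.symm.unique h'.symm

theorem Sx.congr {d : A} {y z : X → ZMod 2} {p : Vx S U} {q : Vx S U'} (h : Sx d y p q)
    (hz : ∀ v ∈ S.vars p.fib, z v = y v) : Sx d z p q := ⟨h.1, by rw [sf_congr hz]; exact h.2⟩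

/-- local solutions and shifts -/
theorem sx_eq {d : A} {b : Q → ZMod 2} (hU : ∀ e, U' e = U e + b e • d) {y : X → ZMod 2}
    (p : Vx S U) (h : ∀ e ∈ S.eqs p.fib, ∑ v, S.inc e v * y v = b e) {e : Q}
    (he : e ∈ S.eqs p.fib) : ∑ v, S.inc e v • (p.co v + sf S d y p.fib v) = U' e := by
  rw [hU, ← h e he, ← p.co_eq he, Finset.sum_smul, ← Finset.sum_add_distrib]
  refine Finset.sum_congr rfl fun v _ => ?_
  rw [smul_add]
  congr 1
  by_cases hv : v ∈ S.vars p.fib
  · rw [sf_in hv, mul_smul]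
  · have h0 : S.inc e v = 0 := by
      by_contra hne
      exact hv (S.sup _ e he v hne)
    rw [h0, zero_smul, zero_mul, zero_smul]

theorem Sx.ex {d : A} {b : Q → ZMod 2} (hU : ∀ e, U' e = U e + b e • d) {y : X → ZMod 2}
    (p : Vx S U) (h : ∀ e ∈ S.eqs p.fib, ∑ v, S.inc e v * y v = b e) :
    ∃ q : Vx S U', Sx d y p q := by
  refine ⟨⟨(p.fib, p.co + sf S d y p.fib), ?_, ?_⟩, rfl, rfl⟩
  · intro v hv
    show p.co v + sf S d y p.fib v = 0
    rw [p.co_out hv, sf_out hv, add_zero]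
  · intro e he
    exact sx_eq hU p h he

theorem Sx.adj {d : A} {y : X → ZMod 2} {p p' : Vx S U} {q q' : Vx S U'}
    (h : Sx d y p q) (h' : Sx d y p' q') : (gx S U).Adj p p' ↔ (gx S U').Adj q q' := by
  show (p.fib ≠ p'.fib ∧ S.comp p.fib p'.fib ∧
      ∀ v, v ∈ S.vars p.fib → v ∈ S.vars p'.fib → p.co v = p'.co v) ↔
    (q.fib ≠ q'.fib ∧ S.comp q.fib q'.fib ∧
      ∀ v, v ∈ S.vars q.fib → v ∈ S.vars q'.fib → q.co v = q'.co v)
  rw [h.1, h'.1, h.2, h'.2]
  refine and_congr_right fun _ => and_congr_right fun _ => ?_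
  refine forall_congr' fun v => ?_
  refine imp_congr_right fun h1 => imp_congr_right fun h2 => ?_
  rw [Pi.add_apply, Pi.add_apply, sf_in h1, sf_in h2, add_left_inj]

/-- The invariant of the game. -/
def Rx {w : ℕ} (F : LocFam S w) {ι : Type} (a : ι → Vx S U) (b : ι → Vx S U') : Prop :=
  ∃ (d : A) (β : Q → ZMod 2) (T : Finset Φ) (y : X → ZMod 2), (∀ e, U' e = U e + β e • d) ∧
    (∀ i, (a i).fib ∈ T) ∧ F.Loc β T y ∧ ∀ i, Sx d y (a i) (b i)

variable {w : ℕ} {F : LocFam S w}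

theorem Rx.symm {ι : Type} {a : ι → Vx S U} {b : ι → Vx S U'} (h : Rx F a b) : Rx F b a := by
  obtain ⟨d, β, T, y, h1, h2, h3, h4⟩ := h
  refine ⟨d, β, T, y, fun e => ?_, fun i => ?_, h3, fun i => (h4 i).symm⟩
  · rw [h1 e, add_assoc, ZModModule.add_self, add_zero]
  · rw [(h4 i).1]
    exact h2 i

theorem Rx.comp {ι κ : Type} {a : ι → Vx S U} {b : ι → Vx S U'} (h : Rx F a b) (f : κ → ι) :
    Rx F (a ∘ f) (b ∘ f) := by
  obtain ⟨d, β, T, y, h1, h2, h3, h4⟩ := h
  exact ⟨d, β, T, y, h1, fun i => h2 _, h3, fun i => h4 _⟩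

theorem Rx.adj {ι : Type} {a : ι → Vx S U} {b : ι → Vx S U'} (h : Rx F a b) (i j : ι) :
    (gx S U).Adj (a i) (a j) ↔ (gx S U').Adj (b i) (b j) := by
  obtain ⟨d, β, T, y, h1, h2, h3, h4⟩ := h
  exact Sx.adj (h4 i) (h4 j)

theorem Rx.eq {ι : Type} {a : ι → Vx S U} {b : ι → Vx S U'} (h : Rx F a b) (i j : ι) :
    a i = a j ↔ b i = b j := by
  obtain ⟨d, β, T, y, h1, h2, h3, h4⟩ := h
  constructor
  · intro hij
    have := h4 j
    rw [← hij] at this
    exact (h4 i).unique this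
  · intro hij
    have := h4 j
    rw [← hij] at this
    exact (h4 i).inj this

open Classical in
/-- The set of views of a position. -/
noncomputable def vw {ι : Type} [Finite ι] (a : ι → Vx S U) : Finset Φ :=
  haveI := Fintype.ofFinite ι
  Finset.univ.image fun i => (a i).fib

theorem mem_vw {ι : Type} [Finite ι] {a : ι → Vx S U} {φ : Φ} :
    φ ∈ vw a ↔ ∃ i, (a i).fib = φ := by
  classical
  unfold vw
  simp

theorem card_vw {ι : Type} [Finite ι] (a : ι → Vx S U) : (vw a).card ≤ Nat.card ι := by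
  classical
  letI := Fintype.ofFinite ι
  unfold vw
  refine Finset.card_image_le.trans ?_
  rw [Finset.card_univ, Nat.card_eq_fintype_card]

open Classical in
theorem ext_many (F : LocFam S w) (b : Q → ZMod 2) (T : Finset Φ) (y : X → ZMod 2)
    (T1 : Finset Φ) : (T ∪ T1).card ≤ w → F.Loc b T y →
      ∃ y', F.Loc b (T ∪ T1) y' ∧ ∀ ψ ∈ T, ∀ v ∈ S.vars ψ, y' v = y v := by
  induction T1 using Finset.induction_on with
  | empty =>
    intro _ h
    exact ⟨y, by rwa [Finset.union_empty], fun _ _ _ _ => rfl⟩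
  | insert φ T1 _ ih =>
    intro hc h
    have hsub : T ∪ T1 ⊆ T ∪ insert φ T1 :=
      Finset.union_subset_union_right (Finset.subset_insert _ _)
    obtain ⟨y1, h1, h2⟩ := ih ((Finset.card_le_card hsub).trans hc) h
    obtain ⟨y2, h3, h4⟩ := F.ext b (T ∪ T1) y1 φ (T ∪ insert φ T1) (by
      intro ψ
      simp only [Finset.mem_union, Finset.mem_insert]
      tauto) hc h1
    refine ⟨y2, h3, fun ψ hψ v hv => ?_⟩
    rw [h4 ψ (Finset.mem_union_left _ hψ) v hv, h2 ψ hψ v hv]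

/-- Extension of a position by one vertex. -/
theorem Rx.extend {ι : Type} [Finite ι] {a : ι → Vx S U} {b : ι → Vx S U'} (h : Rx F a b)
    (hk : Nat.card ι + 1 ≤ w) : ∃ f : Vx S U → Vx S U', Function.Injective f ∧
      ∀ x, Rx F (fun o : Option ι => o.elim x a) (fun o => o.elim (f x) b) := by
  classical
  obtain ⟨d, β, T, y, h1, h2, h3, h4⟩ := h
  have hT : vw a ⊆ T := by
    intro φ hφ
    obtain ⟨i, rfl⟩ := mem_vw.1 hφ
    exact h2 i
  have h3' := F.mono _ _ _ _ hT h3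
  have hex : ∀ φ : Φ, ∃ y', F.Loc β (vw a ∪ {φ}) y' ∧ ∀ ψ ∈ vw a, ∀ v ∈ S.vars ψ, y' v = y v := by
    intro φ
    apply ext_many F β (vw a) y {φ} _ h3'
    refine (Finset.card_union_le _ _).trans ?_
    rw [Finset.card_singleton]
    have := card_vw a
    omega
  choose Y hY1 hY2 using hex
  have hf : ∀ x : Vx S U, ∃ x' : Vx S U', Sx d (Y x.fib) x x' := by
    intro x
    apply Sx.ex h1
    intro e he
    exact F.sat _ _ _ (hY1 x.fib) x.fib
      (Finset.mem_union_right _ (Finset.mem_singleton_self _)) e he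
  choose f hf using hf
  refine ⟨f, ?_, ?_⟩
  · intro x x' hxx
    have hff : x.fib = x'.fib := by rw [← (hf x).1, ← (hf x').1, hxx]
    have e1 := hf x
    have e2 := hf x'
    rw [← hff, ← hxx] at e2
    exact e1.inj e2
  · intro x
    refine ⟨d, β, vw a ∪ {x.fib}, Y x.fib, h1, ?_, hY1 _, ?_⟩
    · intro o
      cases o with
      | none => exact Finset.mem_union_right _ (Finset.mem_singleton_self _)
      | some i => exact Finset.mem_union_left _ (mem_vw.2 ⟨i, rfl⟩)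
    · intro o
      cases o with
      | none => exact hf x
      | some i => exact (h4 i).congr fun v hv => hY2 _ _ (mem_vw.2 ⟨i, rfl⟩) v hv

/-- The transvection `x + l x • a₀`. -/
def tv (a₀ : A) (l : Module.Dual (ZMod 2) A) : A →ₗ[ZMod 2] A :=
  LinearMap.id + l.smulRight a₀

theorem tv_apply (a₀ : A) (l : Module.Dual (ZMod 2) A) (x : A) : tv a₀ l x = x + l x • a₀ := rfl

theorem tv_tv {a₀ : A} {l : Module.Dual (ZMod 2) A} (h : l a₀ = 0) (x : A) :
    tv a₀ l (tv a₀ l x) = x := by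
  rw [tv_apply, tv_apply, map_add, map_smul, h, smul_zero, add_zero, add_assoc,
    ZModModule.add_self, add_zero]

/-- A transvection acts on the vertices. -/
def glX (a₀ : A) (l : Module.Dual (ZMod 2) A) (hU : ∀ e, l (U e) = 0) (p : Vx S U) : Vx S U :=
  ⟨(p.fib, fun v => tv a₀ l (p.co v)), by
    constructor
    · intro v hv
      show tv a₀ l (p.co v) = 0
      rw [p.co_out hv, map_zero]
    · intro e he
      show ∑ v, S.inc e v • tv a₀ l (p.co v) = U e
      have : ∑ v, S.inc e v • tv a₀ l (p.co v) = tv a₀ l (∑ v, S.inc e v • p.co v) := by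
        rw [map_sum]
        exact Finset.sum_congr rfl fun v _ => (map_smul _ _ _).symm
      rw [this, p.co_eq he, tv_apply, hU, zero_smul, add_zero]⟩

theorem glX_glX {a₀ : A} {l : Module.Dual (ZMod 2) A} (hU : ∀ e, l (U e) = 0) (h : l a₀ = 0)
    (p : Vx S U) : glX a₀ l hU (glX a₀ l hU p) = p := by
  refine Vx.ext' rfl ?_
  funext v
  exact tv_tv h _

theorem glX_iso [Finite A] [Finite Φ] {a₀ : A} {l : Module.Dual (ZMod 2) A}
    (hU : ∀ e, l (U e) = 0) (h : l a₀ = 0) {w' : ℕ} {s : ℕ → ℕ} {ι : Type} {q : Query ι}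
    (hq : Def w' s ι q) (a : ι → Vx S U) :
    q (Vx S U) (gx S U) a ↔ q (Vx S U) (gx S U) (glX a₀ l hU ∘ a) := by
  have hadj : ∀ p r : Vx S U, (gx S U).Adj p r →
      (gx S U).Adj (glX a₀ l hU p) (glX a₀ l hU r) := by
    intro p r hp
    refine ⟨hp.1, hp.2.1, fun v h1 h2 => ?_⟩
    show tv a₀ l (p.co v) = tv a₀ l (r.co v)
    rw [hp.2.2 v h1 h2]
  exact hq.iso (gx S U) (gx S U)
    (Function.Involutive.toPerm (glX a₀ l hU) (fun p => glX_glX hU h p))
    (fun x y => ⟨hadj x y, fun hh => by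
      have := hadj (glX a₀ l hU x) (glX a₀ l hU y) hh
      rwa [glX_glX hU h, glX_glX hU h] at this⟩) a

/-- The property proved by induction. -/
def InvX (F : LocFam S w) (A : Type) [AddCommGroup A] [Module (ZMod 2) A] [Finite A] [Finite Φ]
    (n : ℕ) {ι : Type} (q : Query ι) : Prop :=
  ∀ (U U' : Q → A), Nat.card (Vx S U) = n → Nat.card (Vx S U') = n →
    ∀ (a : ι → Vx S U) (b : ι → Vx S U'), Rx F a b →
    (q (Vx S U) (gx S U) a → q (Vx S U') (gx S U') b)

theorem InvX.iff [Finite A] [Finite Φ] {n : ℕ} {ι : Type} {q : Query ι} (h : InvX F A n q)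
    (hn : Nat.card (Vx S U) = n) (hn' : Nat.card (Vx S U') = n)
    {a : ι → Vx S U} {b : ι → Vx S U'} (hr : Rx F a b) :
    q (Vx S U) (gx S U) a ↔ q (Vx S U') (gx S U') b :=
  ⟨h _ _ hn hn' _ _ hr, h _ _ hn' hn _ _ hr.symm⟩

open Classical in
/-- Local translations do not change the elements of a small interpreted structure. -/
theorem loc_lemma [Finite A] [Finite Φ] [Finite Q] {w' : ℕ} {s : ℕ → ℕ} {ι : Type} [Finite ι]
    {J : Type} {ar : J → ℕ} (Θ : Interp ι J ar) (hD : ∀ i, Def w' s (ι ⊕ Fin Θ.e) (Θ.D i))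
    (hE : ∀ i i', Def w' s (ι ⊕ (Fin Θ.e ⊕ Fin Θ.e)) (Θ.E i i'))
    {n : ℕ} (hn : Nat.card (Vx S U) = n)
    (iD : ∀ i, InvX F A n (Θ.D i)) (iE : ∀ i i', InvX F A n (Θ.E i i'))
    (hk : Nat.card ι ≤ w)
    {N : ℕ} (hN : N * 2 ^ (w * Fintype.card X + Nat.card Q + 1) < Nat.card A) (a : ι → Vx S U)
    (h : Θ.I → (Fin Θ.e → Vx S U) → Fin N)
    (hh : ∀ i i' x x', Θ.D i (Vx S U) (gx S U) (Sum.elim a x) →
      Θ.D i' (Vx S U) (gx S U) (Sum.elim a x') →
      (h i x = h i' x' ↔ Θ.E i i' (Vx S U) (gx S U) (Sum.elim a (Sum.elim x x'))))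
    (T0 T1 : Finset Φ) (ha : ∀ j, (a j).fib ∈ T0) (z : X → ZMod 2) (hz : F.Loc 0 (T0 ∪ T1) z)
    (hz0 : ∀ φ ∈ T0, ∀ v ∈ S.vars φ, z v = 0)
    (t : A) (i : Θ.I) (x x1 : Fin Θ.e → Vx S U) (hxT : ∀ m, (x m).fib ∈ T1)
    (hx : Θ.D i (Vx S U) (gx S U) (Sum.elim a x)) (hx1 : ∀ m, Sx t z (x m) (x1 m)) :
    h i x1 = h i x := by
  haveI := Fintype.ofFinite ι
  haveI := Fintype.ofFinite Q
  let u : (ι × X) ⊕ Q → A := Sum.elim (fun p => (a p.1).co p.2) U
  have hL1 : ∀ l ∈ Lam u t, l t = 0 := fun l hl => hl.1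
  have hL2 : ∀ l ∈ Lam u t, ∀ e, l (U e) = 0 := fun l hl e => hl.2 (Sum.inr e)
  have hL3 : ∀ l ∈ Lam u t, ∀ j v, l ((a j).co v) = 0 := fun l hl j v => hl.2 (Sum.inl (j, v))
  have hcard : N < Nat.card (Lam u t) := by
    have h1 := card_lam u t
    have h2 : Nat.card ((ι × X) ⊕ Q) ≤ w * Fintype.card X + Nat.card Q := by
      rw [Nat.card_sum, Nat.card_prod, Nat.card_eq_fintype_card (α := X)]
      exact Nat.add_le_add_right (Nat.mul_le_mul_right _ hk) _
    have h5 : 2 ^ (Nat.card ((ι × X) ⊕ Q) + 1) ≤ 2 ^ (w * Fintype.card X + Nat.card Q + 1) :=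
      Nat.pow_le_pow_right (by norm_num) (by omega)
    by_contra hcon
    have h6 : Nat.card (Lam u t) ≤ N := by omega
    have h7 := Nat.mul_le_mul h6 h5
    omega
  have hzs : ∀ φ ∈ T1, ∀ e ∈ S.eqs φ, ∑ v, S.inc e v * z v = (0 : Q → ZMod 2) e := fun φ hφ e he =>
    F.sat _ _ _ hz φ (Finset.mem_union_right _ hφ) e he
  -- vertices with views in `T1`
  let P := {p : Vx S U // p.fib ∈ T1}
  let tau : A → P → P := fun d p =>
    ⟨⟨(p.1.fib, p.1.co + sf S d z p.1.fib), by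
      refine ⟨fun v hv => ?_, fun e he => ?_⟩
      · show p.1.co v + sf S d z p.1.fib v = 0
        rw [p.1.co_out hv, sf_out hv, add_zero]
      · exact sx_eq (U' := U) (b := 0) (fun e => by simp) p.1 (hzs _ p.2) he⟩, p.2⟩
  have tau_add : ∀ d e p, tau d (tau e p) = tau (d + e) p := by
    intro d e p
    apply Subtype.ext
    refine Vx.ext' rfl ?_
    show p.1.co + sf S e z p.1.fib + sf S d z p.1.fib = p.1.co + sf S (d + e) z p.1.fib
    rw [sf_add']
    abel
  have tau_zero : ∀ p, tau 0 p = p := by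
    intro p
    apply Subtype.ext
    refine Vx.ext' rfl ?_
    show p.1.co + sf S 0 z p.1.fib = p.1.co
    have : sf S (0 : A) z p.1.fib = 0 := by
      funext v
      by_cases hv : v ∈ S.vars p.1.fib
      · rw [sf_in hv, smul_zero]; rfl
      · rw [sf_out hv]; rfl
    rw [this, add_zero]
  let gl : Lam u t → P → P := fun l p =>
    ⟨glX t l.1 (hL2 _ l.2) p.1, p.2⟩
  have gl_gl : ∀ l p, gl l (gl l p) = p := by
    intro l p
    apply Subtype.ext
    exact glX_glX (hL2 _ l.2) (hL1 _ l.2) p.1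
  have conj : ∀ (l : Lam u t) d p, gl l (tau d (gl l p)) =
      tau (d + (l : Module.Dual (ZMod 2) A) d • t) p := by
    intro l d p
    apply Subtype.ext
    refine Vx.ext' rfl ?_
    funext v
    show tv t l.1 (tv t l.1 (p.1.co v) + sf S d z p.1.fib v) =
      p.1.co v + sf S (d + (l : Module.Dual (ZMod 2) A) d • t) z p.1.fib v
    rw [map_add, tv_tv (hL1 _ l.2), sf_map, tv_apply]
  have fixT : ∀ d : A, ∀ {κ : Type} (y : κ → P),
      Rx F (Sum.elim a fun m => (y m).1) (Sum.elim a fun m => (tau d (y m)).1) := by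
    intro d κ y
    refine ⟨d, 0, T0 ∪ T1, z, fun e => by simp, ?_, hz, ?_⟩
    · rintro (j | m)
      · exact Finset.mem_union_left _ (ha j)
      · exact Finset.mem_union_right _ (y m).2
    · rintro (j | m)
      · refine ⟨rfl, ?_⟩
        show (a j).co = (a j).co + sf S d z (a j).fib
        have : sf S d z (a j).fib = 0 := by
          funext v
          by_cases hv : v ∈ S.vars (a j).fib
          · rw [sf_in hv, hz0 _ (ha j) v hv, zero_smul]; rfl
          · rw [sf_out hv]; rfl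
        rw [this, add_zero]
      · exact ⟨rfl, rfl⟩
  have fixG : ∀ l : Lam u t, ∀ j, glX t l.1 (hL2 _ l.2) (a j) = a j := by
    intro l j
    refine Vx.ext' rfl ?_
    funext v
    show tv t l.1 ((a j).co v) = (a j).co v
    rw [tv_apply, hL3 _ l.2, zero_smul, add_zero]
  -- the set
  let Z := {y : Fin Θ.e → P // Θ.D i (Vx S U) (gx S U) (Sum.elim a fun m => (y m).1)}
  have tauD : ∀ d (y : Z), Θ.D i (Vx S U) (gx S U) (Sum.elim a fun m => (tau d (y.1 m)).1) :=
    fun d y => (iD i).iff hn hn (fixT d y.1) |>.1 y.2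
  have glD : ∀ l (y : Z), Θ.D i (Vx S U) (gx S U) (Sum.elim a fun m => (gl l (y.1 m)).1) := by
    intro l y
    have := (glX_iso (hL2 _ l.2) (hL1 _ l.2) (hD i) _).1 y.2
    convert this using 1
    funext o
    rcases o with o | o
    · exact (fixG l o).symm
    · rfl
  have key := small_index (X := Z) (fun y => h i fun m => (y.1 m).1)
    (fun d y => ⟨fun m => tau d (y.1 m), tauD d y⟩) t (Lam u t)
    (fun l y => ⟨fun m => gl l (y.1 m), glD l y⟩)
    hL1
    (fun d e y => Subtype.ext (by funext m; exact tau_add d e _))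
    (fun y => Subtype.ext (by funext m; exact tau_zero _))
    (fun l y => Subtype.ext (by funext m; exact gl_gl l _))
    (fun l d y => Subtype.ext (by funext m; exact conj l d _))
    (fun d y y' hyy => by
      rw [hh i i _ _ y.2 y'.2] at hyy
      rw [hh i i _ _ (tauD d y) (tauD d y')]
      have hr := fixT d (Sum.elim y.1 y'.1)
      have := (iE i i).iff hn hn hr
      have e1 : (Sum.elim a fun m => ((Sum.elim y.1 y'.1) m).1) =
          Sum.elim a (Sum.elim (fun m => (y.1 m).1) fun m => (y'.1 m).1) := by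
        funext o; rcases o with o | o | o <;> rfl
      have e2 : (Sum.elim a fun m => (tau d ((Sum.elim y.1 y'.1) m)).1) =
          Sum.elim a (Sum.elim (fun m => (tau d (y.1 m)).1) fun m => (tau d (y'.1 m)).1) := by
        funext o; rcases o with o | o | o <;> rfl
      rw [e1, e2] at this
      exact this.1 hyy)
    (fun l y y' hyy => by
      rw [hh i i _ _ y.2 y'.2] at hyy
      rw [hh i i _ _ (glD l y) (glD l y')]
      have := (glX_iso (hL2 _ l.2) (hL1 _ l.2) (hE i i) _).1 hyy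
      convert this using 1
      funext o
      rcases o with o | o | o
      · exact (fixG l o).symm
      · rfl
      · rfl)
    hcard ⟨fun m => ⟨x m, hxT m⟩, hx⟩
  have e3 : x1 = fun m => (tau t ⟨x m, hxT m⟩).1 := by
    funext m
    exact (hx1 m).unique ⟨rfl, rfl⟩
  rw [e3]
  exact key

/-- Small quantifiers. -/
theorem inv_smallX [Finite A] [Finite Φ] [Finite Q] {w' : ℕ} {s : ℕ → ℕ} (hw : w' ≤ w) {n : ℕ}
    (hs : s n * 2 ^ (w * Fintype.card X + Nat.card Q + 1) < Nat.card A)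
    {ι : Type} [Finite ι] {J : Type} {ar : J → ℕ} (Θ : Interp ι J ar) (K : ∀ N, Str J ar N → Prop)
    (hι : Nat.card ι + 2 * Θ.e ≤ w') (hD : ∀ i, Def w' s (ι ⊕ Fin Θ.e) (Θ.D i))
    (hE : ∀ i i', Def w' s (ι ⊕ (Fin Θ.e ⊕ Fin Θ.e)) (Θ.E i i'))
    (hR : ∀ j f, Def w' s (ι ⊕ (Fin (ar j) × Fin Θ.e)) (Θ.R j f))
    (iD : ∀ i, InvX F A n (Θ.D i)) (iE : ∀ i i', InvX F A n (Θ.E i i'))
    (iR : ∀ j f, InvX F A n (Θ.R j f)) :
    InvX F A n (fun V _ G a => ∃ N, N ≤ s (Nat.card V) ∧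
        ∃ M : Str J ar N, K N M ∧ Θ.Defines G a M) := by
  classical
  intro U U' hn hn' a b hab hq
  obtain ⟨N, hN, M, hK, h, p1, p2, p3⟩ := hq
  obtain ⟨d, β, T, y, h1, h2, h3, h4⟩ := hab
  rw [hn] at hN
  have hN' : N * 2 ^ (w * Fintype.card X + Nat.card Q + 1) < Nat.card A :=
    lt_of_le_of_lt (Nat.mul_le_mul_right _ hN) hs
  have hTa : vw a ⊆ T := by
    intro φ hφ
    obtain ⟨i, rfl⟩ := mem_vw.1 hφ
    exact h2 i
  have h3' := F.mono _ _ _ _ hTa h3
  have hva : ∀ i, (a i).fib ∈ vw a := fun i => mem_vw.2 ⟨i, rfl⟩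
  have hvx : ∀ {κ : Type} [Finite κ] (x : κ → Vx S U) m, (x m).fib ∈ vw x :=
    fun x m => mem_vw.2 ⟨m, rfl⟩
  -- the matched tuples
  let Cond : ∀ {κ : Type} [Finite κ], (κ → Vx S U) → (κ → Vx S U') → Prop := fun {κ} _ x x' =>
    ∃ z, F.Loc β (vw a ∪ vw x) z ∧ (∀ ψ ∈ vw a, ∀ v ∈ S.vars ψ, z v = y v) ∧
      ∀ m, Sx d z (x m) (x' m)
  have hc1 : ∀ {κ : Type} [Finite κ] {V : Q → A} (x : κ → Vx S V), Nat.card ι + Nat.card κ ≤ w →
      (vw a ∪ vw x).card ≤ w := by
    intro κ _ V x hκ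
    refine (Finset.card_union_le _ _).trans (le_trans ?_ hκ)
    exact Nat.add_le_add (card_vw a) (card_vw x)
  have C1' : ∀ {κ : Type} [Finite κ] (x : κ → Vx S U), Nat.card ι + Nat.card κ ≤ w →
      ∃ x' : κ → Vx S U', Cond x x' := by
    intro κ _ x hκ
    obtain ⟨z, hz1, hz2⟩ := ext_many F β (vw a) y (vw x) (hc1 x hκ) h3'
    have hx : ∀ m, ∃ r : Vx S U', Sx d z (x m) r := fun m =>
      Sx.ex h1 _ fun e he => F.sat _ _ _ hz1 _ (Finset.mem_union_right _ (hvx x m)) e he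
    choose x' hx using hx
    exact ⟨x', z, hz1, hz2, hx⟩
  have C1 : ∀ {κ : Type} [Finite κ] (x' : κ → Vx S U'), Nat.card ι + Nat.card κ ≤ w →
      ∃ x : κ → Vx S U, Cond x x' := by
    intro κ _ x' hκ
    obtain ⟨z, hz1, hz2⟩ := ext_many F β (vw a) y (vw x') (hc1 x' hκ) h3'
    have h1' : ∀ e, U e = U' e + β e • d := fun e => by
      rw [h1 e, add_assoc, ZModModule.add_self, add_zero]
    have hx : ∀ m, ∃ r : Vx S U, Sx d z (x' m) r := fun m =>
      Sx.ex h1' _ fun e he => F.sat _ _ _ hz1 _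
        (Finset.mem_union_right _ (mem_vw.2 ⟨m, rfl⟩)) e he
    choose x hx using hx
    refine ⟨x, z, ?_, hz2, fun m => (hx m).symm⟩
    have : vw x = vw x' := by
      ext φ
      rw [mem_vw, mem_vw]
      constructor
      · rintro ⟨m, hm⟩; exact ⟨m, by rw [← hm, (hx m).1]⟩
      · rintro ⟨m, hm⟩; exact ⟨m, by rw [← hm, (hx m).1]⟩
    rw [this]
    exact hz1
  have C2 : ∀ {κ : Type} [Finite κ] {x : κ → Vx S U} {x' : κ → Vx S U'}, Cond x x' →
      Rx F (Sum.elim a x) (Sum.elim b x') := by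
    rintro κ _ x x' ⟨z, hz1, hz2, hz3⟩
    refine ⟨d, β, vw a ∪ vw x, z, h1, ?_, hz1, ?_⟩
    · rintro (i | m)
      · exact Finset.mem_union_left _ (hva i)
      · exact Finset.mem_union_right _ (hvx x m)
    · rintro (i | m)
      · exact (h4 i).congr fun v hv => hz2 _ (hva i) v hv
      · exact hz3 m
  have C3 : ∀ {i : Θ.I} {x z : Fin Θ.e → Vx S U} {x' : Fin Θ.e → Vx S U'},
      Cond x x' → Cond z x' → Θ.D i (Vx S U) (gx S U) (Sum.elim a x) → h i x = h i z := by
    rintro i x z x' ⟨y1, hy1, hy2, hy3⟩ ⟨y2, hy4, hy5, hy6⟩ hDx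
    have hvv : vw x = vw z := by
      ext φ
      rw [mem_vw, mem_vw]
      constructor
      · rintro ⟨m, hm⟩; exact ⟨m, by rw [← hm, ← (hy3 m).1, (hy6 m).1]⟩
      · rintro ⟨m, hm⟩; exact ⟨m, by rw [← hm, ← (hy3 m).1, (hy6 m).1]⟩
    have hLoc : F.Loc 0 (vw a ∪ vw x) (y1 + y2) := by
      rw [← hvv] at hy4
      have := F.add _ _ _ _ _ hy1 hy4
      have e : β + β = 0 := by funext e; exact ZModModule.add_self _
      rwa [e] at this
    refine (loc_lemma Θ hD hE hn iD iE (by omega) hN' a h p2 (vw a) (vw x) hva (y1 + y2) hLoc ?_ d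
      i x z (hvx x) hDx ?_).symm
    · intro φ hφ v hv
      rw [Pi.add_apply, hy2 φ hφ v hv, hy5 φ hφ v hv]
      exact ZModModule.add_self _
    · intro m
      have hf : (z m).fib = (x m).fib := by rw [← (hy6 m).1, (hy3 m).1]
      refine ⟨hf, ?_⟩
      have e1 := (hy3 m).2
      have e2 := (hy6 m).2
      rw [e1, hf] at e2
      rw [sf_add]
      have e3 := sf_self (S := S) d y2 (x m).fib
      calc (z m).co = (z m).co + (sf S d y2 (x m).fib + sf S d y2 (x m).fib) := by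
            rw [e3, add_zero]
        _ = ((z m).co + sf S d y2 (x m).fib) + sf S d y2 (x m).fib := by abel
        _ = _ := by rw [← e2]; abel
  have hk1 : Nat.card ι + Nat.card (Fin Θ.e) ≤ w := by
    rw [Nat.card_fin]; omega
  have hk2 : Nat.card ι + Nat.card (Fin Θ.e ⊕ Fin Θ.e) ≤ w := by
    rw [Nat.card_sum, Nat.card_fin]; omega
  choose xf hcf using fun x' : Fin Θ.e → Vx S U' => C1 x' hk1
  have D1 : ∀ {i : Θ.I} {x : Fin Θ.e → Vx S U} {x' : Fin Θ.e → Vx S U'},
      Cond x x' → (Θ.D i (Vx S U) (gx S U) (Sum.elim a x) ↔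
        Θ.D i (Vx S U') (gx S U') (Sum.elim b x')) := fun {i x x'} hc => (iD i).iff hn hn' (C2 hc)
  have D2 : ∀ {i : Θ.I} {x : Fin Θ.e → Vx S U} {x' : Fin Θ.e → Vx S U'},
      Cond x x' → Θ.D i (Vx S U') (gx S U') (Sum.elim b x') → h i (xf x') = h i x := by
    intro i x x' hc hd
    exact (C3 hc (hcf x') ((D1 hc).2 hd)).symm
  have Csub : ∀ {κ μ : Type} [Finite κ] [Finite μ] {x : κ → Vx S U} {x' : κ → Vx S U'}
      (f : μ → κ), Cond x x' → Cond (x ∘ f) (x' ∘ f) := by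
    rintro κ μ _ _ x x' f ⟨z, hz1, hz2, hz3⟩
    refine ⟨z, F.mono _ _ _ _ ?_ hz1, hz2, fun m => hz3 _⟩
    apply Finset.union_subset_union_right
    intro φ hφ
    obtain ⟨m, hm⟩ := mem_vw.1 hφ
    exact mem_vw.2 ⟨f m, hm⟩
  refine ⟨N, by rwa [hn'], M, hK, fun i x' => h i (xf x'), ?_, ?_, ?_⟩
  · intro z
    obtain ⟨i, x, hx, hz⟩ := p1 z
    obtain ⟨x', hc⟩ := C1' x hk1
    refine ⟨i, x', (D1 hc).1 hx, ?_⟩
    show h i (xf x') = z
    rw [D2 hc ((D1 hc).1 hx), hz]
  · intro i i' x' z' hx' hz'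
    show h i (xf x') = h i' (xf z') ↔ _
    obtain ⟨X0, hc⟩ := C1 (Sum.elim x' z') hk2
    have hcx : Cond (X0 ∘ Sum.inl) x' := Csub Sum.inl hc
    have hcz : Cond (X0 ∘ Sum.inr) z' := Csub Sum.inr hc
    rw [D2 hcx hx', D2 hcz hz', p2 i i' _ _ ((D1 hcx).2 hx') ((D1 hcz).2 hz'),
      ← (iE i i').iff hn hn' (C2 hc)]
    have : Sum.elim (X0 ∘ Sum.inl) (X0 ∘ Sum.inr) = X0 := by
      funext o; rcases o with o | o <;> rfl
    rw [this]
  · intro j f X' hX'
    have hk3 : Nat.card ι + Nat.card (Fin (ar j) × Fin Θ.e) ≤ w := by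
      have := (hR j f).card_le.2
      rw [Nat.card_sum] at this
      omega
    obtain ⟨X0, hc⟩ := C1 (fun p : Fin (ar j) × Fin Θ.e => X' p.1 p.2) hk3
    have hcl : ∀ l, Cond (fun m => X0 (l, m)) (X' l) := fun l => Csub (fun m => (l, m)) hc
    rw [← (iR j f).iff hn hn' (C2 hc)]
    have e1 : (fun l => h (f l) (xf (X' l))) = fun l => h (f l) (fun m => X0 (l, m)) := by
      funext l
      exact D2 (hcl l) (hX' l)
    show _ ↔ M j fun l => h (f l) (xf (X' l))
    rw [e1]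
    exact p3 j f (fun l m => X0 (l, m)) fun l => (D1 (hcl l)).2 (hX' l)

/-- **The invariance theorem.** -/
theorem inv_gen [Finite A] [Finite Φ] [Finite Q] (F : LocFam S w) {w' : ℕ} {s : ℕ → ℕ}
    (hw : w' ≤ w) {n : ℕ} (hs : s n * 2 ^ (w * Fintype.card X + Nat.card Q + 1) < Nat.card A)
    {ι : Type} {q : Query ι} (hq : Def w' s ι q) : InvX F A n q := by
  induction hq with
  | adj hι i j => intro U U' hn hn' a b hr h; exact (hr.adj i j).1 h
  | eq hι i j => intro U U' hn hn' a b hr h; exact (hr.eq i j).1 h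
  | not h ih => intro U U' hn hn' a b hr h1 h2; exact h1 (ih _ _ hn' hn _ _ hr.symm h2)
  | all hι q h ih => intro U U' hn hn' a b hr h1 t; exact ih t _ _ hn hn' _ _ hr (h1 t)
  | subst hι f h ih => intro U U' hn hn' a b hr h1; exact ih _ _ hn hn' _ _ (hr.comp f) h1
  | @count ι c q h ih =>
    intro U U' hn hn' a b hr h1
    obtain ⟨hf, hc⟩ := h.card_le
    haveI : Finite ι := Finite.of_injective (some : ι → Option ι) (Option.some_injective ι)
    haveI := Fintype.ofFinite ι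
    have hk : Nat.card ι + 1 ≤ w := by
      rw [Nat.card_eq_fintype_card, Fintype.card_option] at hc
      rw [Nat.card_eq_fintype_card]
      omega
    obtain ⟨f, hF, hFr⟩ := hr.extend hk
    refine le_trans h1 ?_
    refine Nat.card_le_card_of_injective
      (fun x : {x : Vx S U // q (Vx S U) (gx S U) (fun o => o.elim x a)} =>
        (⟨f x.1, ih _ _ hn hn' _ _ (hFr x.1) x.2⟩ :
          {x : Vx S U' // q (Vx S U') (gx S U') (fun o => o.elim x b)})) ?_
    intro x y hxy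
    exact Subtype.ext (hF (congrArg Subtype.val hxy))
  | small Θ K hι hD hE hR iD iE iR => exact inv_smallX hw hs Θ K hι hD hE hR iD iE iR

/-- The number of vertices does not depend on the right-hand side. -/
theorem card_Vx [Finite A] [Finite Φ] (F : LocFam S w) (hw : 1 ≤ w) (U U' : Q → A) (d : A)
    (β : Q → ZMod 2) (h : ∀ e, U' e = U e + β e • d) :
    Nat.card (Vx S U) = Nat.card (Vx S U') := by
  have key : ∀ U U' : Q → A, (∀ e, U' e = U e + β e • d) →
      Nat.card (Vx S U) ≤ Nat.card (Vx S U') := by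
    intro U U' h
    have hr : Rx F (Empty.elim : Empty → Vx S U) (Empty.elim : Empty → Vx S U') :=
      ⟨d, β, ∅, 0, h, fun i => i.elim, F.start β, fun i => i.elim⟩
    obtain ⟨f, hf, -⟩ := hr.extend (by rw [Nat.card_eq_fintype_card]; simpa using hw)
    exact Nat.card_le_card_of_injective f hf
  refine le_antisymm (key U U' h) (key U' U fun e => ?_)
  rw [h e, add_assoc, ZModModule.add_self, add_zero]

end Run7.h625.SQ
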