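import Pool.Agent.Run7.h625.SQ.Pair

set_option autoImplicit false

/-! The system of a complete graph: one equation for each vertex, one variable for each edge. -/

namespace Run7.h625.SQ

open Finset Filter

/-- Edges of the complete graph. -/
abbrev Ed (k : ℕ) : Type := {p : Fin k × Fin k // p.1 < p.2}

/-- The edge between two vertices. -/
def mkE {k : ℕ} (a b : Fin k) (h : a ≠ b) : Ed k :=
  if h' : a < b then ⟨(a, b), h'⟩ else ⟨(b, a), lt_of_le_of_ne (not_lt.1 h') h.symm⟩

theorem mem_mkE {k : ℕ} {a b : Fin k} (h : a ≠ b) (v : Fin k) :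
    (v = (mkE a b h).1.1 ∨ v = (mkE a b h).1.2) ↔ (v = a ∨ v = b) := by
  unfold mkE
  split_ifs with h'
  · rfl
  · exact or_comm

theorem eq_mkE {k : ℕ} {v : Fin k} (e : Ed k) (h : v = e.1.1 ∨ v = e.1.2) :
    ∃ (u : Fin k) (h' : v ≠ u), e = mkE v u h' := by
  obtain ⟨⟨a, b⟩, hab⟩ := e
  rcases h with rfl | rfl
  · refine ⟨b, ne_of_lt hab, ?_⟩
    unfold mkE
    rw [dif_pos hab]
  · refine ⟨a, (ne_of_lt hab).symm, ?_⟩
    unfold mkE
    rw [dif_neg (not_lt.2 (le_of_lt hab))]

/-- The system. -/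
def kS (k : ℕ) : Sys (Ed k) (Fin k) (Fin k) where
  vars v := {e | v = e.1.1 ∨ v = e.1.2}
  eqs v := {v}
  inc v e := if v = e.1.1 ∨ v = e.1.2 then 1 else 0
  sup := by
    intro φ e he v hv
    have he' : e = φ := he
    subst he'
    by_contra hcon
    exact hv (if_neg hcon)
  comp := fun _ _ => True
  comp_symm := fun _ _ _ => trivial

theorem kS_in {k : ℕ} {v : Fin k} {e : Ed k} (h : v = e.1.1 ∨ v = e.1.2) :
    (kS k).inc v e = 1 := if_pos h

theorem kS_out {k : ℕ} {v : Fin k} {e : Ed k} (h : ¬ (v = e.1.1 ∨ v = e.1.2)) :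
    (kS k).inc v e = 0 := if_neg h

/-- Local consistency for fewer than `k` vertices. -/
def kF (k : ℕ) : LocFam (kS k) (k - 1) where
  Loc b T y := ∀ v ∈ T, ∑ e, (kS k).inc v e * y e = b v
  start b := by intro v hv; simp at hv
  sat := by
    intro b T y h φ hφ e he
    have he' : e = φ := he
    subst he'
    exact h e hφ
  mono b T T' y hT h v hv := h v (hT hv)
  ext := by
    classical
    intro b T y φ T' hT hc h
    by_cases hφ : φ ∈ T
    · refine ⟨y, ?_, fun _ _ _ _ => rfl⟩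
      intro v hv
      rcases (hT v).1 hv with rfl | hv
      · exact h v hφ
      · exact h v hv
    · have hk : 0 < k := lt_of_le_of_lt (Nat.zero_le _) φ.2
      obtain ⟨c, hcT⟩ : ∃ c, c ∉ T' := by
        by_contra hcon
        push Not at hcon
        have : T' = univ := Finset.eq_univ_iff_forall.2 hcon
        rw [this, Finset.card_univ, Fintype.card_fin] at hc
        omega
      have hφT : φ ∈ T' := (hT φ).2 (Or.inl rfl)
      have hne : φ ≠ c := fun h => hcT (h ▸ hφT)
      set f := mkE φ c hne with hf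
      set t : ZMod 2 := b φ + ∑ e, (kS k).inc φ e * y e with ht
      have hsum : ∀ v, ∑ e, (kS k).inc v e * (y + Pi.single f t : Ed k → ZMod 2) e =
          ∑ e, (kS k).inc v e * y e + (kS k).inc v f * t := by
        intro v
        simp only [Pi.add_apply, mul_add, Finset.sum_add_distrib]
        congr 1
        rw [Finset.sum_eq_single f]
        · rw [Pi.single_eq_same]
        · intro e _ he
          rw [Pi.single_eq_of_ne he, mul_zero]
        · intro h; exact absurd (Finset.mem_univ _) h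
      refine ⟨y + Pi.single f t, ?_, ?_⟩
      · intro v hv
        rw [hsum]
        by_cases hvφ : v = φ
        · subst hvφ
          rw [kS_in ((mem_mkE hne v).2 (Or.inl rfl)), one_mul, ht, add_comm, add_assoc,
            ZModModule.add_self, add_zero]
        · have hvT : v ∈ T := ((hT v).1 hv).resolve_left hvφ
          rw [kS_out, zero_mul, add_zero]
          · exact h v hvT
          · intro hcon
            rcases (mem_mkE hne v).1 hcon with h1 | h1
            · exact hvφ h1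
            · exact hcT (h1 ▸ hv)
      · intro ψ hψ e he
        have hef : e ≠ f := by
          rintro rfl
          rcases (mem_mkE hne ψ).1 he with h1 | h1
          · exact hφ (h1 ▸ hψ)
          · exact hcT (h1 ▸ (hT ψ).2 (Or.inr hψ))
        rw [Pi.add_apply, Pi.single_eq_of_ne hef, add_zero]
  add := by
    intro b b' T y y' h h' v hv
    simp only [Pi.add_apply, mul_add, Finset.sum_add_distrib]
    rw [h v hv, h' v hv]

theorem kS_sum {k : ℕ} (e : Ed k) : ∑ v, (kS k).inc v e = 0 := by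
  have h1 : ∀ v : Fin k, (kS k).inc v e =
      (if v = e.1.1 then 1 else 0) + (if v = e.1.2 then 1 else 0) := by
    intro v
    have hne : e.1.1 ≠ e.1.2 := ne_of_lt e.2
    by_cases h1 : v = e.1.1
    · have h2 : v ≠ e.1.2 := fun h => hne (h1.symm.trans h)
      rw [kS_in (Or.inl h1), if_pos h1, if_neg h2, add_zero]
    · by_cases h2 : v = e.1.2
      · rw [kS_in (Or.inr h2), if_neg h1, if_pos h2, zero_add]
      · rw [kS_out (fun h => h.elim h1 h2), if_neg h1, if_neg h2, add_zero]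
  simp only [h1, Finset.sum_add_distrib, Finset.sum_ite_eq', Finset.mem_univ, if_true]
  decide

open Classical in
theorem kS_unsat {k : ℕ} (v0 : Fin k) (x : Ed k → ZMod 2) :
    (univ.filter fun φ : Fin k => ∀ e ∈ (kS k).eqs φ,
      ∑ v, (kS k).inc e v * x v = (Pi.single v0 1 : Fin k → ZMod 2) e).card ≤ k - 1 := by
  have hk : 0 < k := lt_of_le_of_lt (Nat.zero_le _) v0.2
  by_contra hcon
  have h1 : (univ.filter fun φ : Fin k => ∀ e ∈ (kS k).eqs φ,
      ∑ v, (kS k).inc e v * x v = (Pi.single v0 1 : Fin k → ZMod 2) e) = univ := by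
    apply Finset.eq_univ_of_card
    have := Finset.card_le_univ (univ.filter fun φ : Fin k => ∀ e ∈ (kS k).eqs φ,
      ∑ v, (kS k).inc e v * x v = (Pi.single v0 1 : Fin k → ZMod 2) e)
    rw [Fintype.card_fin] at this ⊢
    omega
  have h2 : ∀ φ : Fin k, ∑ v, (kS k).inc φ v * x v = (Pi.single v0 1 : Fin k → ZMod 2) φ := by
    intro φ
    have : φ ∈ (univ.filter fun φ : Fin k => ∀ e ∈ (kS k).eqs φ,
      ∑ v, (kS k).inc e v * x v = (Pi.single v0 1 : Fin k → ZMod 2) e) := by
      rw [h1]; exact Finset.mem_univ _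
    exact (Finset.mem_filter.1 this).2 φ rfl
  have h3 : ∑ φ : Fin k, ∑ v, (kS k).inc φ v * x v = 0 := by
    rw [Finset.sum_comm]
    apply Finset.sum_eq_zero
    intro e _
    rw [← Finset.sum_mul, kS_sum, zero_mul]
  rw [Finset.sum_congr rfl fun φ _ => h2 φ] at h3
  rw [Finset.sum_pi_single'] at h3
  simp at h3

theorem kS_det {k : ℕ} (hk : 2 ≤ k) {A : Type} [AddCommGroup A] [Module (ZMod 2) A]
    (U : Fin k → A) (φ : Fin k) : ∃ g : Fin (k - 2) → Ed k, ∀ p q : Vx (kS k) U, p.fib = φ →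
      q.fib = φ → (∀ i, p.co (g i) = q.co (g i)) → p = q := by
  classical
  obtain ⟨u0, hu0⟩ : ∃ u0 : Fin k, u0 ≠ φ := by
    haveI : Nontrivial (Fin k) := Fin.nontrivial_iff_two_le.2 hk
    exact exists_ne φ
  have hcard : Fintype.card {u : Fin k // u ≠ φ ∧ u ≠ u0} = k - 2 := by
    rw [Fintype.card_subtype]
    have h1 : (univ.filter fun u : Fin k => u ≠ φ ∧ u ≠ u0) = (univ.erase φ).erase u0 := by
      ext u
      simp only [Finset.mem_filter, Finset.mem_univ, true_and, Finset.mem_erase, and_true]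
      tauto
    rw [h1, Finset.card_erase_of_mem, Finset.card_erase_of_mem (Finset.mem_univ _),
      Finset.card_univ, Fintype.card_fin]
    · omega
    · rw [Finset.mem_erase]; exact ⟨hu0, Finset.mem_univ _⟩
  let e := (Fintype.equivFinOfCardEq hcard).symm
  refine ⟨fun i => mkE φ (e i).1 (e i).2.1.symm, ?_⟩
  intro p q hp hq h
  have hne : φ ≠ u0 := hu0.symm
  -- all edges other than `φ u0`
  have h1 : ∀ f : Ed k, f ≠ mkE φ u0 hne → p.co f = q.co f := by
    intro f hf
    by_cases hfφ : φ = f.1.1 ∨ φ = f.1.2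
    · obtain ⟨u, hu, rfl⟩ := eq_mkE f hfφ
      have hu0' : u ≠ u0 := by
        rintro rfl
        exact hf rfl
      have := h (e.symm ⟨u, hu.symm, hu0'⟩)
      simp only [Equiv.apply_symm_apply] at this
      exact this
    · rw [p.co_out (v := f) (by rw [hp]; exact hfφ), q.co_out (v := f) (by rw [hq]; exact hfφ)]
  have h2 : p.co (mkE φ u0 hne) = q.co (mkE φ u0 hne) := by
    have e1 := p.co_eq (e := φ) (by rw [hp]; exact rfl)
    have e2 := q.co_eq (e := φ) (by rw [hq]; exact rfl)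
    rw [← e2, ← Finset.add_sum_erase _ _ (Finset.mem_univ (mkE φ u0 hne)),
      ← Finset.add_sum_erase _ _ (Finset.mem_univ (mkE φ u0 hne))] at e1
    have e3 : ∑ x ∈ univ.erase (mkE φ u0 hne), (kS k).inc φ x • p.co x =
        ∑ x ∈ univ.erase (mkE φ u0 hne), (kS k).inc φ x • q.co x :=
      Finset.sum_congr rfl fun x hx => by rw [h1 x (Finset.ne_of_mem_erase hx)]
    rw [e3, add_left_inj, kS_in ((mem_mkE hne φ).2 (Or.inl rfl)), one_smul, one_smul] at e1
    exact e1
  refine Vx.ext' (hp.trans hq.symm) ?_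
  funext f
  by_cases hf : f = mkE φ u0 hne
  · rw [hf, h2]
  · exact h1 f hf

/-- numbers -/
theorem exists_m (D C k0 : ℕ) (hD : 1 ≤ D) (hk0 : 1 ≤ k0) (β : ℝ) (hβ : β * D < 1) :
    ∀ᶠ n : ℕ in atTop, ∃ m : ℕ, 1 ≤ m ∧ k0 * (2 ^ m) ^ D ≤ n ∧
      ∀ s : ℕ, (s : ℝ) ≤ (n : ℝ) ^ β → s * 2 ^ C < 2 ^ m := by
  -- wlog nonnegative
  obtain ⟨γ, hγ0, hγβ, hγD⟩ : ∃ γ : ℝ, 0 ≤ γ ∧ β ≤ γ ∧ γ * D < 1 := by
    refine ⟨max β 0, le_max_right _ _, le_max_left _ _, ?_⟩
    rcases le_total β 0 with h | h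
    · rw [max_eq_right h, zero_mul]; norm_num
    · rw [max_eq_left h]; exact hβ
  have h2pos : (0 : ℝ) < 2 := by norm_num
  set ρ : ℝ := 2 ^ (γ * D) with hρ
  have hρ0 : 0 < ρ := Real.rpow_pos_of_pos h2pos _
  have hρ2 : ρ < 2 := by
    calc ρ < 2 ^ (1 : ℝ) := Real.rpow_lt_rpow_of_exponent_lt (by norm_num) hγD
      _ = 2 := Real.rpow_one 2
  set K : ℝ := (k0 : ℝ) ^ γ * ρ * 2 ^ C with hK
  have hratio : 1 < 2 / ρ := by rw [lt_div_iff₀ hρ0]; linarith
  have hev := (tendsto_pow_atTop_atTop_of_one_lt hratio).eventually_gt_atTop K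
  obtain ⟨M0, hM0⟩ := eventually_atTop.1 hev
  filter_upwards [eventually_ge_atTop (k0 * 2 ^ (D * (M0 + 1)))] with n hn
  have hk0' : 0 < k0 := hk0
  set L := Nat.log 2 (n / k0) with hL
  have hdiv : 2 ^ (D * (M0 + 1)) ≤ n / k0 := by
    rw [Nat.le_div_iff_mul_le hk0', mul_comm]; exact hn
  have hdiv0 : n / k0 ≠ 0 := by
    have : 0 < 2 ^ (D * (M0 + 1)) := by positivity
    omega
  have hLge : D * (M0 + 1) ≤ L := Nat.le_log_of_pow_le (by norm_num) hdiv
  set m := L / D with hm
  have hmM : M0 + 1 ≤ m := by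
    rw [hm, Nat.le_div_iff_mul_le hD, mul_comm]; exact hLge
  have h1 : 2 ^ L ≤ n / k0 := Nat.pow_log_le_self 2 hdiv0
  have h2 : n / k0 < 2 ^ (L + 1) := Nat.lt_pow_succ_log_self (by norm_num) _
  refine ⟨m, by omega, ?_, ?_⟩
  · rw [← pow_mul]
    have h3 : m * D ≤ L := Nat.div_mul_le_self L D
    calc k0 * 2 ^ (m * D) ≤ k0 * (n / k0) :=
          Nat.mul_le_mul_left _ ((Nat.pow_le_pow_right (by norm_num) h3).trans h1)
      _ ≤ n := Nat.mul_div_le n k0
  · intro s hs
    have h3 : L + 1 ≤ D * (m + 1) := by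
      have := Nat.lt_mul_div_succ L (show 0 < D by omega)
      rw [← hm] at this
      omega
    have h4 : n < k0 * 2 ^ (D * (m + 1)) := by
      have h5 : n / k0 < 2 ^ (D * (m + 1)) :=
        lt_of_lt_of_le h2 (Nat.pow_le_pow_right (by norm_num) h3)
      rw [Nat.div_lt_iff_lt_mul hk0'] at h5
      rwa [mul_comm] at h5
    have hn1 : 1 ≤ n := by
      by_contra hcon
      have h0 : n = 0 := by omega
      rw [h0, Nat.zero_div] at hdiv0
      exact hdiv0 rfl
    have h6 : (s : ℝ) ≤ (n : ℝ) ^ γ :=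
      hs.trans (Real.rpow_le_rpow_of_exponent_le (by exact_mod_cast hn1) hγβ)
    have h7 : (n : ℝ) ^ γ ≤ ((k0 : ℝ) * 2 ^ (D * (m + 1))) ^ γ := by
      apply Real.rpow_le_rpow (by positivity) _ hγ0
      exact_mod_cast h4.le
    have h8 : ((k0 : ℝ) * 2 ^ (D * (m + 1))) ^ γ = (k0 : ℝ) ^ γ * ρ * ρ ^ m := by
      rw [Real.mul_rpow (by positivity) (by positivity), mul_assoc]
      congr 1
      rw [hρ, ← Real.rpow_natCast 2 (D * (m + 1)), ← Real.rpow_mul h2pos.le,
        ← Real.rpow_natCast _ m, ← Real.rpow_mul h2pos.le, ← Real.rpow_add h2pos]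
      congr 1
      push_cast
      ring
    have h9 : K * ρ ^ m < 2 ^ m := by
      have := hM0 m (by omega)
      rw [div_pow, lt_div_iff₀ (by positivity)] at this
      exact this
    have h10 : (s : ℝ) * 2 ^ C < 2 ^ m := by
      calc (s : ℝ) * 2 ^ C ≤ ((k0 : ℝ) ^ γ * ρ * ρ ^ m) * 2 ^ C := by
            apply mul_le_mul_of_nonneg_right _ (by positivity)
            rw [← h8]; exact h6.trans h7
        _ = K * ρ ^ m := by rw [hK]; ring
        _ < 2 ^ m := h9
    exact_mod_cast h10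

/-- **The clique problem with `k - 1` variables.** -/
theorem clique_pair (k : ℕ) (hk : 3 ≤ k) (β : ℝ) (hβ : β * (k - 2) < 1) :
    ∀ᶠ n : ℕ in atTop, ∃ G H : SimpleGraph (Fin n), ¬ G.CliqueFree k ∧ H.CliqueFree k ∧
      ∀ s : ℕ → ℕ, (s n : ℝ) ≤ (n : ℝ) ^ β → ∀ q, Def (k - 1) s Empty q →
        (q (Fin n) G Empty.elim ↔ q (Fin n) H Empty.elim) := by
  classical
  have hD : β * ((k - 2 : ℕ) : ℝ) < 1 := by
    rw [Nat.cast_sub (by omega)]
    exact_mod_cast hβ
  filter_upwards [exists_m (k - 2) ((k - 1) * Fintype.card (Ed k) + Nat.card (Fin k) + 1) k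
    (by omega) (by omega) β hD] with n hn
  obtain ⟨m, hm1, hm2, hm3⟩ := hn
  have hk0 : 0 < k := by omega
  obtain ⟨G, H, h1, h2, h3⟩ := general_pair (n := n) (m := m) (kF k) (by omega)
    (fun _ _ _ => trivial) (Pi.single (⟨0, hk0⟩ : Fin k) 1) (B := k - 1) (by omega)
    (fun x => by convert kS_unsat ⟨0, hk0⟩ x) (k - 2)
    (fun m φ => kS_det (by omega) _ φ) hm1 (by rw [Fintype.card_fin]; exact hm2)
  refine ⟨G, H, by rwa [Fintype.card_fin] at h1, ?_, ?_⟩
  · intro K hK
    have := h2 K hK.isClique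
    rw [hK.card_eq] at this
    omega
  · intro s hs q hq
    exact h3 (k - 1) s le_rfl (hm3 _ hs) q hq

end Run7.h625.SQ
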