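import Pool.Agent.Run7.h625.SQ.Gen

set_option autoImplicit false

/-! Quantifiers on interpreted structures whose size is a constant fraction of the number of
vertices. -/

namespace Run7.h625.SQ

open Finset

/-- The queries definable with `w` variables in infinitary logic with counting and with all
Lindstroem quantifiers for interpreted structures with `N` elements and dimension `e`,
`N * e ≤ s n` on graphs with `n` vertices. The class `K` of structures is arbitrary. -/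
inductive Df (w : ℕ) (s : ℕ → ℕ) : (ι : Type) → Query ι → Prop
  /-- adjacency -/
  | adj {ι : Type} [Finite ι] (hι : Nat.card ι ≤ w) (i j : ι) :
      Df w s ι (fun _ _ G a => G.Adj (a i) (a j))
  /-- equality -/
  | eq {ι : Type} [Finite ι] (hι : Nat.card ι ≤ w) (i j : ι) :
      Df w s ι (fun _ _ _ a => a i = a j)
  /-- negation -/
  | not {ι : Type} {q : Query ι} (h : Df w s ι q) : Df w s ι (fun V _ G a => ¬ q V G a)
  /-- conjunctions of any size -/
  | all {ι : Type} [Finite ι] (hι : Nat.card ι ≤ w) {T : Type} (q : T → Query ι)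
      (h : ∀ t, Df w s ι (q t)) : Df w s ι (fun V _ G a => ∀ t, q t V G a)
  /-- substitution of variables -/
  | subst {ι ι' : Type} [Finite ι'] (hι : Nat.card ι' ≤ w) (f : ι → ι') {q : Query ι}
      (h : Df w s ι q) : Df w s ι' (fun V _ G a => q V G (a ∘ f))
  /-- there are at least `c` elements `x` with `q` -/
  | count {ι : Type} (c : ℕ) {q : Query (Option ι)} (h : Df w s (Option ι) q) :
      Df w s ι (fun V _ G a => c ≤ Nat.card {x : V // q V G (fun o => o.elim x a)})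
  /-- the interpreted structure is small and is in the class `K` -/
  | small {ι J : Type} [Finite ι] {ar : J → ℕ} (Θ : Interp ι J ar)
      (K : ∀ N, Str J ar N → Prop)
      (hι : Nat.card ι + 2 * Θ.e ≤ w) (hD : ∀ i, Df w s (ι ⊕ Fin Θ.e) (Θ.D i))
      (hE : ∀ i i', Df w s (ι ⊕ (Fin Θ.e ⊕ Fin Θ.e)) (Θ.E i i'))
      (hR : ∀ j f, Df w s (ι ⊕ (Fin (ar j) × Fin Θ.e)) (Θ.R j f)) :
      Df w s ι (fun V _ G a => ∃ N, N * Θ.e ≤ s (Nat.card V) ∧
        ∃ M : Str J ar N, K N M ∧ Θ.Defines G a M)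

theorem Df.card_le {w : ℕ} {s : ℕ → ℕ} {ι : Type} {q : Query ι} (h : Df w s ι q) :
    Finite ι ∧ Nat.card ι ≤ w := by
  induction h with
  | adj hι i j => exact ⟨inferInstance, hι⟩
  | eq hι i j => exact ⟨inferInstance, hι⟩
  | not h ih => exact ih
  | all hι q h ih => exact ⟨inferInstance, hι⟩
  | subst hι f h ih => exact ⟨inferInstance, hι⟩
  | @count ι c q h ih =>
    obtain ⟨h1, h2⟩ := ih
    haveI : Finite ι := Finite.of_injective (some : ι → Option ι) (Option.some_injective ι)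
    refine ⟨this, le_trans ?_ h2⟩
    exact Nat.card_le_card_of_injective (some : ι → Option ι) (Option.some_injective ι)
  | small Θ K hι hD hE hR ihD ihE ihR => exact ⟨inferInstance, by omega⟩

variable {X Q Φ : Type} [Fintype X] {A : Type} [AddCommGroup A] [Module (ZMod 2) A]
  {S : Sys X Q Φ} {U U' : Q → A} {w : ℕ} {F : LocFam S w}

/-- The tuples `x` and `x'` are matched by an extension of the assignment `y` on `T`. -/
def Cnd (F : LocFam S w) (T : Finset Φ) (d : A) (β : Q → ZMod 2) (y : X → ZMod 2) {κ : Type}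
    (x : κ → Vx S U) (x' : κ → Vx S U') : Prop :=
  ∃ (T' : Finset Φ) (z : X → ZMod 2), (∀ m, (x m).fib ∈ T') ∧ T ⊆ T' ∧ F.Loc β T' z ∧
    (∀ ψ ∈ T, ∀ v ∈ S.vars ψ, z v = y v) ∧ ∀ m, Sx d z (x m) (x' m)

theorem Cnd.symm {T : Finset Φ} {d : A} {β : Q → ZMod 2} {y : X → ZMod 2} {κ : Type}
    {x : κ → Vx S U} {x' : κ → Vx S U'} (h : Cnd F T d β y x x') : Cnd F T d β y x' x := by
  obtain ⟨T', z, h1, h2, h3, h4, h5⟩ := h
  exact ⟨T', z, fun m => by rw [(h5 m).1]; exact h1 m, h2, h3, h4, fun m => (h5 m).symm⟩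

theorem Cnd.comp {T : Finset Φ} {d : A} {β : Q → ZMod 2} {y : X → ZMod 2} {κ μ : Type}
    {x : κ → Vx S U} {x' : κ → Vx S U'} (h : Cnd F T d β y x x') (f : μ → κ) :
    Cnd F T d β y (x ∘ f) (x' ∘ f) := by
  obtain ⟨T', z, h1, h2, h3, h4, h5⟩ := h
  exact ⟨T', z, fun m => h1 _, h2, h3, h4, fun m => h5 _⟩

open Classical in
theorem Cnd.ex {T : Finset Φ} {d : A} {β : Q → ZMod 2} {y : X → ZMod 2} {κ : Type} [Finite κ]
    (hU : ∀ e, U' e = U e + β e • d) (h : F.Loc β T y) (x : κ → Vx S U)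
    (hc : T.card + Nat.card κ ≤ w) : ∃ x' : κ → Vx S U', Cnd F T d β y x x' := by
  obtain ⟨z, hz1, hz2⟩ := ext_many F β T y (vw x) (by
    refine (Finset.card_union_le _ _).trans ?_
    have := card_vw x
    omega) h
  have hx : ∀ m, ∃ r : Vx S U', Sx d z (x m) r := fun m =>
    Sx.ex hU _ fun e he => F.sat _ _ _ hz1 _
      (Finset.mem_union_right _ (mem_vw.2 ⟨m, rfl⟩)) e he
  choose x' hx using hx
  exact ⟨x', T ∪ vw x, z, fun m => Finset.mem_union_right _ (mem_vw.2 ⟨m, rfl⟩),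
    Finset.subset_union_left, hz1, hz2, hx⟩

/-- Matched tuples together with the tuples whose views belong to `T`. -/
theorem Cnd.rx {T : Finset Φ} {d : A} {β : Q → ZMod 2} {y : X → ZMod 2} {κ ι : Type}
    {x : κ → Vx S U} {x' : κ → Vx S U'} (hU : ∀ e, U' e = U e + β e • d)
    (h : Cnd F T d β y x x') {a : ι → Vx S U} {b : ι → Vx S U'} (ha : ∀ i, (a i).fib ∈ T)
    (hab : ∀ i, Sx d y (a i) (b i)) : Rx F (Sum.elim a x) (Sum.elim b x') := by
  obtain ⟨T', z, h1, h2, h3, h4, h5⟩ := h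
  refine ⟨d, β, T', z, hU, ?_, h3, ?_⟩
  · rintro (i | m)
    · exact h2 (ha i)
    · exact h1 m
  · rintro (i | m)
    · exact (hab i).congr fun v hv => h4 _ (ha i) v hv
    · exact h5 m

open Classical in
/-- Small quantifiers: representatives of all the elements of the interpreted structure. -/
theorem inv_lin [Finite A] [Finite Φ] [Finite Q] {w' : ℕ} {s : ℕ → ℕ} {n : ℕ}
    (hs : w' + s n ≤ w)
    {ι : Type} [Finite ι] {J : Type} {ar : J → ℕ} (Θ : Interp ι J ar) (K : ∀ N, Str J ar N → Prop)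
    (hι : Nat.card ι + 2 * Θ.e ≤ w')
    (hR : ∀ j : J, Nonempty (Fin (ar j) → Θ.I) →
      Nat.card (ι ⊕ (Fin (ar j) × Fin Θ.e)) ≤ w')
    (iD : ∀ i, InvX F A n (Θ.D i)) (iE : ∀ i i', InvX F A n (Θ.E i i'))
    (iR : ∀ j f, InvX F A n (Θ.R j f)) :
    InvX F A n (fun V _ G a => ∃ N, N * Θ.e ≤ s (Nat.card V) ∧
        ∃ M : Str J ar N, K N M ∧ Θ.Defines G a M) := by
  intro U U' hn hn' a b hab hq
  obtain ⟨N, hN, M, hK, h, p1, p2, p3⟩ := hq
  obtain ⟨d, β, T, y, h1, h2, h3, h4⟩ := hab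
  rw [hn] at hN
  have hTa : vw a ⊆ T := by
    intro φ hφ
    obtain ⟨i, rfl⟩ := mem_vw.1 hφ
    exact h2 i
  have h3' := F.mono _ _ _ _ hTa h3
  -- the representatives
  choose ri rx hrD hrh using p1
  have hcr : (vw a ∪ vw fun p : Fin N × Fin Θ.e => rx p.1 p.2).card ≤ Nat.card ι + N * Θ.e := by
    refine (Finset.card_union_le _ _).trans ?_
    have e1 := card_vw a
    have e2 := card_vw fun p : Fin N × Fin Θ.e => rx p.1 p.2
    rw [Nat.card_prod, Nat.card_fin, Nat.card_fin] at e2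
    omega
  obtain ⟨z, hz1, hz2⟩ := ext_many F β (vw a) y (vw fun p : Fin N × Fin Θ.e => rx p.1 p.2)
    (by omega) h3'
  obtain ⟨T1, hT1⟩ : ∃ T1, T1 = vw a ∪ vw fun p : Fin N × Fin Θ.e => rx p.1 p.2 := ⟨_, rfl⟩
  rw [← hT1] at hz1 hcr
  have hra : ∀ i, (a i).fib ∈ T1 := fun i => by
    rw [hT1]; exact Finset.mem_union_left _ (mem_vw.2 ⟨i, rfl⟩)
  have hrr : ∀ l m, (rx l m).fib ∈ T1 := fun l m => by
    rw [hT1]; exact Finset.mem_union_right _ (mem_vw.2 ⟨(l, m), rfl⟩)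
  have hrx : ∀ l m, ∃ r : Vx S U', Sx d z (rx l m) r := fun l m =>
    Sx.ex h1 _ fun e he => F.sat _ _ _ hz1 _ (hrr l m) e he
  choose rx' hrx' using hrx
  have hab1 : ∀ i, Sx d z (a i) (b i) := fun i =>
    (h4 i).congr fun v hv => hz2 _ (mem_vw.2 ⟨i, rfl⟩) v hv
  have h1' : ∀ e, U e = U' e + β e • d := fun e => by
    rw [h1 e, add_assoc, ZModModule.add_self, add_zero]
  -- matched tuples exist on both sides
  have C1 : ∀ {κ : Type} [Finite κ] (x' : κ → Vx S U'), Nat.card ι + Nat.card κ ≤ w' →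
      ∃ x : κ → Vx S U, Cnd F T1 d β z x x' := by
    intro κ _ x' hκ
    obtain ⟨x, hx⟩ := Cnd.ex (F := F) (T := T1) h1' hz1 x' (by omega)
    exact ⟨x, hx.symm⟩
  have C1' : ∀ {κ : Type} [Finite κ] (x : κ → Vx S U), Nat.card ι + Nat.card κ ≤ w' →
      ∃ x' : κ → Vx S U', Cnd F T1 d β z x x' := fun x hκ =>
    Cnd.ex (F := F) (T := T1) h1 hz1 x (by omega)
  have C2 : ∀ {κ : Type} {x : κ → Vx S U} {x' : κ → Vx S U'}, Cnd F T1 d β z x x' →
      Rx F (Sum.elim a x) (Sum.elim b x') := fun hc => hc.rx h1 hra hab1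
  have D1 : ∀ {i : Θ.I} {x : Fin Θ.e → Vx S U} {x' : Fin Θ.e → Vx S U'},
      Cnd F T1 d β z x x' → (Θ.D i (Vx S U) (gx S U) (Sum.elim a x) ↔
        Θ.D i (Vx S U') (gx S U') (Sum.elim b x')) := fun {i x x'} hc => (iD i).iff hn hn' (C2 hc)
  -- the element of `x` is determined by `x'`
  have key : ∀ {i : Θ.I} {x : Fin Θ.e → Vx S U} {x' : Fin Θ.e → Vx S U'} (l : Fin N),
      Cnd F T1 d β z x x' → (Θ.E i (ri l) (Vx S U) (gx S U) (Sum.elim a (Sum.elim x (rx l))) ↔
        Θ.E i (ri l) (Vx S U') (gx S U') (Sum.elim b (Sum.elim x' (rx' l)))) := by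
    intro i x x' l hc
    have hc' : Cnd F T1 d β z (Sum.elim x (rx l)) (Sum.elim x' (rx' l)) := by
      obtain ⟨T', z', g1, g2, g3, g4, g5⟩ := hc
      refine ⟨T', z', ?_, g2, g3, g4, ?_⟩
      · rintro (m | m)
        · exact g1 m
        · exact g2 (hrr l m)
      · rintro (m | m)
        · exact g5 m
        · exact (hrx' l m).congr fun v hv => g4 _ (hrr l m) v hv
    exact (iE i (ri l)).iff hn hn' (C2 hc')
  have C3 : ∀ {i : Θ.I} {x x2 : Fin Θ.e → Vx S U} {x' : Fin Θ.e → Vx S U'},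
      Cnd F T1 d β z x x' → Cnd F T1 d β z x2 x' →
        Θ.D i (Vx S U) (gx S U) (Sum.elim a x) → h i x = h i x2 := by
    intro i x x2 x' hc hc2 hDx
    have hDx2 : Θ.D i (Vx S U) (gx S U) (Sum.elim a x2) := (D1 hc2).2 ((D1 hc).1 hDx)
    have e1 : h i x = h (ri (h i x)) (rx (h i x)) := (hrh _).symm
    have e2 := (p2 i (ri (h i x)) x (rx (h i x)) hDx (hrD _)).1 e1
    have e3 := (key (h i x) hc2).2 ((key (h i x) hc).1 e2)
    have e4 := (p2 i (ri (h i x)) x2 (rx (h i x)) hDx2 (hrD _)).2 e3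
    rw [e4, hrh]
  have hk1 : Nat.card ι + Nat.card (Fin Θ.e) ≤ w' := by
    rw [Nat.card_fin]; omega
  have hk2 : Nat.card ι + Nat.card (Fin Θ.e ⊕ Fin Θ.e) ≤ w' := by
    rw [Nat.card_sum, Nat.card_fin]; omega
  choose xf hcf using fun x' : Fin Θ.e → Vx S U' => C1 x' hk1
  have D2 : ∀ {i : Θ.I} {x : Fin Θ.e → Vx S U} {x' : Fin Θ.e → Vx S U'},
      Cnd F T1 d β z x x' → Θ.D i (Vx S U') (gx S U') (Sum.elim b x') →
        h i (xf x') = h i x := by
    intro i x x' hc hd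
    exact (C3 hc (hcf x') ((D1 hc).2 hd)).symm
  refine ⟨N, by rwa [hn'], M, hK, fun i x' => h i (xf x'), ?_, ?_, ?_⟩
  · intro l
    obtain ⟨x', hc⟩ := C1' (rx l) hk1
    refine ⟨ri l, x', (D1 hc).1 (hrD l), ?_⟩
    show h (ri l) (xf x') = l
    rw [D2 hc ((D1 hc).1 (hrD l)), hrh]
  · intro i i' x' z' hx' hz'
    show h i (xf x') = h i' (xf z') ↔ _
    obtain ⟨X0, hc⟩ := C1 (Sum.elim x' z') hk2
    have hcx : Cnd F T1 d β z (X0 ∘ Sum.inl) x' := hc.comp Sum.inl
    have hcz : Cnd F T1 d β z (X0 ∘ Sum.inr) z' := hc.comp Sum.inr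
    rw [D2 hcx hx', D2 hcz hz', p2 i i' _ _ ((D1 hcx).2 hx') ((D1 hcz).2 hz'),
      ← (iE i i').iff hn hn' (C2 hc)]
    have : Sum.elim (X0 ∘ Sum.inl) (X0 ∘ Sum.inr) = X0 := by
      funext o; rcases o with o | o <;> rfl
    rw [this]
  · intro j f X' hX'
    have hk3 : Nat.card ι + Nat.card (Fin (ar j) × Fin Θ.e) ≤ w' := by
      have := hR j ⟨f⟩
      rwa [Nat.card_sum] at this
    obtain ⟨X0, hc⟩ := C1 (fun p : Fin (ar j) × Fin Θ.e => X' p.1 p.2) hk3
    have hcl : ∀ l, Cnd F T1 d β z (fun m => X0 (l, m)) (X' l) := fun l =>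
      hc.comp (fun m => (l, m))
    rw [← (iR j f).iff hn hn' (C2 hc)]
    have e1 : (fun l => h (f l) (xf (X' l))) = fun l => h (f l) (fun m => X0 (l, m)) := by
      funext l
      exact D2 (hcl l) (hX' l)
    show _ ↔ M j fun l => h (f l) (xf (X' l))
    rw [e1]
    exact p3 j f (fun l m => X0 (l, m)) fun l => (D1 (hcl l)).2 (hX' l)

/-- **The invariance theorem.** -/
theorem inv_df [Finite A] [Finite Φ] [Finite Q] (F : LocFam S w) {w' : ℕ} {s : ℕ → ℕ} {n : ℕ}
    (hs : w' + s n ≤ w) {ι : Type} {q : Query ι} (hq : Df w' s ι q) : InvX F A n q := by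
  induction hq with
  | adj hι i j => intro U U' hn hn' a b hr h; exact (hr.adj i j).1 h
  | eq hι i j => intro U U' hn hn' a b hr h; exact (hr.eq i j).1 h
  | not h ih => intro U U' hn hn' a b hr h1 h2; exact h1 (ih _ _ hn' hn _ _ hr.symm h2)
  | all hι q h ih => intro U U' hn hn' a b hr h1 t; exact ih t _ _ hn hn' _ _ hr (h1 t)
  | subst hι f h ih => intro U U' hn hn' a b hr h1; exact ih _ _ hn hn' _ _ (hr.comp f) h1
  | @count ι c q h ih =>
    intro U U' hn hn' a b hr h1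
    obtain ⟨hf, hc⟩ := h.card_le
    haveI : Finite ι := Finite.of_injective (some : ι → Option ι) (Option.some_injective ι)
    haveI := Fintype.ofFinite ι
    have hk : Nat.card ι + 1 ≤ w := by
      rw [Nat.card_eq_fintype_card, Fintype.card_option] at hc
      rw [Nat.card_eq_fintype_card]
      omega
    obtain ⟨f, hF, hFr⟩ := hr.extend hk
    refine le_trans h1 ?_
    refine Nat.card_le_card_of_injective
      (fun x : {x : Vx S U // q (Vx S U) (gx S U) (fun o => o.elim x a)} =>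
        (⟨f x.1, ih _ _ hn hn' _ _ (hFr x.1) x.2⟩ :
          {x : Vx S U' // q (Vx S U') (gx S U') (fun o => o.elim x b)})) ?_
    intro x y hxy
    exact Subtype.ext (hF (congrArg Subtype.val hxy))
  | small Θ K hι hD hE hR iD iE iR =>
    exact inv_lin hs Θ K hι (fun j ⟨f⟩ => (hR j f).card_le.2) iD iE iR

end Run7.h625.SQ
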