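import Pool.Agent.Run7.h625.SQ.Lin

set_option autoImplicit false

/-! The bijections between the elements of interpreted structures. -/

namespace Run7.h625.SQ

open Finset

/-- A bijection from a relation with complete bipartite components with equal sides. -/
theorem exists_equiv_of_rel {α γ : Type} [Finite α] [Finite γ] (r : α → γ → Prop)
    (h1 : ∀ u, ∃ v, r u v) (h2 : ∀ v, ∃ u, r u v)
    (h3 : ∀ u v u1 v1, r u v → r u1 v → r u v1 → r u1 v1)
    (h4 : ∀ u v, r u v → Nat.card {v1 // r u v1} = Nat.card {u1 // r u1 v}) :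
    ∃ f : α ≃ γ, ∀ u, r u (f u) := by
  classical
  let L : α → Set γ := fun u => {v | r u v}
  let L' : γ → Set γ := fun v => {v1 | ∃ u, r u v ∧ r u v1}
  have key : ∀ u v, r u v ↔ L' v = L u := by
    intro u v
    constructor
    · intro h
      ext v1
      constructor
      · rintro ⟨u1, h5, h6⟩
        exact h3 u1 v u v1 h5 h h6
      · intro h5
        exact ⟨u, h, h5⟩
    · intro h
      obtain ⟨u1, h5⟩ := h2 v
      have h6 : v ∈ L' v := ⟨u1, h5, h5⟩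
      rw [h] at h6
      exact h6
  have hf : ∀ X : Set γ, Nonempty ({u // L u = X} ≃ {v // L' v = X}) := by
    intro X
    by_cases hX : ∃ u0, L u0 = X
    · obtain ⟨u0, rfl⟩ := hX
      obtain ⟨v0, hv0⟩ := h1 u0
      have e1 : Nat.card {u // L u = L u0} = Nat.card {u1 // r u1 v0} := by
        refine Nat.card_congr (Equiv.subtypeEquivRight fun u => ?_)
        rw [key, (key u0 v0).1 hv0]
        exact eq_comm
      have e2 : Nat.card {v // L' v = L u0} = Nat.card {v1 // r u0 v1} :=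
        Nat.card_congr (Equiv.subtypeEquivRight fun v => (key u0 v).symm)
      exact Finite.card_eq.1 (by rw [e1, e2, h4 u0 v0 hv0])
    · have e1 : IsEmpty {u // L u = X} := ⟨fun u => hX ⟨u.1, u.2⟩⟩
      have e2 : IsEmpty {v // L' v = X} := ⟨fun v => by
        obtain ⟨u, hu⟩ := h2 v.1
        exact hX ⟨u, by rw [← (key u v.1).1 hu, v.2]⟩⟩
      exact ⟨Equiv.equivOfIsEmpty _ _⟩
  refine ⟨(Equiv.sigmaFiberEquiv L).symm.trans
    ((Equiv.sigmaCongrRight fun X => (hf X).some).trans (Equiv.sigmaFiberEquiv L')), fun u => ?_⟩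
  rw [key]
  exact ((hf (L u)).some ⟨u, rfl⟩).2

variable {X Q Φ : Type} [Fintype X] {A : Type} [AddCommGroup A] [Module (ZMod 2) A]
  {S : Sys X Q Φ} {U U' : Q → A} {w : ℕ} {F : LocFam S w}

open Classical in
/-- The views of a matched tuple suffice. -/
theorem Cnd.shrink {T : Finset Φ} {d : A} {β : Q → ZMod 2} {y : X → ZMod 2} {κ : Type} [Finite κ]
    {x : κ → Vx S U} {x' : κ → Vx S U'} (h : Cnd F T d β y x x') :
    ∃ z, F.Loc β (T ∪ vw x) z ∧ (∀ ψ ∈ T, ∀ v ∈ S.vars ψ, z v = y v) ∧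
      ∀ m, Sx d z (x m) (x' m) := by
  obtain ⟨T', z, h1, h2, h3, h4, h5⟩ := h
  refine ⟨z, F.mono _ _ _ _ ?_ h3, h4, h5⟩
  apply Finset.union_subset h2
  intro φ hφ
  obtain ⟨m, rfl⟩ := mem_vw.1 hφ
  exact h1 m

open Classical in
theorem Cnd.mk' {T : Finset Φ} {d : A} {β : Q → ZMod 2} {y z : X → ZMod 2} {κ : Type} [Finite κ]
    {x : κ → Vx S U} {x' : κ → Vx S U'} (h1 : F.Loc β (T ∪ vw x) z)
    (h2 : ∀ ψ ∈ T, ∀ v ∈ S.vars ψ, z v = y v) (h3 : ∀ m, Sx d z (x m) (x' m)) :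
    Cnd F T d β y x x' :=
  ⟨T ∪ vw x, z, fun m => Finset.mem_union_right _ (mem_vw.2 ⟨m, rfl⟩),
    Finset.subset_union_left, h1, h2, h3⟩

open Classical in
/-- A matched tuple can be extended. -/
theorem Cnd.more {T : Finset Φ} {d : A} {β : Q → ZMod 2} {y : X → ZMod 2} {κ μ : Type} [Finite κ]
    [Finite μ] (hU : ∀ e, U' e = U e + β e • d)
    {x : κ → Vx S U} {x' : κ → Vx S U'} (h : Cnd F T d β y x x') (x1 : μ → Vx S U)
    (hc : T.card + (Nat.card κ + Nat.card μ) ≤ w) :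
    ∃ x1' : μ → Vx S U', Cnd F T d β y (Sum.elim x x1) (Sum.elim x' x1') := by
  obtain ⟨z, h1, h2, h3⟩ := h.shrink
  obtain ⟨z', g1, g2⟩ := ext_many F β (T ∪ vw x) z (vw x1) (by
    refine (Finset.card_union_le _ _).trans ?_
    have e1 := card_vw x1
    have e2 := card_vw x
    have e3 := Finset.card_union_le T (vw x)
    omega) h1
  have hx : ∀ m, ∃ r : Vx S U', Sx d z' (x1 m) r := fun m =>
    Sx.ex hU _ fun e he => F.sat _ _ _ g1 _
      (Finset.mem_union_right _ (mem_vw.2 ⟨m, rfl⟩)) e he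
  choose x1' hx1 using hx
  refine ⟨x1', T ∪ vw x ∪ vw x1, z', ?_, ?_, g1, ?_, ?_⟩
  · rintro (m | m)
    · exact Finset.mem_union_left _ (Finset.mem_union_right _ (mem_vw.2 ⟨m, rfl⟩))
    · exact Finset.mem_union_right _ (mem_vw.2 ⟨m, rfl⟩)
  · exact Finset.subset_union_left.trans Finset.subset_union_left
  · intro ψ hψ v hv
    rw [g2 ψ (Finset.mem_union_left _ hψ) v hv, h2 ψ hψ v hv]
  · rintro (m | m)
    · exact (h3 m).congr fun v hv =>
        g2 _ (Finset.mem_union_right _ (mem_vw.2 ⟨m, rfl⟩)) v hv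
    · exact hx1 m

section

variable {T : Finset Φ} {d : A} {β : Q → ZMod 2} {z : X → ZMod 2} {e : ℕ} {I α γ : Type}

/-- The elements `u` and `v` of the interpreted structures are related. -/
def Rl (F : LocFam S w) (T : Finset Φ) (d : A) (β : Q → ZMod 2) (z : X → ZMod 2)
    (DG : I → (Fin e → Vx S U) → Prop) (h : I → (Fin e → Vx S U) → α)
    (h' : I → (Fin e → Vx S U') → γ) (u : α) (v : γ) : Prop :=
  ∃ i x x', DG i x ∧ Cnd F T d β z x x' ∧ h i x = u ∧ h' i x' = v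

/-- Change of the representative. -/
theorem rl_rep (hU : ∀ e, U' e = U e + β e • d) (hc : T.card + 2 * e ≤ w)
    {DG : I → (Fin e → Vx S U) → Prop} {DH : I → (Fin e → Vx S U') → Prop}
    {EG : I → I → (Fin e ⊕ Fin e → Vx S U) → Prop}
    {EH : I → I → (Fin e ⊕ Fin e → Vx S U') → Prop}
    (hD : ∀ i x x', Cnd F T d β z x x' → (DG i x ↔ DH i x'))
    (hE : ∀ i i' x x', Cnd F T d β z x x' → (EG i i' x ↔ EH i i' x'))
    {h : I → (Fin e → Vx S U) → α} {h' : I → (Fin e → Vx S U') → γ}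
    (l1 : ∀ i i' x x', DG i x → DG i' x' → (h i x = h i' x' ↔ EG i i' (Sum.elim x x')))
    (l2 : ∀ i i' x x', DH i x → DH i' x' → (h' i x = h' i' x' ↔ EH i i' (Sum.elim x x')))
    {i i1 : I} {x x1 : Fin e → Vx S U} {x' : Fin e → Vx S U'} (hx : DG i x)
    (hxx : Cnd F T d β z x x') (hx1 : DG i1 x1) (h1 : h i x = h i1 x1) :
    ∃ x1', Cnd F T d β z x1 x1' ∧ h' i1 x1' = h' i x' := by
  obtain ⟨x1', h2⟩ := hxx.more hU x1 (by rw [Nat.card_fin]; omega)
  have h3 : Cnd F T d β z x1 x1' := h2.comp Sum.inr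
  have h4 := (hE i i1 _ _ h2).1 ((l1 i i1 x x1 hx hx1).1 h1)
  exact ⟨x1', h3, ((l2 i i1 x' x1' ((hD i x x' hxx).1 hx) ((hD i1 x1 x1' h3).1 hx1)).2 h4).symm⟩

theorem cndsymm_hD {DG : I → (Fin e → Vx S U) → Prop} {DH : I → (Fin e → Vx S U') → Prop}
    (hD : ∀ i x x', Cnd F T d β z x x' → (DG i x ↔ DH i x')) :
    ∀ i x' x, Cnd F T d β z x' x → (DH i x' ↔ DG i x) := fun i x' x h => (hD i x x' h.symm).symm

theorem rl_symm {DG : I → (Fin e → Vx S U) → Prop} {DH : I → (Fin e → Vx S U') → Prop}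
    (hD : ∀ i x x', Cnd F T d β z x x' → (DG i x ↔ DH i x'))
    {h : I → (Fin e → Vx S U) → α} {h' : I → (Fin e → Vx S U') → γ} {u : α} {v : γ} :
    Rl F T d β z DG h h' u v ↔ Rl F T d β z DH h' h v u := by
  constructor
  · rintro ⟨i, x, x', h1, h2, h3, h4⟩
    exact ⟨i, x', x, (hD i x x' h2).1 h1, h2.symm, h4, h3⟩
  · rintro ⟨i, x, x', h1, h2, h3, h4⟩
    exact ⟨i, x', x, (hD i x' x h2.symm).2 h1, h2.symm, h4, h3⟩

theorem sx_two {y0 y2 : X → ZMod 2} {x x1 : Vx S U} {x' x1' : Vx S U'}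
    (h0 : Sx d y0 x x') (h2 : Sx d y2 x x1') (h3 : Sx d y2 x' x1) : Sx d y0 x1 x1' := by
  have hf : x1.fib = x.fib := h3.1.trans h0.1
  refine ⟨by rw [hf]; exact h2.1, ?_⟩
  have e0 := h0.2
  have e2 := h2.2
  have e3 := h3.2
  rw [h0.1] at e3
  rw [hf, e2, e3, e0]
  have e4 := sf_self (S := S) d y0 x.fib
  calc x.co + sf S d y2 x.fib = x.co + sf S d y2 x.fib + (sf S d y0 x.fib + sf S d y0 x.fib) := by
        rw [e4, add_zero]
    _ = _ := by abel

open Classical in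
theorem rl_card [Finite α] [Finite γ] (hU : ∀ e, U' e = U e + β e • d)
    (hc : T.card + 2 * e ≤ w)
    {DG : I → (Fin e → Vx S U) → Prop} {DH : I → (Fin e → Vx S U') → Prop}
    {EG : I → I → (Fin e ⊕ Fin e → Vx S U) → Prop}
    {EH : I → I → (Fin e ⊕ Fin e → Vx S U') → Prop}
    (hD : ∀ i x x', Cnd F T d β z x x' → (DG i x ↔ DH i x'))
    (hE : ∀ i i' x x', Cnd F T d β z x x' → (EG i i' x ↔ EH i i' x'))
    {h : I → (Fin e → Vx S U) → α} {h' : I → (Fin e → Vx S U') → γ}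
    (l1 : ∀ i i' x x', DG i x → DG i' x' → (h i x = h i' x' ↔ EG i i' (Sum.elim x x')))
    (l2 : ∀ i i' x x', DH i x → DH i' x' → (h' i x = h' i' x' ↔ EH i i' (Sum.elim x x')))
    {u : α} {v : γ} (huv : Rl F T d β z DG h h' u v) :
    Nat.card {v1 // Rl F T d β z DG h h' u v1} ≤ Nat.card {u1 // Rl F T d β z DG h h' u1 v} := by
  have hU' : ∀ e, U e = U' e + β e • d := fun e => by
    rw [hU e, add_assoc, ZModModule.add_self, add_zero]
  obtain ⟨i, x, x', h1, h2, h3, h4⟩ := huv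
  obtain ⟨y0, a1, a2, a3⟩ := h2.shrink
  have hx1 : ∀ v1 : {v1 // Rl F T d β z DG h h' u v1}, ∃ (x1' : Fin e → Vx S U')
      (y2 : X → ZMod 2) (x1 : Fin e → Vx S U), h' i x1' = v1 ∧ F.Loc β (T ∪ vw x) y2 ∧
      (∀ ψ ∈ T, ∀ v ∈ S.vars ψ, y2 v = z v) ∧ (∀ m, Sx d y2 (x m) (x1' m)) ∧
      ∀ m, Sx d y2 (x' m) (x1 m) := by
    rintro ⟨v1, i1, x2, x2', g1, g2, g3, g4⟩
    obtain ⟨x1', g5, g6⟩ := rl_rep hU hc hD hE l1 l2 g1 g2 h1 (g3.trans h3.symm)
    obtain ⟨y2, b1, b2, b3⟩ := g5.shrink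
    have hex : ∀ m, ∃ r : Vx S U, Sx d y2 (x' m) r := fun m =>
      Sx.ex hU' _ fun e he => F.sat _ _ _ b1 _ (by
        rw [(a3 m).1]
        exact Finset.mem_union_right _ (mem_vw.2 ⟨m, rfl⟩)) e he
    choose x1 hx1 using hex
    exact ⟨x1', y2, x1, g6.trans g4, b1, b2, b3, hx1⟩
  choose f1 f2 f3 c1 c2 c3 c4 c5 using hx1
  have hvx : ∀ v1, vw (f3 v1) = vw x := by
    intro v1
    ext φ
    rw [mem_vw, mem_vw]
    constructor
    · rintro ⟨m, hm⟩
      exact ⟨m, by rw [← hm, (c5 v1 m).1, (a3 m).1]⟩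
    · rintro ⟨m, hm⟩
      exact ⟨m, by rw [← hm, (c5 v1 m).1, (a3 m).1]⟩
  have hcnd : ∀ v1, Cnd F T d β z (f3 v1) x' := fun v1 =>
    Cnd.mk' (by rw [hvx]; exact c2 v1) (c3 v1) fun m => (c5 v1 m).symm
  have hDf : ∀ v1, DG i (f3 v1) := fun v1 => (hD i _ _ (hcnd v1)).2 ((hD i _ _ h2).1 h1)
  refine Nat.card_le_card_of_injective
    (fun v1 => (⟨h i (f3 v1), i, f3 v1, x', hDf v1, hcnd v1, rfl, h4⟩ :
      {u1 // Rl F T d β z DG h h' u1 v})) ?_
  intro v1 v2 hv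
  have e1 : h i (f3 v1) = h i (f3 v2) := congrArg Subtype.val hv
  have e2 := (l1 i i _ _ (hDf v1) (hDf v2)).1 e1
  have hall : ∀ v1, Cnd F T d β z (f3 v1) (f1 v1) := fun v1 =>
    Cnd.mk' (by rw [hvx]; exact a1) a2 fun m => sx_two (a3 m) (c4 v1 m) (c5 v1 m)
  have e3 : Cnd F T d β z (Sum.elim (f3 v1) (f3 v2)) (Sum.elim (f1 v1) (f1 v2)) := by
    refine Cnd.mk' (z := y0) ?_ a2 ?_
    · have : vw (Sum.elim (f3 v1) (f3 v2)) ⊆ vw x := by
        intro φ hφ
        obtain ⟨m, hm⟩ := mem_vw.1 hφ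
        rcases m with m | m
        · rw [← hvx v1]; exact mem_vw.2 ⟨m, hm⟩
        · rw [← hvx v2]; exact mem_vw.2 ⟨m, hm⟩
      exact F.mono _ _ _ _ (Finset.union_subset_union_right this) a1
    · rintro (m | m)
      · exact sx_two (a3 m) (c4 v1 m) (c5 v1 m)
      · exact sx_two (a3 m) (c4 v2 m) (c5 v2 m)
  have e4 := (hE i i _ _ e3).1 e2
  have e5 := (l2 i i _ _ ((hD i _ _ (hall v1)).1 (hDf v1)) ((hD i _ _ (hall v2)).1 (hDf v2))).2 e4
  rw [c1 v1, c1 v2] at e5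
  exact Subtype.ext e5

open Classical in
/-- **The bijection.** -/
theorem match_equiv [Finite α] [Finite γ] (hU : ∀ e, U' e = U e + β e • d)
    (hz : F.Loc β T z) (hc : T.card + 2 * e ≤ w)
    {DG : I → (Fin e → Vx S U) → Prop} {DH : I → (Fin e → Vx S U') → Prop}
    {EG : I → I → (Fin e ⊕ Fin e → Vx S U) → Prop}
    {EH : I → I → (Fin e ⊕ Fin e → Vx S U') → Prop}
    (hD : ∀ i x x', Cnd F T d β z x x' → (DG i x ↔ DH i x'))
    (hE : ∀ i i' x x', Cnd F T d β z x x' → (EG i i' x ↔ EH i i' x'))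
    {h : I → (Fin e → Vx S U) → α} {h' : I → (Fin e → Vx S U') → γ}
    (s1 : ∀ u, ∃ i x, DG i x ∧ h i x = u) (s2 : ∀ v, ∃ i x, DH i x ∧ h' i x = v)
    (l1 : ∀ i i' x x', DG i x → DG i' x' → (h i x = h i' x' ↔ EG i i' (Sum.elim x x')))
    (l2 : ∀ i i' x x', DH i x → DH i' x' → (h' i x = h' i' x' ↔ EH i i' (Sum.elim x x'))) :
    ∃ f : α ≃ γ, ∀ u, Rl F T d β z DG h h' u (f u) := by
  have hU' : ∀ e, U e = U' e + β e • d := fun e => by
    rw [hU e, add_assoc, ZModModule.add_self, add_zero]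
  have hD' := cndsymm_hD hD
  have hE' : ∀ i i' x' x, Cnd F T d β z x' x → (EH i i' x' ↔ EG i i' x) :=
    fun i i' x' x h => (hE i i' x x' h.symm).symm
  have hce : T.card + Nat.card (Fin e) ≤ w := by rw [Nat.card_fin]; omega
  refine exists_equiv_of_rel _ ?_ ?_ ?_ ?_
  · intro u
    obtain ⟨i, x, h1, h2⟩ := s1 u
    obtain ⟨x', h3⟩ := Cnd.ex (F := F) hU hz x hce
    exact ⟨h' i x', i, x, x', h1, h3, h2, rfl⟩
  · intro v
    obtain ⟨i, x', h1, h2⟩ := s2 v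
    obtain ⟨x, h3⟩ := Cnd.ex (F := F) hU' hz x' hce
    exact ⟨h i x, i, x, x', (hD i x x' h3.symm).2 h1, h3.symm, rfl, h2⟩
  · intro u v u1 v1 huv hu1v huv1
    obtain ⟨i, x, x', h1, h2, h3, h4⟩ := huv
    obtain ⟨i1, x2', x2, g1, g2, g3, g4⟩ := (rl_symm hD).1 hu1v
    obtain ⟨x1, g5, g6⟩ := rl_rep hU' hc hD' hE' l2 l1 g1 g2 ((hD i x x' h2).1 h1)
      (g3.trans h4.symm)
    obtain ⟨i2, x3, x3', k1, k2, k3, k4⟩ := huv1
    obtain ⟨x1', k5, k6⟩ := rl_rep hU hc hD hE l1 l2 k1 k2 h1 (k3.trans h3.symm)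
    obtain ⟨y0, a1, a2, a3⟩ := h2.shrink
    obtain ⟨y1, b1, b2, b3⟩ := g5.shrink
    obtain ⟨y2, c1, c2, c3⟩ := k5.shrink
    have e1 : vw x' = vw x := by
      ext φ
      rw [mem_vw, mem_vw]
      constructor
      · rintro ⟨m, hm⟩; exact ⟨m, by rw [← hm, (a3 m).1]⟩
      · rintro ⟨m, hm⟩; exact ⟨m, by rw [← hm, (a3 m).1]⟩
    have e2 : vw x1 = vw x := by
      rw [← e1]
      ext φ
      rw [mem_vw, mem_vw]
      constructor
      · rintro ⟨m, hm⟩; exact ⟨m, by rw [← hm, (b3 m).1]⟩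
      · rintro ⟨m, hm⟩; exact ⟨m, by rw [← hm, (b3 m).1]⟩
    rw [e1] at b1
    have hb : β + β + β = β := by
      have : β + β = 0 := by funext e; exact ZModModule.add_self _
      rw [this, zero_add]
    have hL := F.add _ _ _ _ _ (F.add _ _ _ _ _ a1 b1) c1
    rw [hb] at hL
    have hcnd : Cnd F T d β z x1 x1' := by
      refine Cnd.mk' (z := y0 + y1 + y2) (by rw [e2]; exact hL) ?_ ?_
      · intro ψ hψ v hv
        rw [Pi.add_apply, Pi.add_apply, a2 ψ hψ v hv, b2 ψ hψ v hv, c2 ψ hψ v hv,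
          ZModModule.add_self, zero_add]
      · intro m
        have q0 := a3 m
        have q1 := b3 m
        have q2 := c3 m
        have hf : (x1 m).fib = (x m).fib := by rw [q1.1, q0.1]
        refine ⟨by rw [hf]; exact q2.1, ?_⟩
        rw [hf, sf_add, sf_add, q2.2]
        have p1 := q1.2
        rw [q0.1, q0.2] at p1
        rw [p1]
        have p2 := sf_self (S := S) d y0 (x m).fib
        have p3 := sf_self (S := S) d y1 (x m).fib
        calc (x m).co + sf S d y2 (x m).fib = (x m).co + sf S d y2 (x m).fib +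
              (sf S d y0 (x m).fib + sf S d y0 (x m).fib) +
              (sf S d y1 (x m).fib + sf S d y1 (x m).fib) := by rw [p2, p3, add_zero, add_zero]
          _ = _ := by abel
    refine ⟨i, x1, x1', (hD i x1 x1' hcnd).2 ?_, hcnd, g6.trans g4, k6.trans k4⟩
    exact (hD i x x1' k5).1 h1
  · intro u v huv
    refine le_antisymm (rl_card hU hc hD hE l1 l2 huv) ?_
    have := rl_card hU' hc hD' hE' l2 l1 ((rl_symm hD).1 huv)
    have e1 : Nat.card {u1 // Rl F T d β z DG h h' u1 v} =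
        Nat.card {u1 // Rl F T d β z DH h' h v u1} :=
      Nat.card_congr (Equiv.subtypeEquivRight fun u1 => rl_symm hD)
    have e2 : Nat.card {v1 // Rl F T d β z DG h h' u v1} =
        Nat.card {v1 // Rl F T d β z DH h' h v1 u} :=
      Nat.card_congr (Equiv.subtypeEquivRight fun v1 => rl_symm hD)
    rw [e1, e2]
    exact this

end

end Run7.h625.SQ
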