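import Pool.Agent.Run7.h625.SQ.Defs
import Pool.Agent.Run7.h625.CW.Barrier

set_option autoImplicit false

/-! Counting logic with an oracle for unique games: the definitions. -/

namespace Run7.h625.SQ

/-- The relational structure of a weighted structure: the relation `(c, m)` holds for the tuples
of multiplicity `m` in `c`. -/
def mStr {Γ : Type} {r N : ℕ} (J : CW.Str r Γ (Fin N)) : Str (Γ × ℕ) (fun _ => r) N :=
  fun j f => J j.1 f = j.2

/-- An oracle: a class of unique games, for every alphabet. -/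
def Oracle : Type 1 :=
  ∀ (A : Type) [Fintype A] [DecidableEq A] (N : ℕ), Set (CW.Str 2 (Equiv.Perm A) (Fin N))

/-- The queries definable with `w` variables in infinitary logic with counting and with the
following quantifiers: all Lindstroem quantifiers for interpreted structures with `N` elements and
dimension `e`, `N * e ≤ s n` on graphs with `n` vertices; the oracle `O` for interpreted unique
games of dimension at most `d` with at most `M n` vertices. -/
inductive DfO (O : Oracle) (w : ℕ) (s : ℕ → ℕ) (d : ℕ) (M : ℕ → ℕ) :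
    (ι : Type) → Query ι → Prop
  /-- adjacency -/
  | adj {ι : Type} [Finite ι] (hι : Nat.card ι ≤ w) (i j : ι) :
      DfO O w s d M ι (fun _ _ G a => G.Adj (a i) (a j))
  /-- equality -/
  | eq {ι : Type} [Finite ι] (hι : Nat.card ι ≤ w) (i j : ι) :
      DfO O w s d M ι (fun _ _ _ a => a i = a j)
  /-- negation -/
  | not {ι : Type} {q : Query ι} (h : DfO O w s d M ι q) :
      DfO O w s d M ι (fun V _ G a => ¬ q V G a)
  /-- conjunctions of any size -/
  | all {ι : Type} [Finite ι] (hι : Nat.card ι ≤ w) {T : Type} (q : T → Query ι)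
      (h : ∀ t, DfO O w s d M ι (q t)) : DfO O w s d M ι (fun V _ G a => ∀ t, q t V G a)
  /-- substitution of variables -/
  | subst {ι ι' : Type} [Finite ι'] (hι : Nat.card ι' ≤ w) (f : ι → ι') {q : Query ι}
      (h : DfO O w s d M ι q) : DfO O w s d M ι' (fun V _ G a => q V G (a ∘ f))
  /-- there are at least `c` elements `x` with `q` -/
  | count {ι : Type} (c : ℕ) {q : Query (Option ι)} (h : DfO O w s d M (Option ι) q) :
      DfO O w s d M ι (fun V _ G a => c ≤ Nat.card {x : V // q V G (fun o => o.elim x a)})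
  /-- the interpreted structure is small and is in the class `K` -/
  | small {ι J : Type} [Finite ι] {ar : J → ℕ} (Θ : Interp ι J ar)
      (K : ∀ N, Str J ar N → Prop)
      (hι : Nat.card ι + 2 * Θ.e ≤ w) (hD : ∀ i, DfO O w s d M (ι ⊕ Fin Θ.e) (Θ.D i))
      (hE : ∀ i i', DfO O w s d M (ι ⊕ (Fin Θ.e ⊕ Fin Θ.e)) (Θ.E i i'))
      (hR : ∀ j f, DfO O w s d M (ι ⊕ (Fin (ar j) × Fin Θ.e)) (Θ.R j f)) :
      DfO O w s d M ι (fun V _ G a => ∃ N, N * Θ.e ≤ s (Nat.card V) ∧
        ∃ L : Str J ar N, K N L ∧ Θ.Defines G a L)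
  /-- the interpreted unique game over the alphabet `A` is accepted by the oracle -/
  | oracle {ι A : Type} [Finite ι] [Fintype A] [DecidableEq A]
      (Θ : Interp ι (Equiv.Perm A × ℕ) (fun _ => 2)) (hf : Finite Θ.I) (hd : Θ.e ≤ d)
      (hι : Nat.card ι + 2 * Θ.e ≤ w) (hD : ∀ i, DfO O w s d M (ι ⊕ Fin Θ.e) (Θ.D i))
      (hE : ∀ i i', DfO O w s d M (ι ⊕ (Fin Θ.e ⊕ Fin Θ.e)) (Θ.E i i'))
      (hR : ∀ j f, DfO O w s d M (ι ⊕ (Fin 2 × Fin Θ.e)) (Θ.R j f)) :
      DfO O w s d M ι (fun V _ G a => ∃ N, N ≤ M (Nat.card V) ∧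
        ∃ J ∈ O A N, Θ.Defines G a (mStr J))

/-- the value of the unique game `J` is at least `1 - δ` -/
def ValGe {A : Type} [Fintype A] [DecidableEq A] {N : ℕ} (δ : ℝ)
    (J : CW.Str 2 (Equiv.Perm A) (Fin N)) : Prop :=
  ∃ x : Fin N → A, (1 - δ) * (CW.total J : ℝ) ≤ CW.ugSat J x

end Run7.h625.SQ
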