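import Pool.Agent.Run7.h625.SQ.OrcInv
import Pool.Agent.Run7.h625.SQ.DfIso

set_option autoImplicit false

/-! Counting logic with an oracle for unique games. -/

namespace Run7.h625.SQ

open Finset

variable {O : Oracle} {w d : ℕ} {s M : ℕ → ℕ}

theorem DfO.card_le {ι : Type} {q : Query ι} (h : DfO O w s d M ι q) :
    Finite ι ∧ Nat.card ι ≤ w := by
  induction h with
  | adj hι i j => exact ⟨inferInstance, hι⟩
  | eq hι i j => exact ⟨inferInstance, hι⟩
  | not h ih => exact ih
  | all hι q h ih => exact ⟨inferInstance, hι⟩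
  | subst hι f h ih => exact ⟨inferInstance, hι⟩
  | @count ι c q h ih =>
    obtain ⟨h1, h2⟩ := ih
    haveI : Finite ι := Finite.of_injective (some : ι → Option ι) (Option.some_injective ι)
    refine ⟨this, le_trans ?_ h2⟩
    exact Nat.card_le_card_of_injective (some : ι → Option ι) (Option.some_injective ι)
  | small Θ K hι hD hE hR ihD ihE ihR => exact ⟨inferInstance, by omega⟩
  | oracle Θ hf hd hι hD hE hR ihD ihE ihR => exact ⟨inferInstance, by omega⟩

/-- An interpretation by queries invariant under the isomorphism `φ`. -/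
theorem defines_iso {ι J : Type} {ar : J → ℕ} (Θ : Interp ι J ar) {V V' : Type} [Finite V]
    [Finite V'] (G : SimpleGraph V) (G' : SimpleGraph V') (φ : V ≃ V') (a : ι → V)
    (hD : ∀ i (a : ι ⊕ Fin Θ.e → V), Θ.D i V G a ↔ Θ.D i V' G' (φ ∘ a))
    (hE : ∀ i i' (a : ι ⊕ (Fin Θ.e ⊕ Fin Θ.e) → V),
      Θ.E i i' V G a ↔ Θ.E i i' V' G' (φ ∘ a))
    (hR : ∀ j f (a : ι ⊕ (Fin (ar j) × Fin Θ.e) → V), Θ.R j f V G a ↔ Θ.R j f V' G' (φ ∘ a))
    {N : ℕ} (M : Str J ar N) (hM : Θ.Defines G a M) : Θ.Defines G' (φ ∘ a) M := by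
  obtain ⟨h, h1, h2, h3⟩ := hM
  have e0' : ∀ {κ : Type} (x : κ → V'), φ ∘ (Sum.elim a (φ.symm ∘ x)) =
      Sum.elim (φ ∘ a) x := by
    intro κ x; funext i; cases i <;> simp
  have hDD : ∀ i (x : Fin Θ.e → V'), Θ.D i V' G' (Sum.elim (φ ∘ a) x) ↔
      Θ.D i V G (Sum.elim a (φ.symm ∘ x)) := by
    intro i x
    rw [hD, e0']
  refine ⟨fun i x => h i (φ.symm ∘ x), ?_, ?_, ?_⟩
  · intro z
    obtain ⟨i, x, hx, hz⟩ := h1 z
    refine ⟨i, φ ∘ x, ?_, ?_⟩
    · rw [hDD]
      convert hx using 2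
      funext i; simp
    · rw [← hz]
      show h i (φ.symm ∘ (φ ∘ x)) = h i x
      have e : φ.symm ∘ (φ ∘ x) = x := by funext l; simp
      rw [e]
  · intro i i' x x' hx hx'
    rw [h2 i i' _ _ ((hDD i x).1 hx) ((hDD i' x').1 hx'), hE]
    have e : φ ∘ (Sum.elim a (Sum.elim (φ.symm ∘ x) (φ.symm ∘ x'))) =
        Sum.elim (φ ∘ a) (Sum.elim x x') := by
      funext o
      rcases o with o | o | o <;> simp
    rw [e]
  · intro j f X hX
    rw [← h3 j f (fun l => φ.symm ∘ X l) (fun l => (hDD _ _).1 (hX l)), hR]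
    have e : φ ∘ (Sum.elim a fun p : Fin (ar j) × Fin Θ.e => (φ.symm ∘ X p.1) p.2) =
        Sum.elim (φ ∘ a) fun p : Fin (ar j) × Fin Θ.e => X p.1 p.2 := by
      funext o
      rcases o with o | o <;> simp
    rw [← e]

/-- Definable queries are invariant under isomorphisms. -/
theorem DfO.iso {ι : Type} {q : Query ι} (h : DfO O w s d M ι q) :
    ∀ {V V' : Type} [Finite V] [Finite V'] (G : SimpleGraph V) (G' : SimpleGraph V')
    (φ : V ≃ V') (_ : ∀ x y, G.Adj x y ↔ G'.Adj (φ x) (φ y)) (a : ι → V),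
    q V G a ↔ q V' G' (φ ∘ a) := by
  induction h with
  | adj hι i j => intro V V' _ _ G G' φ hφ a; exact hφ _ _
  | eq hι i j => intro V V' _ _ G G' φ hφ a; exact φ.injective.eq_iff.symm
  | not h ih => intro V V' _ _ G G' φ hφ a; exact not_congr (ih G G' φ hφ a)
  | all hι q h ih =>
    intro V V' _ _ G G' φ hφ a
    exact forall_congr' fun t => ih t G G' φ hφ a
  | subst hι f h ih => intro V V' _ _ G G' φ hφ a; exact ih G G' φ hφ (a ∘ f)
  | @count ι c q h ih =>
    intro V V' _ _ G G' φ hφ a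
    have e : Nat.card {x : V // q V G (fun o => o.elim x a)} =
        Nat.card {x : V' // q V' G' (fun o => o.elim x (φ ∘ a))} := by
      refine Nat.card_congr (φ.subtypeEquiv fun x => ?_)
      rw [ih G G' φ hφ]
      have : φ ∘ (fun o : Option ι => o.elim x a) = fun o => o.elim (φ x) (φ ∘ a) := by
        funext o; cases o <;> rfl
      rw [this]
    show c ≤ _ ↔ c ≤ _
    rw [e]
  | @small ι J _ ar Θ K hι hD hE hR ihD ihE ihR =>
    intro V V' _ _ G G' φ hφ a
    have hφ' : ∀ x y, G'.Adj x y ↔ G.Adj (φ.symm x) (φ.symm y) := fun x y => by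
      rw [hφ]; simp
    constructor
    · rintro ⟨N, hN, L, hK, hM⟩
      exact ⟨N, by rwa [← Nat.card_congr φ], L, hK, defines_iso Θ G G' φ a
        (fun i a => ihD i G G' φ hφ a) (fun i i' a => ihE i i' G G' φ hφ a)
        (fun j f a => ihR j f G G' φ hφ a) L hM⟩
    · rintro ⟨N, hN, L, hK, hM⟩
      have := defines_iso Θ G' G φ.symm (φ ∘ a)
        (fun i a => ihD i G' G φ.symm hφ' a) (fun i i' a => ihE i i' G' G φ.symm hφ' a)
        (fun j f a => ihR j f G' G φ.symm hφ' a) L hM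
      have e : φ.symm ∘ (φ ∘ a) = a := by funext i; simp
      rw [e] at this
      exact ⟨N, by rwa [Nat.card_congr φ], L, hK, this⟩
  | @oracle ι A _ _ _ Θ hf hd hι hD hE hR ihD ihE ihR =>
    intro V V' _ _ G G' φ hφ a
    have hφ' : ∀ x y, G'.Adj x y ↔ G.Adj (φ.symm x) (φ.symm y) := fun x y => by
      rw [hφ]; simp
    constructor
    · rintro ⟨N, hN, J, hJ, hM⟩
      exact ⟨N, by rwa [← Nat.card_congr φ], J, hJ, defines_iso Θ G G' φ a
        (fun i a => ihD i G G' φ hφ a) (fun i i' a => ihE i i' G G' φ hφ a)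
        (fun j f a => ihR j f G G' φ hφ a) _ hM⟩
    · rintro ⟨N, hN, J, hJ, hM⟩
      have := defines_iso Θ G' G φ.symm (φ ∘ a)
        (fun i a => ihD i G' G φ.symm hφ' a) (fun i i' a => ihE i i' G' G φ.symm hφ' a)
        (fun j f a => ihR j f G' G φ.symm hφ' a) _ hM
      have e : φ.symm ∘ (φ ∘ a) = a := by funext i; simp
      rw [e] at this
      exact ⟨N, by rwa [Nat.card_congr φ], J, hJ, this⟩

theorem DfO.co {ι : Type} {q : Query ι} (h : DfO O w s d M ι q) : DfO O w s d M ι q.co := by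
  induction h with
  | @adj ι _ hι i j =>
    have e : Query.co (fun (V : Type) [Finite V] (G : SimpleGraph V) (a : ι → V) =>
        G.Adj (a i) (a j)) = (fun (V : Type) [Finite V] (G : SimpleGraph V) (a : ι → V) =>
        ∀ t : Bool, (Bool.rec (fun (V : Type) [Finite V] (G : SimpleGraph V) (a : ι → V) =>
          ¬ (a i = a j)) (fun (V : Type) [Finite V] (G : SimpleGraph V) (a : ι → V) =>
          ¬ G.Adj (a i) (a j)) t : Query ι) V G a) := by
      funext V _ G a
      apply propext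
      show Gᶜ.Adj (a i) (a j) ↔ _
      rw [SimpleGraph.compl_adj]
      constructor
      · rintro ⟨h1, h2⟩ t
        cases t
        · exact h1
        · exact h2
      · intro h
        exact ⟨h false, h true⟩
    rw [e]
    refine DfO.all hι _ fun t => ?_
    cases t
    · exact (DfO.eq hι i j).not
    · exact (DfO.adj hι i j).not
  | eq hι i j => exact DfO.eq hι i j
  | not h ih => exact ih.not
  | all hι q h ih => exact DfO.all hι _ ih
  | subst hι f h ih => exact DfO.subst hι f ih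
  | @count ι c q h ih => exact DfO.count c ih
  | @small ι J _ ar Θ K hι hD hE hR ihD ihE ihR =>
    exact DfO.small (ι := ι) (J := J) (ar := ar)
      { I := Θ.I, e := Θ.e, D := fun i => (Θ.D i).co, E := fun i i' => (Θ.E i i').co,
        R := fun j f => (Θ.R j f).co } K hι ihD ihE ihR
  | @oracle ι A _ _ _ Θ hf hd hι hD hE hR ihD ihE ihR =>
    exact DfO.oracle (ι := ι) (A := A)
      { I := Θ.I, e := Θ.e, D := fun i => (Θ.D i).co, E := fun i i' => (Θ.E i i').co,
        R := fun j f => (Θ.R j f).co } hf hd hι ihD ihE ihR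

/-- **The invariance theorem.** -/
theorem inv_dfO {X Q Φ : Type} [Fintype X] {A : Type} [AddCommGroup A] [Module (ZMod 2) A]
    [Finite A] [Finite Φ] [Finite Q] {S : Sys X Q Φ} {v : ℕ} (F : LocFam S v)
    {n p : ℕ} (hs : w + s n ≤ v) (hs' : w + (p + 6) * d ≤ v)
    (hO : ∀ (A : Type) [Fintype A] [DecidableEq A] (N : ℕ)
      (J J' : CW.Str 2 (Equiv.Perm A) (Fin N)), N ≤ M n → J ∈ O A N →
      CW.DuplicatorWins p J J' → J' ∈ O A N)
    {ι : Type} {q : Query ι} (hq : DfO O w s d M ι q) : InvX F A n q := by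
  induction hq with
  | adj hι i j => intro U U' hn hn' a b hr h; exact (hr.adj i j).1 h
  | eq hι i j => intro U U' hn hn' a b hr h; exact (hr.eq i j).1 h
  | not h ih => intro U U' hn hn' a b hr h1 h2; exact h1 (ih _ _ hn' hn _ _ hr.symm h2)
  | all hι q h ih => intro U U' hn hn' a b hr h1 t; exact ih t _ _ hn hn' _ _ hr (h1 t)
  | subst hι f h ih => intro U U' hn hn' a b hr h1; exact ih _ _ hn hn' _ _ (hr.comp f) h1
  | @count ι c q h ih =>
    intro U U' hn hn' a b hr h1
    obtain ⟨hf, hc⟩ := h.card_le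
    haveI : Finite ι := Finite.of_injective (some : ι → Option ι) (Option.some_injective ι)
    haveI := Fintype.ofFinite ι
    have hk : Nat.card ι + 1 ≤ v := by
      rw [Nat.card_eq_fintype_card, Fintype.card_option] at hc
      rw [Nat.card_eq_fintype_card]
      omega
    obtain ⟨f, hF, hFr⟩ := hr.extend hk
    refine le_trans h1 ?_
    refine Nat.card_le_card_of_injective
      (fun x : {x : Vx S U // q (Vx S U) (gx S U) (fun o => o.elim x a)} =>
        (⟨f x.1, ih _ _ hn hn' _ _ (hFr x.1) x.2⟩ :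
          {x : Vx S U' // q (Vx S U') (gx S U') (fun o => o.elim x b)})) ?_
    intro x y hxy
    exact Subtype.ext (hF (congrArg Subtype.val hxy))
  | small Θ K hι hD hE hR iD iE iR =>
    exact inv_lin hs Θ K hι (fun j ⟨f⟩ => (hR j f).card_le.2) iD iE iR
  | @oracle ι A' _ _ _ Θ hf hd hι hD hE hR iD iE iR =>
    exact inv_orc (O A') (hO A') le_rfl (by
      have : (p + 3 * 2) * d = (p + 6) * d := by ring
      omega) Θ hf hd (by omega) iD iE iR

end Run7.h625.SQ
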