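import Pool.Agent.Run7.h625.SQ.Orc
import Pool.Agent.Run7.h625.SQ.OrcDefs

set_option autoImplicit false

/-! Quantifiers for classes which are invariant under the pebble game. -/

namespace Run7.h625.SQ

open Finset

variable {X Q Φ : Type} [Fintype X] {A : Type} [AddCommGroup A] [Module (ZMod 2) A]
  {S : Sys X Q Φ} {w : ℕ} {F : LocFam S w}

open Classical in
/-- **Oracles.** -/
theorem inv_orc [Finite A] [Finite Φ] [Finite Q] {w' n p d r : ℕ} {M : ℕ → ℕ} {Γ : Type}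
    (O : ∀ N, Set (CW.Str r Γ (Fin N)))
    (hO : ∀ N (J J' : CW.Str r Γ (Fin N)), N ≤ M n → J ∈ O N →
      CW.DuplicatorWins p J J' → J' ∈ O N)
    (hr : 2 ≤ r) (hs : w' + (p + 3 * r) * d ≤ w)
    {ι : Type} [Finite ι] (Θ : Interp ι (Γ × ℕ) (fun _ => r)) (hf : Finite Θ.I)
    (hd : Θ.e ≤ d) (hι : Nat.card ι ≤ w')
    (iD : ∀ i, InvX F A n (Θ.D i)) (iE : ∀ i i', InvX F A n (Θ.E i i'))
    (iR : ∀ j f, InvX F A n (Θ.R j f)) :
    InvX F A n (fun V _ G a => ∃ N, N ≤ M (Nat.card V) ∧ ∃ J ∈ O N,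
      Θ.Defines G a (mStr J)) := by
  intro U U' hn hn' a b hab hq
  obtain ⟨N, hNB, J, hJ, h, p1, p2, p3⟩ := hq
  rw [hn] at hNB
  obtain ⟨dd, β, T, y, h1, h2, h3, h4⟩ := hab
  have hTa : vw a ⊆ T := by
    intro φ hφ
    obtain ⟨i, rfl⟩ := mem_vw.1 hφ
    exact h2 i
  have h3' := F.mono _ _ _ _ hTa h3
  have h1' : ∀ e, U e = U' e + β e • dd := fun e => by
    rw [h1 e, add_assoc, ZModModule.add_self, add_zero]
  have hca := card_vw a
  obtain ⟨e, he⟩ : ∃ e, e = Θ.e := ⟨_, rfl⟩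
  have hw1 : Nat.card ι + (p + 3 * r) * Θ.e ≤ w := by
    have : (p + 3 * r) * Θ.e ≤ (p + 3 * r) * d := Nat.mul_le_mul_left _ hd
    omega
  have hw2 : Nat.card ι + p * Θ.e + r * Θ.e + r * Θ.e + r * Θ.e ≤ w := by
    have : (p + 3 * r) * Θ.e = p * Θ.e + r * Θ.e + r * Θ.e + r * Θ.e := by ring
    omega
  have hr2 : 2 * Θ.e ≤ r * Θ.e := Nat.mul_le_mul_right _ hr
  -- the invariance for extensions of the position
  have RX : ∀ {T1 : Finset Φ} {z : X → ZMod 2} {κ : Type} {x : κ → Vx S U} {x' : κ → Vx S U'},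
      vw a ⊆ T1 → (∀ ψ ∈ vw a, ∀ v ∈ S.vars ψ, z v = y v) → Cnd F T1 dd β z x x' →
      Rx F (Sum.elim a x) (Sum.elim b x') := by
    intro T1 z κ x x' hT hz hc
    exact hc.rx h1 (fun i => hT (mem_vw.2 ⟨i, rfl⟩)) fun i =>
      (h4 i).congr fun v hv => hz _ (mem_vw.2 ⟨i, rfl⟩) v hv
  have HD : ∀ {T1 : Finset Φ} {z : X → ZMod 2}, vw a ⊆ T1 →
      (∀ ψ ∈ vw a, ∀ v ∈ S.vars ψ, z v = y v) → ∀ (i : Θ.I) (x : Fin Θ.e → Vx S U)
      (x' : Fin Θ.e → Vx S U'), Cnd F T1 dd β z x x' →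
      (Θ.D i (Vx S U) (gx S U) (Sum.elim a x) ↔ Θ.D i (Vx S U') (gx S U') (Sum.elim b x')) :=
    fun hT hz i x x' hc => (iD i).iff hn hn' (RX hT hz hc)
  have HE : ∀ {T1 : Finset Φ} {z : X → ZMod 2}, vw a ⊆ T1 →
      (∀ ψ ∈ vw a, ∀ v ∈ S.vars ψ, z v = y v) → ∀ (i i' : Θ.I)
      (x : Fin Θ.e ⊕ Fin Θ.e → Vx S U) (x' : Fin Θ.e ⊕ Fin Θ.e → Vx S U'),
      Cnd F T1 dd β z x x' → (Θ.E i i' (Vx S U) (gx S U) (Sum.elim a x) ↔
        Θ.E i i' (Vx S U') (gx S U') (Sum.elim b x')) :=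
    fun hT hz i i' x x' hc => (iE i i').iff hn hn' (RX hT hz hc)
  have yy : ∀ ψ ∈ vw a, ∀ v ∈ S.vars ψ, y v = y v := fun _ _ _ _ => rfl
  -- matched tuples
  have C1 : ∀ {κ : Type} [Finite κ] (x' : κ → Vx S U'), Nat.card κ ≤ r * Θ.e + r * Θ.e →
      ∃ x : κ → Vx S U, Cnd F (vw a) dd β y x x' := by
    intro κ _ x' hκ
    obtain ⟨x, hx⟩ := Cnd.ex (F := F) (T := vw a) h1' h3' x' (by omega)
    exact ⟨x, hx.symm⟩
  have C1' : ∀ {κ : Type} [Finite κ] (x : κ → Vx S U), Nat.card κ ≤ r * Θ.e + r * Θ.e →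
      ∃ x' : κ → Vx S U', Cnd F (vw a) dd β y x x' := fun x hκ =>
    Cnd.ex (F := F) (T := vw a) h1 h3' x (by omega)
  have ce : Nat.card (Fin Θ.e) ≤ r * Θ.e + r * Θ.e := by rw [Nat.card_fin]; omega
  rcases Nat.eq_zero_or_pos N with hN0 | hN
  · subst hN0
    have hno : ∀ (i : Θ.I) (x' : Fin Θ.e → Vx S U'), False := by
      intro i x'
      obtain ⟨x, -⟩ := C1 x' ce
      exact (h i x).elim0
    refine ⟨0, Nat.zero_le _, J, hJ, fun i x' => (hno i x').elim, fun z => z.elim0,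
      fun i i' x x' => (hno i x).elim, ?_⟩
    intro j f X0 hX0
    have hr0 : 0 < r := by omega
    exact (hno (f ⟨0, hr0⟩) (X0 ⟨0, hr0⟩)).elim
  -- the classes on the other side
  let P : Type := {q : Θ.I × (Fin Θ.e → Vx S U') //
    Θ.D q.1 (Vx S U') (gx S U') (Sum.elim b q.2)}
  have hrep : ∀ (i1 i2 i3 : Θ.I) (x1 x2 x3 : Fin Θ.e → Vx S U'),
      Θ.D i1 (Vx S U') (gx S U') (Sum.elim b x1) → Θ.D i2 (Vx S U') (gx S U') (Sum.elim b x2) →
      Θ.D i3 (Vx S U') (gx S U') (Sum.elim b x3) → ∃ u1 u2 u3 : Fin N,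
        (Θ.E i1 i2 (Vx S U') (gx S U') (Sum.elim b (Sum.elim x1 x2)) ↔ u1 = u2) ∧
        (Θ.E i2 i1 (Vx S U') (gx S U') (Sum.elim b (Sum.elim x2 x1)) ↔ u2 = u1) ∧
        (Θ.E i2 i3 (Vx S U') (gx S U') (Sum.elim b (Sum.elim x2 x3)) ↔ u2 = u3) ∧
        (Θ.E i1 i3 (Vx S U') (gx S U') (Sum.elim b (Sum.elim x1 x3)) ↔ u1 = u3) := by
    intro i1 i2 i3 x1 x2 x3 d1 d2 d3
    obtain ⟨X0, hc⟩ := C1 (Sum.elim x1 (Sum.elim x2 x3)) (by
      rw [Nat.card_sum, Nat.card_sum, Nat.card_fin]; omega)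
    have c1 : Cnd F (vw a) dd β y (X0 ∘ Sum.inl) x1 := hc.comp Sum.inl
    have c2 : Cnd F (vw a) dd β y (X0 ∘ Sum.inr ∘ Sum.inl) x2 := hc.comp (Sum.inr ∘ Sum.inl)
    have c3 : Cnd F (vw a) dd β y (X0 ∘ Sum.inr ∘ Sum.inr) x3 := hc.comp (Sum.inr ∘ Sum.inr)
    have g1 := (HD (fun _ h => h) yy _ _ _ c1).2 d1
    have g2 := (HD (fun _ h => h) yy _ _ _ c2).2 d2
    have g3 := (HD (fun _ h => h) yy _ _ _ c3).2 d3
    have pair : ∀ {κ : Type} (f g : Fin Θ.e → Fin Θ.e ⊕ (Fin Θ.e ⊕ Fin Θ.e)) (i i' : Θ.I),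
        Θ.D i (Vx S U) (gx S U) (Sum.elim a (X0 ∘ f)) →
        Θ.D i' (Vx S U) (gx S U) (Sum.elim a (X0 ∘ g)) →
        (Θ.E i i' (Vx S U') (gx S U') (Sum.elim b (Sum.elim
          (Sum.elim x1 (Sum.elim x2 x3) ∘ f) (Sum.elim x1 (Sum.elim x2 x3) ∘ g))) ↔
          h i (X0 ∘ f) = h i' (X0 ∘ g)) := by
      intro κ f g i i' q1 q2
      rw [p2 i i' _ _ q1 q2]
      have hfg : Cnd F (vw a) dd β y (Sum.elim (X0 ∘ f) (X0 ∘ g)) (Sum.elim
          (Sum.elim x1 (Sum.elim x2 x3) ∘ f) (Sum.elim x1 (Sum.elim x2 x3) ∘ g)) := by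
        have := hc.comp (Sum.elim f g)
        convert this using 1
        · funext o; rcases o with o | o <;> rfl
        · funext o; rcases o with o | o <;> rfl
      exact (HE (fun _ h => h) yy i i' _ _ hfg).symm
    exact ⟨h i1 (X0 ∘ Sum.inl), h i2 (X0 ∘ Sum.inr ∘ Sum.inl), h i3 (X0 ∘ Sum.inr ∘ Sum.inr),
      pair (κ := Unit) Sum.inl (Sum.inr ∘ Sum.inl) i1 i2 g1 g2,
      pair (κ := Unit) (Sum.inr ∘ Sum.inl) Sum.inl i2 i1 g2 g1,
      pair (κ := Unit) (Sum.inr ∘ Sum.inl) (Sum.inr ∘ Sum.inr) i2 i3 g2 g3,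
      pair (κ := Unit) Sum.inl (Sum.inr ∘ Sum.inr) i1 i3 g1 g3⟩
  let st : Setoid P :=
    { r := fun q q' => Θ.E q.1.1 q'.1.1 (Vx S U') (gx S U') (Sum.elim b (Sum.elim q.1.2 q'.1.2))
      iseqv := by
        refine ⟨fun q => ?_, fun {q q'} hqq => ?_, fun {q q' q''} hqq hqq' => ?_⟩
        · obtain ⟨u1, u2, u3, -, -, e3, e4⟩ := hrep _ _ _ _ _ _ q.2 q.2 q.2
          by_contra hcon
          have e5 : ¬ u1 = u3 := fun h5 => hcon (e4.2 h5)
          obtain ⟨X0, hc⟩ := C1 q.1.2 ce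
          have g1 := (HD (fun _ h => h) yy _ _ _ hc).2 q.2
          have g2 := (p2 q.1.1 q.1.1 X0 X0 g1 g1).1 rfl
          have hc2 : Cnd F (vw a) dd β y (Sum.elim X0 X0) (Sum.elim q.1.2 q.1.2) := by
            have := hc.comp (Sum.elim id id : Fin Θ.e ⊕ Fin Θ.e → Fin Θ.e)
            convert this using 1
            · funext o; rcases o with o | o <;> rfl
            · funext o; rcases o with o | o <;> rfl
          exact hcon ((HE (fun _ h => h) yy _ _ _ _ hc2).1 g2)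
        · obtain ⟨u1, u2, u3, e1, e2, -, -⟩ := hrep _ _ _ _ _ _ q.2 q'.2 q'.2
          exact e2.2 (e1.1 hqq).symm
        · obtain ⟨u1, u2, u3, e1, -, e3, e4⟩ := hrep _ _ _ _ _ _ q.2 q'.2 q''.2
          exact e4.2 ((e1.1 hqq).trans (e3.1 hqq')) }
  obtain ⟨i0, x0, hx0, -⟩ := p1 ⟨0, hN⟩
  obtain ⟨x0', hx0'⟩ := C1' x0 ce
  have hP0 : Θ.D i0 (Vx S U') (gx S U') (Sum.elim b x0') :=
    (HD (fun _ h => h) yy _ _ _ hx0').1 hx0
  let h0 : Θ.I → (Fin Θ.e → Vx S U') → Quotient st := fun i x' =>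
    if hx : Θ.D i (Vx S U') (gx S U') (Sum.elim b x') then Quotient.mk st ⟨(i, x'), hx⟩
    else Quotient.mk st ⟨(i0, x0'), hP0⟩
  haveI : Finite P := by
    haveI := hf
    exact inferInstance
  haveI : Finite (Quotient st) := Quotient.finite _
  have s0 : ∀ v, ∃ i x, Θ.D i (Vx S U') (gx S U') (Sum.elim b x) ∧ h0 i x = v := by
    intro v
    obtain ⟨⟨⟨i, x⟩, hx⟩, rfl⟩ := Quotient.exists_rep v
    exact ⟨i, x, hx, dif_pos hx⟩
  have l0 : ∀ i i' x x', Θ.D i (Vx S U') (gx S U') (Sum.elim b x) →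
      Θ.D i' (Vx S U') (gx S U') (Sum.elim b x') → (h0 i x = h0 i' x' ↔
        Θ.E i i' (Vx S U') (gx S U') (Sum.elim b (Sum.elim x x'))) := by
    intro i i' x x' hx hx'
    show (if _ : _ then _ else _) = (if _ : _ then _ else _) ↔ _
    rw [dif_pos hx, dif_pos hx', Quotient.eq]
    exact Iff.rfl
  obtain ⟨f0, -⟩ := match_equiv (F := F) (T := vw a) (z := y) (e := Θ.e) (I := Θ.I)
    (α := Fin N) (γ := Quotient st) h1 h3' (by omega)
    (DG := fun i x => Θ.D i (Vx S U) (gx S U) (Sum.elim a x))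
    (DH := fun i x => Θ.D i (Vx S U') (gx S U') (Sum.elim b x))
    (EG := fun i i' x => Θ.E i i' (Vx S U) (gx S U) (Sum.elim a x))
    (EH := fun i i' x => Θ.E i i' (Vx S U') (gx S U') (Sum.elim b x))
    (HD (fun _ h => h) yy) (HE (fun _ h => h) yy) p1 s0 p2 l0
  obtain ⟨h', hh'⟩ : ∃ h' : Θ.I → (Fin Θ.e → Vx S U') → Fin N,
      h' = fun i x => f0.symm (h0 i x) := ⟨_, rfl⟩
  have s2 : ∀ v, ∃ i x, Θ.D i (Vx S U') (gx S U') (Sum.elim b x) ∧ h' i x = v := by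
    intro v
    obtain ⟨i, x, g1, g2⟩ := s0 (f0 v)
    exact ⟨i, x, g1, by rw [hh']; show f0.symm (h0 i x) = v; rw [g2]; exact f0.symm_apply_apply v⟩
  have l2 : ∀ i i' x x', Θ.D i (Vx S U') (gx S U') (Sum.elim b x) →
      Θ.D i' (Vx S U') (gx S U') (Sum.elim b x') → (h' i x = h' i' x' ↔
        Θ.E i i' (Vx S U') (gx S U') (Sum.elim b (Sum.elim x x'))) := by
    intro i i' x x' hx hx'
    rw [← l0 i i' x x' hx hx', hh']
    exact f0.symm.injective.eq_iff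
  -- the structure on the other side
  choose ri rx hrD hrh using s2
  have cr : Nat.card (Fin r × Fin Θ.e) ≤ r * Θ.e + r * Θ.e := by
    rw [Nat.card_prod, Nat.card_fin, Nat.card_fin]; omega
  have hXf : ∀ f : Fin r → Fin N, ∃ x : Fin r × Fin Θ.e → Vx S U,
      Cnd F (vw a) dd β y x (fun q => rx (f q.1) q.2) := fun f => C1 _ cr
  choose Xf hXf using hXf
  obtain ⟨J', hJ'⟩ : ∃ J' : CW.Str r Γ (Fin N),
      J' = fun c f => J c fun l => h (ri (f l)) fun m => Xf f (l, m) := ⟨_, rfl⟩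
  have key : ∀ {T1 : Finset Φ} {z : X → ZMod 2}, vw a ⊆ T1 →
      (∀ ψ ∈ vw a, ∀ v ∈ S.vars ψ, z v = y v) → T1.card + (r * Θ.e + r * Θ.e) ≤ w →
      ∀ (c : Γ) (i : Fin r → Θ.I) (Y : Fin r × Fin Θ.e → Vx S U)
      (Y' : Fin r × Fin Θ.e → Vx S U'), Cnd F T1 dd β z Y Y' →
      (∀ l, Θ.D (i l) (Vx S U) (gx S U) (Sum.elim a fun m => Y (l, m))) →
      J c (fun l => h (i l) fun m => Y (l, m)) = J' c (fun l => h' (i l) fun m => Y' (l, m)) := by
    intro T1 z hT hz hTc c i Y Y' hY hDY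
    obtain ⟨f, hfd⟩ : ∃ f : Fin r → Fin N, f = fun l => h' (i l) fun m => Y' (l, m) := ⟨_, rfl⟩
    obtain ⟨Z, hZ⟩ := hY.symm.more h1' (fun q : Fin r × Fin Θ.e => rx (f q.1) q.2) (by
      rw [Nat.card_prod, Nat.card_fin, Nat.card_fin]; exact hTc)
    have hZs := hZ.symm
    have hYl : ∀ l, Cnd F T1 dd β z (fun m => Y (l, m)) (fun m => Y' (l, m)) := fun l =>
      hY.comp fun m => (l, m)
    have hZl : ∀ l, Cnd F T1 dd β z (fun m => Z (l, m)) (fun m => rx (f l) m) := fun l =>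
      hZs.comp fun m => Sum.inr (l, m)
    have hDY' : ∀ l, Θ.D (i l) (Vx S U') (gx S U') (Sum.elim b fun m => Y' (l, m)) := fun l =>
      (HD hT hz _ _ _ (hYl l)).1 (hDY l)
    have hDZ : ∀ l, Θ.D (ri (f l)) (Vx S U) (gx S U) (Sum.elim a fun m => Z (l, m)) := fun l =>
      (HD hT hz _ _ _ (hZl l)).2 (hrD (f l))
    have e1 : ∀ l, h (i l) (fun m => Y (l, m)) = h (ri (f l)) fun m => Z (l, m) := by
      intro l
      rw [p2 _ _ _ _ (hDY l) (hDZ l)]
      have g1 : h' (i l) (fun m => Y' (l, m)) = h' (ri (f l)) (rx (f l)) := by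
        rw [hrh, hfd]
      have g2 := (l2 _ _ _ _ (hDY' l) (hrD (f l))).1 g1
      have g3 : Cnd F T1 dd β z (Sum.elim (fun m => Y (l, m)) fun m => Z (l, m))
          (Sum.elim (fun m => Y' (l, m)) fun m => rx (f l) m) := by
        have := hZs.comp (Sum.elim (fun m => Sum.inl (l, m)) fun m => Sum.inr (l, m) :
          Fin Θ.e ⊕ Fin Θ.e → (Fin r × Fin Θ.e) ⊕ (Fin r × Fin Θ.e))
        convert this using 1
        · funext o; rcases o with o | o <;> rfl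
        · funext o; rcases o with o | o <;> rfl
      exact (HE hT hz _ _ _ _ g3).2 g2
    have e2 : (fun l => h (i l) fun m => Y (l, m)) = fun l => h (ri (f l)) fun m => Z (l, m) :=
      funext e1
    rw [e2]
    obtain ⟨mm, hmm⟩ : ∃ mm, mm = J c fun l => h (ri (f l)) fun m => Z (l, m) := ⟨_, rfl⟩
    rw [← hmm]
    have g1 := (p3 (c, mm) (fun l => ri (f l)) (fun l m => Z (l, m)) hDZ).2 hmm.symm
    have hZc : Cnd F T1 dd β z Z (fun q : Fin r × Fin Θ.e => rx (f q.1) q.2) :=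
      hZs.comp Sum.inr
    have g2 := ((iR (c, mm) fun l => ri (f l)).iff hn hn' (RX hT hz hZc)).1 g1
    have g3 := ((iR (c, mm) fun l => ri (f l)).iff hn hn' (RX (fun _ h => h) yy (hXf f))).2 g2
    have hDX : ∀ l, Θ.D (ri (f l)) (Vx S U) (gx S U) (Sum.elim a fun m => Xf f (l, m)) :=
      fun l => (HD (fun _ h => h) yy _ _ _ ((hXf f).comp fun m => (l, m))).2 (hrD (f l))
    have g4 := (p3 (c, mm) (fun l => ri (f l)) (fun l m => Xf f (l, m)) hDX).1 g3
    rw [hJ', ← hfd]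
    exact g4.symm
  refine ⟨N, by rwa [hn'], J', hO N J J' hNB hJ ?_, h', ?_, l2, ?_⟩
  · -- the game
    refine ⟨{pos | ∃ (T1 : Finset Φ) (z : X → ZMod 2), vw a ⊆ T1 ∧ F.Loc β T1 z ∧
      (∀ ψ ∈ vw a, ∀ v ∈ S.vars ψ, z v = y v) ∧ ∀ j, ∃ Tj : Finset Φ, Tj ⊆ T1 ∧
        Tj.card ≤ Θ.e ∧ ∀ u v, pos j = some (u, v) → ∃ i x x', (∀ m, (x m).fib ∈ Tj) ∧
        (∀ m, Sx dd z (x m) (x' m)) ∧ Θ.D i (Vx S U) (gx S U) (Sum.elim a x) ∧
        h i x = u ∧ h' i x' = v}, ?_, ?_⟩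
    · exact ⟨vw a, y, fun _ h => h, h3', yy, fun j => ⟨∅, Finset.empty_subset _, by simp,
        fun u v huv => by simp at huv⟩⟩
    · rintro pos ⟨T1, z, hT, hzL, hz, hpos⟩
      refine ⟨⟨?_, ?_⟩, ?_⟩
      · intro j j' u u' hj hj'
        obtain ⟨Tj, g1, -, g2⟩ := hpos j
        obtain ⟨Tj', g1', -, g2'⟩ := hpos j'
        obtain ⟨i, x, x', k1, k2, k3, k4, k5⟩ := g2 u.1 u.2 hj
        obtain ⟨i', x1, x1', k1', k2', k3', k4', k5'⟩ := g2' u'.1 u'.2 hj'
        have hc : Cnd F T1 dd β z (Sum.elim x x1) (Sum.elim x' x1') := by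
          refine ⟨T1, z, ?_, fun _ h => h, hzL, fun _ _ _ _ => rfl, ?_⟩
          · rintro (m | m)
            · exact g1 (k1 m)
            · exact g1' (k1' m)
          · rintro (m | m)
            · exact k2 m
            · exact k2' m
        have hcx : Cnd F T1 dd β z x x' := hc.comp Sum.inl
        have hcx1 : Cnd F T1 dd β z x1 x1' := hc.comp Sum.inr
        rw [← k4, ← k4', ← k5, ← k5', p2 _ _ _ _ k3 k3', l2 _ _ _ _
          ((HD hT hz _ _ _ hcx).1 k3) ((HD hT hz _ _ _ hcx1).1 k3')]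
        exact HE hT hz _ _ _ _ hc
      · intro c σ u hu
        have hl : ∀ l, ∃ i x x', (∀ m, (x m).fib ∈ T1) ∧
            (∀ m, Sx dd z (x m) (x' m)) ∧ Θ.D i (Vx S U) (gx S U) (Sum.elim a x) ∧
            h i x = (u l).1 ∧ h' i x' = (u l).2 := by
          intro l
          obtain ⟨Tj, g1, -, g2⟩ := hpos (σ l)
          obtain ⟨i, x, x', k1, k2, k3, k4, k5⟩ := g2 (u l).1 (u l).2 (hu l)
          exact ⟨i, x, x', fun m => g1 (k1 m), k2, k3, k4, k5⟩
        choose i x x' k1 k2 k3 k4 k5 using hl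
        have hsub : vw a ∪ vw (fun q : Fin r × Fin Θ.e => x q.1 q.2) ⊆ T1 := by
          apply Finset.union_subset hT
          intro φ hφ
          obtain ⟨q, rfl⟩ := mem_vw.1 hφ
          exact k1 q.1 q.2
        have hY : Cnd F (vw a ∪ vw (fun q : Fin r × Fin Θ.e => x q.1 q.2)) dd β z
            (fun q : Fin r × Fin Θ.e => x q.1 q.2) (fun q => x' q.1 q.2) :=
          ⟨T1, z, fun q => k1 q.1 q.2, hsub, hzL, fun _ _ _ _ => rfl, fun q => k2 q.1 q.2⟩
        have := key Finset.subset_union_left hz (by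
          have q1 := Finset.card_union_le (vw a) (vw (fun q : Fin r × Fin Θ.e => x q.1 q.2))
          have q2 := card_vw (fun q : Fin r × Fin Θ.e => x q.1 q.2)
          rw [Nat.card_prod, Nat.card_fin, Nat.card_fin] at q2
          omega) c i _ _ hY k3
        have e1 : (fun l => (u l).1) = fun l => h (i l) (x l) := funext fun l => (k4 l).symm
        have e2 : (fun l => (u l).2) = fun l => h' (i l) (x' l) := funext fun l => (k5 l).symm
        rw [e1, e2]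
        exact this
      · intro j0
        choose Tj g1 g2 g3 using hpos
        obtain ⟨T2, hT2⟩ : ∃ T2, T2 = vw a ∪ (univ : Finset (Fin p)).biUnion Tj := ⟨_, rfl⟩
        have hT21 : T2 ⊆ T1 := by
          rw [hT2]
          exact Finset.union_subset hT (Finset.biUnion_subset.2 fun j _ => g1 j)
        have haT2 : vw a ⊆ T2 := by rw [hT2]; exact Finset.subset_union_left
        have hjT2 : ∀ j, Tj j ⊆ T2 := fun j => by
          rw [hT2]
          exact (Finset.subset_biUnion_of_mem Tj (Finset.mem_univ j)).trans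
            Finset.subset_union_right
        have hcT2 : T2.card + 2 * Θ.e ≤ w := by
          have q1 : T2.card ≤ (vw a).card + ((univ : Finset (Fin p)).biUnion Tj).card := by
            rw [hT2]; exact Finset.card_union_le _ _
          have q2 : ((univ : Finset (Fin p)).biUnion Tj).card ≤ p * Θ.e := by
            have := Finset.card_biUnion_le_card_mul (univ : Finset (Fin p)) Tj Θ.e
              fun j _ => g2 j
            rwa [Finset.card_univ, Fintype.card_fin] at this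
          omega
        obtain ⟨f, hf1⟩ := match_equiv (F := F) (T := T2) (z := z) (e := Θ.e) (I := Θ.I)
          (α := Fin N) (γ := Fin N) h1 (F.mono _ _ _ _ hT21 hzL) hcT2
          (DG := fun i x => Θ.D i (Vx S U) (gx S U) (Sum.elim a x))
          (DH := fun i x => Θ.D i (Vx S U') (gx S U') (Sum.elim b x))
          (EG := fun i i' x => Θ.E i i' (Vx S U) (gx S U) (Sum.elim a x))
          (EH := fun i i' x => Θ.E i i' (Vx S U') (gx S U') (Sum.elim b x))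
          (HD haT2 hz) (HE haT2 hz) p1 (fun v => ⟨ri v, rx v, hrD v, hrh v⟩) p2 l2
        refine ⟨f, fun v => ?_⟩
        obtain ⟨i, x, x', k1, k2, k3, k4⟩ := hf1 v
        obtain ⟨z', b1, b2, b3⟩ := k2.shrink
        refine ⟨T2 ∪ vw x, z', haT2.trans Finset.subset_union_left, b1, ?_, ?_⟩
        · intro ψ hψ v hv
          rw [b2 ψ (haT2 hψ) v hv, hz ψ hψ v hv]
        · intro j
          by_cases hj : j = j0
          · subst hj
            refine ⟨vw x, Finset.subset_union_right, ?_, ?_⟩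
            · have := card_vw x
              rwa [Nat.card_fin] at this
            · intro u v' huv
              rw [Function.update_self, Option.some.injEq, Prod.mk.injEq] at huv
              obtain ⟨rfl, rfl⟩ := huv
              exact ⟨i, x, x', fun m => mem_vw.2 ⟨m, rfl⟩, b3, k1, k3, k4⟩
          · refine ⟨Tj j, (hjT2 j).trans Finset.subset_union_left, g2 j, ?_⟩
            intro u v' huv
            rw [Function.update_of_ne hj] at huv
            obtain ⟨i', x1, x1', m1, m2, m3, m4, m5⟩ := g3 j u v' huv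
            exact ⟨i', x1, x1', m1, fun m => (m2 m).congr fun v hv =>
              b2 _ (hjT2 j (m1 m)) v hv, m3, m4, m5⟩
  · intro v
    exact ⟨ri v, rx v, hrD v, hrh v⟩
  · intro j f X0 hX0
    obtain ⟨Y, hY⟩ := C1 (fun q : Fin r × Fin Θ.e => X0 q.1 q.2) cr
    have hDY : ∀ l, Θ.D (f l) (Vx S U) (gx S U) (Sum.elim a fun m => Y (l, m)) := fun l =>
      (HD (fun _ h => h) yy _ _ _ (hY.comp fun m => (l, m))).2 (hX0 l)
    have e1 := key (fun _ h => h) yy (by omega) j.1 f Y _ hY hDY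
    rw [← (iR j f).iff hn hn' (RX (fun _ h => h) yy hY)]
    have e2 := p3 j f (fun l m => Y (l, m)) hDY
    refine e2.trans ?_
    show J j.1 _ = j.2 ↔ J' j.1 _ = j.2
    rw [e1]

end Run7.h625.SQ
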