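import Pool.Agent.Run7.h625.SQ.VCPair
import Pool.Agent.Run7.h625.SQ.OrcDf

set_option autoImplicit false

/-! Pairs of graphs with different vertex cover numbers, for general classes of queries. -/

namespace Run7.h625.SQ

open Finset Filter Function

/-- **The pair**, for all the queries which are invariant in all systems of this kind. -/
theorem vc_pair_gen (ρ : ℝ) (hρ : 0 < ρ) : ∃ c : ℝ, 0 < c ∧ ∀ᶠ n : ℕ in atTop,
    ∃ (k W : ℕ) (G H : SimpleGraph (Fin n)), c * n ≤ k ∧ 4 * k ≤ n ∧ c * n ≤ W ∧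
      CoverLe G (3 * k) ∧ (∀ t, CoverLe H t → (7 / 2 - ρ) * k ≤ t) ∧
      ∀ q : Query Empty, (∀ (X Q Φ : Type) [Fintype X] [Finite Φ] [Finite Q] (S : Sys X Q Φ)
          (F : LocFam S W), InvX F (ZMod 2) n q.co) →
        (∀ {V V' : Type} [Finite V] [Finite V'] (G : SimpleGraph V) (G' : SimpleGraph V')
          (φ : V ≃ V') (_ : ∀ x y, G.Adj x y ↔ G'.Adj (φ x) (φ y)) (a : Empty → V),
          q V G a ↔ q V' G' (φ ∘ a)) →
        (q (Fin n) G Empty.elim ↔ q (Fin n) H Empty.elim) := by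
  classical
  obtain ⟨C0, hC0⟩ := exists_sys3 ρ hρ
  obtain ⟨C, hC⟩ : ∃ C, C = C0 + 1 := ⟨_, rfl⟩
  have hCpos : 0 < C := by omega
  have hCr : (1 : ℝ) ≤ C := by exact_mod_cast hCpos
  refine ⟨1 / (24 * C), by positivity, ?_⟩
  filter_upwards [eventually_ge_atTop (100 * C)] with n hn
  obtain ⟨K, hK⟩ : ∃ K, K = n / (4 * C) - 1 := ⟨_, rfl⟩
  have hnC : 25 ≤ n / (4 * C) := by
    rw [Nat.le_div_iff_mul_le (by positivity)]
    omega
  have hK1 : K + 1 = n / (4 * C) := by omega
  have hKn : 4 * (C * (K + 1)) ≤ n := by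
    rw [hK1, ← mul_assoc]
    exact Nat.mul_div_le n (4 * C)
  have hKr : (n : ℝ) / (4 * C) ≤ K + 2 := by
    rw [div_le_iff₀ (by positivity)]
    have h1 : n < (n / (4 * C) + 1) * (4 * C) := by
      rw [mul_comm]
      exact Nat.lt_mul_div_succ n (by positivity)
    rw [← hK1] at h1
    have h2 : (n : ℝ) < ((K + 1 + 1 : ℕ) : ℝ) * (4 * C : ℕ) := by exact_mod_cast h1
    push_cast at h2
    linarith
  have hnr : (25 : ℝ) ≤ (n : ℝ) / (4 * C) := by
    rw [le_div_iff₀ (by positivity)]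
    have : ((100 * C : ℕ) : ℝ) ≤ n := by exact_mod_cast hn
    push_cast at this
    linarith
  have hcn : 1 / (24 * (C : ℝ)) * n = (n : ℝ) / (4 * C) / 6 := by
    field_simp
    ring
  rw [hcn]
  obtain ⟨n0, m0, c, b, G0, hm0, hKG, -, hE, hinj, hval⟩ := hC0 K
  obtain ⟨k, hk⟩ : ∃ k, k = G0.card := ⟨_, rfl⟩
  have hkm : k ≤ m0 := by
    rw [hk]
    have := Finset.card_le_univ G0
    rwa [Fintype.card_fin] at this
  have hk4 : 4 * k ≤ n := by
    have h1 : m0 ≤ C * (K + 1) := hm0.trans (Nat.mul_le_mul_right _ (by omega))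
    omega
  have hkr : (K : ℝ) ≤ k := by rw [hk]; exact_mod_cast hKG
  obtain ⟨r, hr⟩ := Nat.exists_eq_add_of_le hk4
  let eG : Fin k ≃ G0 := (Fintype.equivFinOfCardEq (by rw [Fintype.card_coe, hk])).symm
  let g : Fin k → Fin m0 := fun i => (eG i).1
  have hgi : Injective g := fun i j h => eG.injective (Subtype.ext h)
  have hg : ∀ i, Injective (c (g i)) := fun i => hinj _ (eG i).2
  obtain ⟨W, hW⟩ : ∃ W, W = K / 3 := ⟨_, rfl⟩
  have hW1 : 1 ≤ W := by omega
  have hWr : (n : ℝ) / (4 * C) / 6 ≤ W := by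
    have h1 : K < 3 * W + 3 := by omega
    have h2 : (K : ℝ) < 3 * W + 3 := by exact_mod_cast h1
    linarith
  have hP : ∀ φ, vP r g φ ⊆ G0 := by
    rintro (i | j)
    · intro e he
      have : e = g i := by
        have : e ∈ ({g i} : Finset (Fin m0)) := he
        simpa using this
      rw [this]
      exact (eG i).2
    · intro e he
      have : e ∈ (∅ : Finset (Fin m0)) := he
      simp at this
  have hPc : ∀ φ, (vP r g φ).card ≤ 1 := by
    rintro (i | j)
    · show (({g i} : Finset (Fin m0))).card ≤ 1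
      rw [Finset.card_singleton]
    · show ((∅ : Finset (Fin m0))).card ≤ 1
      rw [Finset.card_empty]
      omega
  let F : LocFam (pS c (vP r g)) W := pF (vP r g) hP hE (by omega) (fun φ => by
    have := hPc φ
    calc W * ((vP r g φ).card * 3) ≤ W * (1 * 3) :=
          Nat.mul_le_mul_left _ (Nat.mul_le_mul_right _ this)
      _ ≤ K := by omega) hW1
  have hc0 : Nat.card (Vx (pS c (vP r g)) (0 : Fin m0 → ZMod 2)) = n := by
    rw [card_vP r g hg, hr]
  have hUU : ∀ e, b e = (0 : Fin m0 → ZMod 2) e + b e • (1 : ZMod 2) := by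
    intro e; simp
  have hc1 : Nat.card (Vx (pS c (vP r g)) b) = n := by
    rw [← card_Vx F hW1 (0 : Fin m0 → ZMod 2) b 1 b hUU, hc0]
  haveI := Fintype.ofFinite (Vx (pS c (vP r g)) (0 : Fin m0 → ZMod 2))
  haveI := Fintype.ofFinite (Vx (pS c (vP r g)) b)
  let e0 : Vx (pS c (vP r g)) (0 : Fin m0 → ZMod 2) ≃ Fin n :=
    Fintype.equivFinOfCardEq (by rw [← Nat.card_eq_fintype_card, hc0])
  let e1 : Vx (pS c (vP r g)) b ≃ Fin n :=
    Fintype.equivFinOfCardEq (by rw [← Nat.card_eq_fintype_card, hc1])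
  have adj0 : ∀ {V : Type} (G : SimpleGraph V) (e : V ≃ Fin n) (x y : V),
      G.Adj x y ↔ (G.comap e.symm).Adj (e x) (e y) := by
    intro V G e x y
    rw [SimpleGraph.comap_adj, e.symm_apply_apply, e.symm_apply_apply]
  refine ⟨k, W, (gx (pS c (vP r g)) (0 : Fin m0 → ZMod 2))ᶜ.comap e0.symm,
    (gx (pS c (vP r g)) b)ᶜ.comap e1.symm, by linarith, hk4, hWr,
    (cover_zero r g hg).map e0 (adj0 _ e0), ?_, ?_⟩
  · intro t ht
    have h1 : CoverLe (gx (pS c (vP r g)) b)ᶜ t := by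
      refine ht.map e1.symm fun x y => ?_
      rw [SimpleGraph.comap_adj]
    have h2 := cover_unsat (B := (1 / 2 + ρ) * k) r g hgi (fun x => by
      have h3 := hval x
      rw [← hk] at h3
      refine le_trans ?_ h3
      have h4 : (univ.filter fun i : Fin k => ∑ l, x (c (g i) l) = b (g i)).card ≤
          (G0.filter fun j => ∑ l, x (c j l) = b j).card := by
        refine Finset.card_le_card_of_injOn g ?_ hgi.injOn
        intro i hi
        simp only [Finset.coe_filter, Finset.mem_univ, true_and, Set.mem_setOf_eq] at hi ⊢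
        exact ⟨(eG i).2, hi⟩
      exact_mod_cast h4) (by rw [hc1, hr]) h1
    linarith
  · intro q hq hiso
    have hinv := hq _ _ _ (pS c (vP r g)) F
    have hr0 : Rx F (Empty.elim : Empty → Vx (pS c (vP r g)) (0 : Fin m0 → ZMod 2))
        (Empty.elim : Empty → Vx (pS c (vP r g)) b) :=
      ⟨1, b, ∅, 0, hUU, fun i => i.elim, F.start b, fun i => i.elim⟩
    have h1 := hinv.iff hc0 hc1 hr0
    have h2 := hiso (gx (pS c (vP r g)) (0 : Fin m0 → ZMod 2))ᶜ _ e0 (adj0 _ e0) Empty.elim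
    have h3 := hiso (gx (pS c (vP r g)) b)ᶜ _ e1 (adj0 _ e1) Empty.elim
    have e2 : (e0 ∘ Empty.elim : Empty → Fin n) = Empty.elim := by funext i; exact i.elim
    have e3 : (e1 ∘ Empty.elim : Empty → Fin n) = Empty.elim := by funext i; exact i.elim
    rw [e2] at h2
    rw [e3] at h3
    exact h2.symm.trans (h1.trans h3)

end Run7.h625.SQ
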