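import Pool.Agent.Run7.h625.SQ.Gen

set_option autoImplicit false

/-! Pairs of graphs with a given number of vertices. -/

namespace Run7.h625.SQ

open Finset

variable {X Q Φ : Type} [Fintype X] {A : Type} [AddCommGroup A] [Module (ZMod 2) A]
variable {S : Sys X Q Φ} {U U' : Q → A} {w : ℕ}

/-- Isolated vertices are added. -/
def padS (S : Sys X Q Φ) (r : ℕ) : Sys X Q (Φ ⊕ Fin r) where
  vars := Sum.elim S.vars fun _ => ∅
  eqs := Sum.elim S.eqs fun _ => ∅
  inc := S.inc
  sup := by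
    rintro (φ | i) e he v hv
    · exact S.sup φ e he v hv
    · exact he.elim
  comp := fun φ ψ => ∃ φ' ψ', φ = Sum.inl φ' ∧ ψ = Sum.inl ψ' ∧ S.comp φ' ψ'
  comp_symm := by
    rintro φ ψ ⟨φ', ψ', h1, h2, h3⟩
    exact ⟨ψ', φ', h2, h1, S.comp_symm _ _ h3⟩

open Classical in
/-- The left part of a set of views. -/
noncomputable def lft {r : ℕ} (T : Finset (Φ ⊕ Fin r)) : Finset Φ :=
  T.preimage Sum.inl Sum.inl_injective.injOn

theorem mem_lft {r : ℕ} {T : Finset (Φ ⊕ Fin r)} {φ : Φ} : φ ∈ lft T ↔ Sum.inl φ ∈ T := by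
  classical
  unfold lft
  rw [Finset.mem_preimage]

theorem card_lft {r : ℕ} (T : Finset (Φ ⊕ Fin r)) : (lft T).card ≤ T.card := by
  classical
  refine Finset.card_le_card_of_injOn Sum.inl (fun φ hφ => mem_lft.1 hφ) ?_
  intro _ _ _ _ h
  exact Sum.inl_injective h

/-- Local consistency with isolated vertices. -/
noncomputable def padF (F : LocFam S w) (r : ℕ) : LocFam (padS S r) w where
  Loc b T y := F.Loc b (lft T) y
  start b := by
    have : lft (∅ : Finset (Φ ⊕ Fin r)) = ∅ := by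
      ext φ; rw [mem_lft]; simp
    rw [this]
    exact F.start b
  sat := by
    rintro b T y h (φ | i) hφ e he
    · exact F.sat b _ y h φ (mem_lft.2 hφ) e he
    · exact he.elim
  mono b T T' y hT h := F.mono b _ _ y (fun φ hφ => mem_lft.2 (hT (mem_lft.1 hφ))) h
  ext := by
    rintro b T y (φ | i) T' hT hc h
    · obtain ⟨y', h1, h2⟩ := F.ext b (lft T) y φ (lft T') (fun ψ => by
        rw [mem_lft, mem_lft, hT]
        simp) ((card_lft _).trans hc) h
      refine ⟨y', h1, ?_⟩
      rintro (ψ | j) hψ v hv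
      · exact h2 ψ (mem_lft.2 hψ) v hv
      · exact hv.elim
    · refine ⟨y, ?_, fun _ _ _ _ => rfl⟩
      have : lft T' = lft T := by
        ext ψ
        rw [mem_lft, mem_lft, hT]
        simp
      rw [this]
      exact h
  add b b' T y y' h h' := F.add b b' _ y y' h h'

theorem card_pad [Finite A] [Finite Φ] (r : ℕ) :
    Nat.card (Vx (padS S r) U) = Nat.card (Vx S U) + r := by
  have e : Vx (padS S r) U ≃ Vx S U ⊕ Fin r :=
    { toFun := fun p => match p with
        | ⟨(Sum.inl φ, x), h⟩ => Sum.inl ⟨(φ, x), h⟩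
        | ⟨(Sum.inr i, _), _⟩ => Sum.inr i
      invFun := fun p => match p with
        | Sum.inl p => ⟨(Sum.inl p.1.1, p.1.2), p.2⟩
        | Sum.inr i => ⟨(Sum.inr i, 0), fun _ _ => rfl, fun e he => he.elim⟩
      left_inv := by
        rintro ⟨⟨φ | i, x⟩, h⟩
        · rfl
        · apply Subtype.ext
          refine Prod.ext rfl ?_
          funext v
          exact (h.1 v (fun hv => hv.elim)).symm
      right_inv := by
        rintro (p | i) <;> rfl }
  rw [Nat.card_congr e, Nat.card_sum, Nat.card_fin]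

/-- The values on a clique are consistent. -/
theorem glue (K : Finset (Vx S U)) (hK : (gx S U).IsClique K) :
    (∀ p ∈ K, ∀ q ∈ K, p.fib = q.fib → p = q) ∧
    ∃ Y : X → A, ∀ p ∈ K, ∀ e ∈ S.eqs p.fib, ∑ v, S.inc e v • Y v = U e := by
  classical
  constructor
  · intro p hp q hq h
    by_contra hne
    exact (hK hp hq hne).1 h
  · refine ⟨fun v => if H : ∃ p ∈ K, v ∈ S.vars p.fib then H.choose.co v else 0, ?_⟩
    intro p hp e he
    rw [← p.co_eq he]
    refine Finset.sum_congr rfl fun v _ => ?_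
    beta_reduce
    by_cases hv : v ∈ S.vars p.fib
    · have H : ∃ p ∈ K, v ∈ S.vars p.fib := ⟨p, hp, hv⟩
      rw [dif_pos H]
      congr 1
      by_cases hpe : H.choose = p
      · rw [hpe]
      · exact (hK H.choose_spec.1 hp hpe).2.2 v H.choose_spec.2 hv
    · have h0 : S.inc e v = 0 := by
        by_contra hne
        exact hv (S.sup _ e he v hne)
      rw [h0, zero_smul, zero_smul]

open Classical in
/-- Cliques give assignments. -/
theorem clique_le [Finite A] [Fintype Φ] {β : Q → ZMod 2} {B : ℕ} {t : A} (ht : t ≠ 0)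
    (hU : ∀ e, U e = β e • t)
    (hβ : ∀ x : X → ZMod 2, (univ.filter fun φ : Φ => ∀ e ∈ S.eqs φ,
      ∑ v, S.inc e v * x v = β e).card ≤ B)
    (hB : 1 ≤ B) (r : ℕ) (K : Finset (Vx (padS S r) U)) (hK : (gx (padS S r) U).IsClique K) :
    K.card ≤ B := by
  by_cases h1 : K.card ≤ 1
  · exact h1.trans hB
  · rw [not_le, Finset.one_lt_card_iff] at h1
    obtain ⟨hinj, Y, hY⟩ := glue K hK
    have hinl : ∀ p ∈ K, ∃ φ : Φ, p.fib = Sum.inl φ := by
      obtain ⟨a, b, ha, hb, hab⟩ := h1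
      intro p hp
      have : ∃ q ∈ K, p ≠ q := by
        by_cases hpa : p = a
        · exact ⟨b, hb, hpa ▸ hab⟩
        · exact ⟨a, ha, hpa⟩
      obtain ⟨q, hq, hpq⟩ := this
      obtain ⟨φ', ψ', h2, -⟩ := (hK hp hq hpq).2.1
      exact ⟨φ', h2⟩
    obtain ⟨l, hl⟩ : ∃ l : Module.Dual (ZMod 2) A, l t = 1 := by
      haveI : Module.Finite (ZMod 2) A := Module.Finite.of_finite
      obtain ⟨l, hl⟩ := not_forall.1 (mt (Module.forall_dual_apply_eq_zero_iff (ZMod 2) t).1 ht)
      exact ⟨l, (zmod_cases _).resolve_left hl⟩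
    have hx := hβ fun v => l (Y v)
    refine le_trans ?_ hx
    refine Finset.card_le_card_of_injOn
      (fun p : Vx (padS S r) U => if H : ∃ φ : Φ, p.fib = Sum.inl φ then H.choose
        else (hinl _ h1.choose_spec.choose_spec.1).choose) ?_ ?_
    · intro p hp
      have H := hinl p hp
      simp only [dif_pos H, Finset.coe_filter, Finset.mem_univ, true_and, Set.mem_setOf_eq]
      intro e he
      have he' : e ∈ (padS S r).eqs p.fib := by
        rw [H.choose_spec]; exact he
      have h2 := congrArg l (hY p hp e he')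
      rw [map_sum, hU, map_smul, hl] at h2
      simp only [map_smul, smul_eq_mul, mul_one] at h2
      exact h2
    · intro p hp q hq hpq
      have Hp := hinl p hp
      have Hq := hinl q hq
      simp only [dif_pos Hp, dif_pos Hq] at hpq
      apply hinj p hp q hq
      rw [Hp.choose_spec, Hq.choose_spec, hpq]

/-- Determining variables bound the number of vertices. -/
theorem card_det [Finite A] [Finite Φ] (D : ℕ)
    (hdet : ∀ φ : Φ, ∃ g : Fin D → X, ∀ p q : Vx S U, p.fib = φ → q.fib = φ →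
      (∀ i, p.co (g i) = q.co (g i)) → p = q) :
    Nat.card (Vx S U) ≤ Nat.card Φ * Nat.card A ^ D := by
  classical
  choose g hg using hdet
  haveI := Fintype.ofFinite A
  haveI := Fintype.ofFinite Φ
  have h1 : Nat.card (Φ × (Fin D → A)) = Nat.card Φ * Nat.card A ^ D := by
    rw [Nat.card_prod, Nat.card_fun, Nat.card_fin]
  rw [← h1]
  refine Nat.card_le_card_of_injective
    (fun p : Vx S U => (p.fib, fun i => p.co (g p.fib i))) ?_
  intro p q hpq
  have hpq' : ((p.fib, fun i => p.co (g p.fib i)) : Φ × (Fin D → A)) =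
    (q.fib, fun i => q.co (g q.fib i)) := hpq
  obtain ⟨e1, e2⟩ := Prod.mk.inj hpq'
  refine hg p.fib p q rfl e1.symm fun i => ?_
  have := congrFun e2 i
  beta_reduce at this
  rw [this, e1]

open Classical in
/-- **Pairs of graphs**, from systems with locally consistent assignments. -/
theorem general_pair [Fintype Φ] [Finite Q] (F : LocFam S w) (hw : 1 ≤ w)
    (hcomp : ∀ φ ψ, φ ≠ ψ → S.comp φ ψ) (β : Q → ZMod 2) {B : ℕ} (hB : 1 ≤ B)
    (hβ : ∀ x : X → ZMod 2, (univ.filter fun φ : Φ => ∀ e ∈ S.eqs φ,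
      ∑ v, S.inc e v * x v = β e).card ≤ B)
    (D : ℕ) (hdet : ∀ (m : ℕ) (φ : Φ), ∃ g : Fin D → X,
      ∀ p q : Vx S (0 : Q → (Fin m → ZMod 2)), p.fib = φ → q.fib = φ →
      (∀ i, p.co (g i) = q.co (g i)) → p = q)
    {m n : ℕ} (hm : 1 ≤ m) (hn : Fintype.card Φ * (2 ^ m) ^ D ≤ n) :
    ∃ G H : SimpleGraph (Fin n), ¬ G.CliqueFree (Fintype.card Φ) ∧
      (∀ K : Finset (Fin n), H.IsClique K → K.card ≤ B) ∧
      ∀ w' s, w' ≤ w → s n * 2 ^ (w * Fintype.card X + Nat.card Q + 1) < 2 ^ m →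
        ∀ q, Def w' s Empty q → (q (Fin n) G Empty.elim ↔ q (Fin n) H Empty.elim) := by
  obtain ⟨t, ht⟩ : ∃ t : Fin m → ZMod 2, t ≠ 0 := by
    refine ⟨fun _ => 1, fun h => ?_⟩
    have := congrFun h ⟨0, by omega⟩
    simp at this
  have hA : Nat.card (Fin m → ZMod 2) = 2 ^ m := by
    rw [Nat.card_fun, Nat.card_zmod, Nat.card_fin]
  have hle : Nat.card (Vx S (0 : Q → (Fin m → ZMod 2))) ≤ n := by
    refine le_trans ?_ hn
    have := card_det (S := S) (U := (0 : Q → (Fin m → ZMod 2))) D (hdet m)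
    rwa [hA, Nat.card_eq_fintype_card (α := Φ)] at this
  obtain ⟨r, hr⟩ := Nat.exists_eq_add_of_le hle
  have hc0 : Nat.card (Vx (padS S r) (0 : Q → (Fin m → ZMod 2))) = n := by
    rw [card_pad, hr]
  have hUU : ∀ e, (fun e => β e • t) e = (0 : Q → (Fin m → ZMod 2)) e + β e • t := by
    intro e; simp
  have hc1 : Nat.card (Vx (padS S r) (fun e => β e • t)) = n := by
    rw [← card_Vx (padF F r) hw (0 : Q → (Fin m → ZMod 2)) (fun e => β e • t) t β hUU, hc0]
  haveI := Fintype.ofFinite (Vx (padS S r) (0 : Q → (Fin m → ZMod 2)))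
  haveI := Fintype.ofFinite (Vx (padS S r) (fun e => β e • t))
  let e0 : Vx (padS S r) (0 : Q → (Fin m → ZMod 2)) ≃ Fin n :=
    Fintype.equivFinOfCardEq (by rw [← Nat.card_eq_fintype_card, hc0])
  let e1 : Vx (padS S r) (fun e => β e • t) ≃ Fin n :=
    Fintype.equivFinOfCardEq (by rw [← Nat.card_eq_fintype_card, hc1])
  have adj0 : ∀ {V : Type} (G : SimpleGraph V) (e : V ≃ Fin n) (x y : V),
      G.Adj x y ↔ (G.comap e.symm).Adj (e x) (e y) := by
    intro V G e x y
    rw [SimpleGraph.comap_adj, e.symm_apply_apply, e.symm_apply_apply]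
  refine ⟨(gx (padS S r) (0 : Q → (Fin m → ZMod 2))).comap e0.symm,
    (gx (padS S r) (fun e => β e • t)).comap e1.symm, ?_, ?_, ?_⟩
  · rw [SimpleGraph.not_cliqueFree_iff_top_isContained]
    let f : Φ → Vx (padS S r) (0 : Q → (Fin m → ZMod 2)) := fun φ =>
      ⟨(Sum.inl φ, 0), fun _ _ => rfl, fun e _ => by simp⟩
    let eΦ := (Fintype.equivFin Φ).symm
    refine ⟨⟨⟨fun i => e0 (f (eΦ i)), ?_⟩, ?_⟩⟩
    · intro i j hij
      have hne : eΦ i ≠ eΦ j := fun h => hij (eΦ.injective h)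
      exact (adj0 _ e0 _ _).1 ⟨fun h => hne (Sum.inl_injective h),
        ⟨eΦ i, eΦ j, rfl, rfl, hcomp _ _ hne⟩, fun _ _ _ => rfl⟩
    · intro i j hij
      have h1 := e0.injective hij
      have h2 : (Sum.inl (eΦ i) : Φ ⊕ Fin r) = Sum.inl (eΦ j) := congrArg (fun p => p.fib) h1
      exact eΦ.injective (Sum.inl_injective h2)
  · intro K hK
    have h1 := clique_le (S := S) (U := fun e => β e • t) ht (fun e => rfl) hβ hB r
      (K.map e1.symm.toEmbedding) (by
        intro a ha b hb hab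
        simp only [Finset.coe_map, Equiv.coe_toEmbedding, Set.mem_image, Finset.mem_coe] at ha hb
        obtain ⟨a', ha', rfl⟩ := ha
        obtain ⟨b', hb', rfl⟩ := hb
        exact hK ha' hb' (fun h => hab (by rw [h])))
    rwa [Finset.card_map] at h1
  · intro w' s hw' hs q hq
    have hinv := inv_gen (A := Fin m → ZMod 2) (padF F r) hw' (n := n) (by rwa [hA]) hq
    have hr0 : Rx (padF F r) (Empty.elim : Empty → Vx (padS S r) (0 : Q → (Fin m → ZMod 2)))
        (Empty.elim : Empty → Vx (padS S r) (fun e => β e • t)) :=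
      ⟨t, β, ∅, 0, hUU, fun i => i.elim, (padF F r).start β, fun i => i.elim⟩
    have h1 := hinv.iff hc0 hc1 hr0
    have h2 := hq.iso (gx (padS S r) (0 : Q → (Fin m → ZMod 2))) _ e0 (adj0 _ e0) Empty.elim
    have h3 := hq.iso (gx (padS S r) (fun e => β e • t)) _ e1 (adj0 _ e1) Empty.elim
    have e2 : (e0 ∘ Empty.elim : Empty → Fin n) = Empty.elim := by funext i; exact i.elim
    have e3 : (e1 ∘ Empty.elim : Empty → Fin n) = Empty.elim := by funext i; exact i.elim
    rw [e2] at h2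
    rw [e3] at h3
    exact h2.symm.trans (h1.trans h3)

end Run7.h625.SQ
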