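import Pool.Agent.Run7.h625.SQ.Lin
import Pool.Agent.Run7.h625.CW.Lin

set_option autoImplicit false

/-! Vertex cover and quantifiers on small interpreted structures. -/

namespace Run7.h625.SQ

open Finset Filter Function
open Matrix hiding row
open Pool.Agent.W888.GX (wt rs row Exp wt_add wt_eq_zero rs_add row_dot Bad viol exists_hyp3
  exp3_of near_count z2 z2_add_self)
open Run7.h625.CW (Cons cons_mono cons_extend cons_empty cons_row)

/-- Expanding systems with three variables in each equation, with a right-hand side for which only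
about half of the equations can be satisfied. -/
theorem exists_sys3 (ρ : ℝ) (hρ : 0 < ρ) : ∃ C : ℕ, ∀ K : ℕ,
    ∃ (n m : ℕ) (c : Fin m → Fin 3 → Fin n) (b : Fin m → ZMod 2) (G : Finset (Fin m)),
      m ≤ C * (K + 1) ∧ K ≤ G.card ∧ 0 < G.card ∧ Exp (row c) (univ : Finset (Fin n)) G (4 * K) ∧
      (∀ j ∈ G, Function.Injective (c j)) ∧
      ∀ x : Fin n → ZMod 2,
        ((G.filter fun j => ∑ l, x (c j l) = b j).card : ℝ) ≤ (1 / 2 + ρ) * G.card := by
  obtain ⟨δ, hδd⟩ : ∃ δ : ℝ, δ = min ρ (1 / 2) / 2 := ⟨_, rfl⟩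
  have hδ : 0 < δ := by rw [hδd]; positivity
  have hδ1 : δ ≤ 1 / 4 := by
    rw [hδd]; have := min_le_right ρ (1 / 2); linarith
  have hδρ : 2 * δ ≤ ρ := by
    rw [hδd]; have := min_le_left ρ (1 / 2); linarith
  obtain ⟨q, hq⟩ := exists_nat_gt (1 / δ)
  have hq0 : (0 : ℝ) < q := lt_trans (by positivity) hq
  obtain ⟨M, hM⟩ := exists_nat_gt (Real.log 2 / δ ^ 2)
  have hlog : 0 < Real.log 2 := Real.log_pos (by norm_num)
  have hM0 : (0 : ℝ) < M := lt_of_le_of_lt (by positivity) hM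
  have hM1 : 1 ≤ M := by
    have : 0 < M := by exact_mod_cast hM0
    omega
  obtain ⟨ξ, hξd⟩ : ∃ ξ : ℝ, ξ = 1 / (6 * 32 ^ q) := ⟨_, rfl⟩
  have hpξ : (32 : ℝ) ^ q * (6 * ξ) ≤ 1 := by
    rw [hξd]
    apply le_of_eq
    have : (0 : ℝ) < 32 ^ q := by positivity
    field_simp
  obtain ⟨B, hB⟩ : ∃ B : ℕ, B = 8192 * 3 ^ 12 * M ^ 4 := ⟨_, rfl⟩
  have hBpos : 0 < B := by
    rw [hB]
    have : 0 < M := by omega
    positivity
  have hB0 : (0 : ℝ) < B := by exact_mod_cast hBpos
  refine ⟨M * (9 * B + 6 * 32 ^ q), fun K => ?_⟩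
  obtain ⟨n, hnd⟩ : ∃ n : ℕ, n = B + 6 * 32 ^ q + 8 * K * B := ⟨_, rfl⟩
  have hn : B + 6 * 32 ^ q ≤ n := by omega
  have hn1 : 1 ≤ n := by omega
  have hn0 : (0 : ℝ) < n := by exact_mod_cast hn1
  obtain ⟨r0, hr0⟩ : ∃ r0, r0 = n / B := ⟨_, rfl⟩
  have hrn : r0 * B ≤ n := by
    rw [hr0]
    exact Nat.div_mul_le_self n B
  have hrn' : n < (r0 + 1) * B := by
    rw [hr0]
    exact Nat.lt_mul_of_div_lt (Nat.lt_succ_self _) hBpos
  obtain ⟨c, hc1, hc2⟩ := exists_hyp3 (M * n) n r0 q ξ hn1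
    (Nat.le_mul_of_pos_left n hM1)
    (by
      have h4 : 2 ≤ B := by
        rw [hB]
        calc 2 ≤ 8192 * 3 ^ 12 * 1 := by norm_num
          _ ≤ _ := Nat.mul_le_mul_left _ (Nat.one_le_pow _ _ (by omega))
      calc 2 * r0 = r0 * 2 := by ring
        _ ≤ r0 * B := Nat.mul_le_mul_left _ h4
        _ ≤ n := hrn)
    (by
      have h1 : (r0 : ℝ) * B ≤ n := by exact_mod_cast hrn
      push_cast
      calc 8192 * 3 ^ 12 * ((M : ℝ) * n) ^ 4 * r0 =
            ((r0 : ℝ) * (8192 * 3 ^ 12 * M ^ 4)) * n ^ 4 := by ring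
        _ = ((r0 : ℝ) * B) * n ^ 4 := by
            rw [hB]
            push_cast
            ring
        _ ≤ n * n ^ 4 := mul_le_mul_of_nonneg_right h1 (by positivity)
        _ = (n : ℝ) ^ 5 := by ring)
    (by
      rw [hξd, one_div, inv_mul_eq_div, one_le_div (by positivity)]
      have : 6 * 32 ^ q ≤ n := by omega
      exact_mod_cast this)
    hpξ
  classical
  obtain ⟨G, hG⟩ : ∃ G : Finset (Fin (M * n)), G = univ.filter fun j => ¬ Bad ∅ (c j) := ⟨_, rfl⟩
  have hmn : (0 : ℝ) < (M * n : ℕ) := by push_cast; positivity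
  -- the right-hand side
  obtain ⟨b, hb⟩ : ∃ b : Fin (M * n) → ZMod 2, ∀ x, (1 / 2 - δ) * (M * n : ℕ) ≤ viol c b x := by
    by_contra hcon
    push Not at hcon
    have h1 := near_count (n := n) hδ (m := M * n) (by
      push_cast
      rw [div_lt_iff₀ (by positivity)] at hM
      have : Real.log 2 * n ≤ M * δ ^ 2 * n := mul_le_mul_of_nonneg_right hM.le hn0.le
      nlinarith) c
    have h2 : (univ.filter fun b : Fin (M * n) → ZMod 2 =>
        ¬ ∀ x, (1 / 2 - δ) * (M * n : ℕ) ≤ viol c b x) = univ := by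
      refine filter_true_of_mem fun b _ => ?_
      push Not
      exact hcon b
    rw [h2, card_univ, Fintype.card_fun, ZMod.card, Fintype.card_fin] at h1
    push_cast at h1
    have h3 : (1 : ℝ) < 2 ^ n := one_lt_pow₀ (by norm_num) (by omega)
    have h4 : (0 : ℝ) < 2 ^ (M * n) := by positivity
    nlinarith
  have hbad : (q : ℝ) * (univ.filter fun j => Bad ∅ (c j)).card ≤ (M * n : ℕ) := by
    have := hc2 ∅ (by
      rw [Finset.card_empty, hξd]
      push_cast
      positivity)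
    exact_mod_cast this
  have hbad2 : ((univ.filter fun j => Bad ∅ (c j)).card : ℝ) ≤ δ * (M * n : ℕ) := by
    rw [div_lt_iff₀ hδ] at hq
    have h1 : (0 : ℝ) ≤ (univ.filter fun j => Bad ∅ (c j)).card := by positivity
    have h2 : ((univ.filter fun j => Bad ∅ (c j)).card : ℝ) ≤
        (q * δ) * (univ.filter fun j => Bad ∅ (c j)).card := by nlinarith
    calc ((univ.filter fun j => Bad ∅ (c j)).card : ℝ) ≤
        δ * (q * (univ.filter fun j => Bad ∅ (c j)).card) := by linarith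
      _ ≤ δ * (M * n : ℕ) := mul_le_mul_of_nonneg_left hbad hδ.le
  have hGc : (G.card : ℝ) + (univ.filter fun j => Bad ∅ (c j)).card = (M * n : ℕ) := by
    have := Finset.card_filter_add_card_filter_not (s := (univ : Finset (Fin (M * n))))
      (fun j => Bad ∅ (c j))
    rw [card_univ, Fintype.card_fin] at this
    rw [hG, add_comm]
    exact_mod_cast this
  have hval : ∀ x : Fin n → ZMod 2,
      ∑ j ∈ G, (if ∑ l, x (c j l) = b j then (1 : ℝ) else 0) ≤ (1 / 2 + ρ) * G.card := by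
    intro x
    have h1 := hb x
    unfold viol at h1
    have h2 : ∑ j, (if ∑ s, x (c j s) = b j then (0 : ℝ) else 1) ≤
        ∑ j ∈ G, (if ∑ s, x (c j s) = b j then (0 : ℝ) else 1) +
          (univ.filter fun j => Bad ∅ (c j)).card := by
      rw [← Finset.sum_filter_add_sum_filter_not (s := (univ : Finset (Fin (M * n))))
        (fun j => Bad ∅ (c j)), add_comm, ← hG]
      refine add_le_add le_rfl ?_
      rw [Finset.card_eq_sum_ones]
      push_cast
      refine Finset.sum_le_sum fun j _ => ?_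
      split_ifs <;> norm_num
    have h3 : ∑ j ∈ G, (if ∑ l, x (c j l) = b j then (1 : ℝ) else 0) +
        ∑ j ∈ G, (if ∑ s, x (c j s) = b j then (0 : ℝ) else 1) = G.card := by
      rw [← Finset.sum_add_distrib, Finset.card_eq_sum_ones]
      push_cast
      refine Finset.sum_congr rfl fun j _ => ?_
      split_ifs <;> norm_num
    have h4 : (0 : ℝ) ≤ G.card := by positivity
    have h5 : (0 : ℝ) ≤ (univ.filter fun j => Bad ∅ (c j)).card := by positivity
    have h6 : (G.card : ℝ) ≤ (M * n : ℕ) := by linarith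
    have h7 : (1 / 2 - 2 * δ) * G.card ≤ (1 / 2 - 2 * δ) * (M * n : ℕ) :=
      mul_le_mul_of_nonneg_left h6 (by linarith)
    have h8 : 2 * δ * G.card ≤ ρ * G.card := mul_le_mul_of_nonneg_right hδρ h4
    linarith
  refine ⟨n, M * n, c, b, G, ?_, ?_, ?_, ?_, ?_, ?_⟩
  · rw [mul_assoc]
    apply Nat.mul_le_mul_left
    rw [hnd]
    have h1 : 0 < 32 ^ q := by positivity
    nlinarith
  · have h1 : (3 / 4 : ℝ) * (M * n : ℕ) ≤ G.card := by nlinarith
    have h2 : 8 * K ≤ n := by
      have : 8 * K * 1 ≤ 8 * K * B := Nat.mul_le_mul_left _ hBpos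
      omega
    have h3 : (8 * K : ℝ) ≤ n := by exact_mod_cast h2
    have h4 : (n : ℝ) ≤ (M * n : ℕ) := by
      exact_mod_cast Nat.le_mul_of_pos_left n hM1
    have h5 : (K : ℝ) ≤ G.card := by
      have : (0 : ℝ) ≤ K := by positivity
      linarith
    exact_mod_cast h5
  · have h2 : (0 : ℝ) < G.card := by nlinarith
    exact_mod_cast h2
  · have h1 : Exp (row c) (∅ : Finset (Fin n))ᶜ G r0 := exp3_of c hc1 ∅ G (by
      intro j hj
      rw [hG, mem_filter] at hj
      exact hj.2)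
    rw [compl_empty] at h1
    have h2 : 4 * K ≤ r0 := by
      have h4 : 8 * K * B ≤ n := by omega
      have h5 : 8 * K * B < (r0 + 1) * B := lt_of_le_of_lt h4 hrn'
      have h6 : 8 * K < r0 + 1 := lt_of_mul_lt_mul_right h5 (Nat.zero_le B)
      omega
    intro a ha hw hne
    exact h1 a ha (hw.trans h2) hne
  · intro j hj
    rw [hG, mem_filter] at hj
    by_contra hcon
    exact hj.2 fun h => hcon h.1
  · intro x
    have := hval x
    rw [← Finset.sum_filter, Finset.sum_const, nsmul_eq_mul, mul_one] at this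
    exact this


end Run7.h625.SQ
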