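import Pool.Agent.Run7.h625.SQ.Sys3
import Pool.Agent.Run7.h625.SQ.DfIso
import Pool.Agent.Run7.h625.SQ.Gap

set_option autoImplicit false

/-! Vertex cover and quantifiers on small interpreted structures. -/

namespace Run7.h625.SQ

open Finset Filter Function
open Matrix hiding row
open Pool.Agent.W888.GX (row Exp row_dot)
open Run7.h625.CW (Cons cons_mono cons_extend cons_empty cons_row)

/-- The system with the sets `P φ` of equations as views. -/
def pS {n m : ℕ} {Φ : Type} (c : Fin m → Fin 3 → Fin n) (P : Φ → Finset (Fin m)) :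
    Sys (Fin n) (Fin m) Φ where
  vars φ := {v | ∃ j ∈ P φ, ∃ s, c j s = v}
  eqs φ := {j | j ∈ P φ}
  inc := row c
  sup := by
    intro φ e he v hv
    by_contra hcon
    apply hv
    unfold row
    refine Finset.sum_eq_zero fun s _ => if_neg ?_
    intro hs
    exact hcon ⟨e, he, s, hs⟩
  comp := fun _ _ => True
  comp_symm := fun _ _ _ => trivial

/-- The variables of a view. -/
def vp {n m : ℕ} {Φ : Type} (c : Fin m → Fin 3 → Fin n) (P : Φ → Finset (Fin m)) (φ : Φ) :
    Finset (Fin n) :=
  (P φ).biUnion fun j => univ.image (c j)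

theorem mem_vp {n m : ℕ} {Φ : Type} {c : Fin m → Fin 3 → Fin n} {P : Φ → Finset (Fin m)} {φ : Φ}
    {v : Fin n} : v ∈ vp c P φ ↔ v ∈ (pS c P).vars φ := by
  unfold vp pS
  simp

theorem card_vp {n m : ℕ} {Φ : Type} (c : Fin m → Fin 3 → Fin n) (P : Φ → Finset (Fin m))
    (φ : Φ) : (vp c P φ).card ≤ (P φ).card * 3 :=
  Finset.card_biUnion_le_card_mul _ _ _ fun j _ =>
    Finset.card_image_le.trans (by rw [Finset.card_univ, Fintype.card_fin])

/-- Local consistency. -/
def pF {n m : ℕ} {Φ : Type} {c : Fin m → Fin 3 → Fin n} {G : Finset (Fin m)} {K w : ℕ}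
    (P : Φ → Finset (Fin m)) (hP : ∀ φ, P φ ⊆ G) (hE : Exp (row c) univ G (4 * K))
    (hK : 1 ≤ K) (hw : ∀ φ, w * ((P φ).card * 3) ≤ K) (hw1 : 1 ≤ w) : LocFam (pS c P) w where
  Loc b T y := Cons c b G K (T.biUnion (vp c P)) y
  start b := by
    rw [Finset.biUnion_empty]
    exact cons_empty hE
  sat := by
    intro b T y h φ hφ e he
    have h1 := cons_row hK h (hP φ he)
      (fun s => Finset.mem_biUnion.2 ⟨φ, hφ, mem_vp.2 ⟨e, he, s, rfl⟩⟩)
    rw [← h1]
    exact row_dot c e y
  mono b T T' y hT h := cons_mono (Finset.biUnion_subset_biUnion_of_subset_left _ hT) h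
  ext := by
    classical
    intro b T y φ T' hT hc h
    have hun : T.biUnion (vp c P) ∪ vp c P φ = T'.biUnion (vp c P) := by
      ext v
      simp only [Finset.mem_union, Finset.mem_biUnion]
      constructor
      · rintro (⟨ψ, h1, h2⟩ | h2)
        · exact ⟨ψ, (hT ψ).2 (Or.inr h1), h2⟩
        · exact ⟨φ, (hT φ).2 (Or.inl rfl), h2⟩
      · rintro ⟨ψ, h1, h2⟩
        rcases (hT ψ).1 h1 with rfl | h1
        · exact Or.inr h2
        · exact Or.inl ⟨ψ, h1, h2⟩
    have hcard : (T'.biUnion (vp c P)).card ≤ K := by
      have h1 : (T'.biUnion (vp c P)).card ≤ T'.card * (K / w) :=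
        Finset.card_biUnion_le_card_mul _ _ _ fun ψ _ => by
          refine (card_vp c P ψ).trans ?_
          rw [Nat.le_div_iff_mul_le hw1, mul_comm]
          exact hw ψ
      refine h1.trans ((Nat.mul_le_mul_right _ hc).trans ?_)
      rw [mul_comm]
      exact Nat.div_mul_le_self K w
    obtain ⟨y', h1, h2⟩ := cons_many hE (T.biUnion (vp c P)) (vp c P φ) (by
      rw [hun]
      exact hcard) h
    rw [hun] at h1
    exact ⟨y', h1, fun ψ hψ v hv => h2 v (Finset.mem_biUnion.2 ⟨ψ, hψ, mem_vp.2 hv⟩)⟩
  add b b' T y y' h h' := cons_add h h'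

/-- One view for each equation `g i`, and `r` empty views. -/
def vP {m k : ℕ} (r : ℕ) (g : Fin k → Fin m) : Fin k ⊕ Fin r → Finset (Fin m) :=
  Sum.elim (fun i => {g i}) fun _ => ∅

theorem row_inj {n m : ℕ} {c : Fin m → Fin 3 → Fin n} {j : Fin m} (hj : Injective (c j))
    (x : Fin n → ZMod 2) : ∑ v, row c j v * x v = x (c j 0) + x (c j 1) + x (c j 2) := by
  have := row_dot c j x
  rw [Fin.sum_univ_three] at this
  exact this

/-- The number of vertices. -/
theorem card_vP {n m k : ℕ} (r : ℕ) (g : Fin k → Fin m) {c : Fin m → Fin 3 → Fin n}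
    (hg : ∀ i, Injective (c (g i))) :
    Nat.card (Vx (pS c (vP r g)) (0 : Fin m → ZMod 2)) = 4 * k + r := by
  classical
  have hne : ∀ i, c (g i) 1 ≠ c (g i) 0 ∧ c (g i) 2 ≠ c (g i) 0 ∧ c (g i) 2 ≠ c (g i) 1 :=
    fun i => ⟨fun h => by simpa using hg i h, fun h => by simpa using hg i h,
      fun h => by simpa using hg i h⟩
  let val : Fin k → ZMod 2 → ZMod 2 → Fin n → ZMod 2 := fun i a b v =>
    if v = c (g i) 0 then a else if v = c (g i) 1 then b else if v = c (g i) 2 then a + b else 0
  have v0 : ∀ i a b, val i a b (c (g i) 0) = a := fun i a b => if_pos rfl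
  have v1 : ∀ i a b, val i a b (c (g i) 1) = b := fun i a b => by
    show (if _ then _ else _) = _
    rw [if_neg (hne i).1, if_pos rfl]
  have v2 : ∀ i a b, val i a b (c (g i) 2) = a + b := fun i a b => by
    show (if _ then _ else _) = _
    rw [if_neg (hne i).2.1, if_neg (hne i).2.2, if_pos rfl]
  have e : Vx (pS c (vP r g)) (0 : Fin m → ZMod 2) ≃ (Fin k × (ZMod 2 × ZMod 2)) ⊕ Fin r :=
    { toFun := fun p => match p with
        | ⟨(Sum.inl i, x), _⟩ => Sum.inl (i, x (c (g i) 0), x (c (g i) 1))
        | ⟨(Sum.inr j, _), _⟩ => Sum.inr j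
      invFun := fun p => match p with
        | Sum.inl p => ⟨(Sum.inl p.1, val p.1 p.2.1 p.2.2), by
            refine ⟨fun v hv => ?_, fun e he => ?_⟩
            · have h : ∀ s, v ≠ c (g p.1) s := fun s hs =>
                hv ⟨g p.1, by simp [vP], s, hs.symm⟩
              show (if _ then _ else _) = _
              rw [if_neg (h 0), if_neg (h 1), if_neg (h 2)]
            · have he' : e = g p.1 := by
                have : e ∈ ({g p.1} : Finset (Fin m)) := he
                simpa using this
              subst he'
              have := row_inj (hg p.1) (val p.1 p.2.1 p.2.2)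
              rw [v0, v1, v2] at this
              show ∑ v, row c (g p.1) v • val p.1 p.2.1 p.2.2 v = 0
              simp only [smul_eq_mul]
              rw [this]
              exact ZModModule.add_self _⟩
        | Sum.inr j => ⟨(Sum.inr j, 0), fun _ _ => rfl, fun e he => by
            have : e ∈ (∅ : Finset (Fin m)) := he
            simp at this⟩
      left_inv := by
        rintro ⟨⟨i | j, x⟩, h⟩
        · apply Subtype.ext
          refine Prod.ext rfl ?_
          funext v
          show val i (x (c (g i) 0)) (x (c (g i) 1)) v = x v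
          by_cases h0 : v = c (g i) 0
          · rw [h0, v0]
          by_cases h1 : v = c (g i) 1
          · rw [h1, v1]
          by_cases h2 : v = c (g i) 2
          · rw [h2, v2]
            have h3 := h.2 (g i) (by
              show g i ∈ ({g i} : Finset (Fin m))
              exact Finset.mem_singleton_self _)
            have h4 := row_inj (hg i) x
            change ∑ v, row c (g i) v • x v = 0 at h3
            simp only [smul_eq_mul] at h3
            rw [h3] at h4
            have h5 : x (c (g i) 2) = x (c (g i) 2) + (x (c (g i) 0) + x (c (g i) 1) +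
              x (c (g i) 2)) := by rw [← h4, add_zero]
            rw [h5]
            have h6 : x (c (g i) 2) + (x (c (g i) 0) + x (c (g i) 1) + x (c (g i) 2)) =
              (x (c (g i) 0) + x (c (g i) 1)) + (x (c (g i) 2) + x (c (g i) 2)) := by ring
            rw [h6, ZModModule.add_self, add_zero]
          · show (if _ then _ else _) = _
            rw [if_neg h0, if_neg h1, if_neg h2]
            refine (h.1 v ?_).symm
            rintro ⟨j, hj, s, hs⟩
            have hj' : j = g i := by
              have : j ∈ ({g i} : Finset (Fin m)) := hj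
              simpa using this
            subst hj'
            fin_cases s
            · exact h0 hs.symm
            · exact h1 hs.symm
            · exact h2 hs.symm
        · apply Subtype.ext
          refine Prod.ext rfl ?_
          funext v
          refine (h.1 v ?_).symm
          rintro ⟨j, hj, s, hs⟩
          have : j ∈ (∅ : Finset (Fin m)) := hj
          simp at this
      right_inv := by
        rintro (⟨i, a, b⟩ | j)
        · show Sum.inl (i, val i a b (c (g i) 0), val i a b (c (g i) 1)) = Sum.inl (i, a, b)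
          rw [v0, v1]
        · rfl }
  rw [Nat.card_congr e, Nat.card_sum, Nat.card_prod, Nat.card_prod, Nat.card_zmod, Nat.card_fin,
    Nat.card_fin]
  ring

end Run7.h625.SQ
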