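import Pool.Agent.Run7.h625.SQ.VCPair

set_option autoImplicit false

/-! Consequences. -/

namespace Run7.h625.SQ

open Finset Filter Function

/-- No definable approximation of the vertex cover number within a factor below `7 / 6`. -/
theorem vc_approx (r : ℝ) (hr : r < 7 / 6) : ∃ c : ℝ, 0 < c ∧ ∀ᶠ n : ℕ in atTop,
    ∀ F : SimpleGraph (Fin n) → ℕ, (∀ G, CoverLe G (F G)) →
      (∀ G t, CoverLe G t → (F G : ℝ) ≤ r * t) →
      ∀ (w : ℕ) (s : ℕ → ℕ), (w : ℝ) + s n ≤ c * n →
        ∃ t : ℕ, ∀ q, Df w s Empty q →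
          ∃ G : SimpleGraph (Fin n), ¬ (q (Fin n) G Empty.elim ↔ F G ≤ t) := by
  obtain ⟨c, hc, h⟩ := vc_pair ((7 / 2 - 3 * r) / 2) (by linarith)
  refine ⟨c, hc, ?_⟩
  filter_upwards [h, eventually_ge_atTop 1] with n hn hn1
  obtain ⟨k, G, H, h1, -, h2, h3, h4⟩ := hn
  intro F hF1 hF2 w s hws
  refine ⟨F G, fun q hq => ?_⟩
  by_contra hcon
  push Not at hcon
  have e1 := (hcon G).2 le_rfl
  have e2 := (h4 w s hws q hq).1 e1
  have e3 := (hcon H).1 e2
  have e4 := h3 _ (hF1 H)
  have e5 := hF2 G _ h2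
  have e6 : ((F H : ℕ) : ℝ) ≤ F G := by exact_mod_cast e3
  have hk : (0 : ℝ) < k := by
    have : (0 : ℝ) < n := by exact_mod_cast hn1
    have := mul_pos hc this
    linarith
  push_cast at e5
  nlinarith

/-- With quantifiers on interpreted structures with `n` elements all properties are definable. -/
theorem all_def (P : ∀ n : ℕ, SimpleGraph (Fin n) → Prop)
    (hP : ∀ (n : ℕ) (G G' : SimpleGraph (Fin n)), Nonempty (G ≃g G') → P n G → P n G') :
    ∃ q, Df 2 (fun n => n) Empty q ∧
      ∀ (n : ℕ) (G : SimpleGraph (Fin n)), q (Fin n) G Empty.elim ↔ P n G := by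
  classical
  let Θ : Interp Empty Unit (fun _ => 2) :=
    { I := Unit, e := 1
      D := fun _ => fun V _ G a => ∀ t : Empty, (t.elim : Query (Empty ⊕ Fin 1)) V G a
      E := fun _ _ => fun V _ G a => a (Sum.inr (Sum.inl 0)) = a (Sum.inr (Sum.inr 0))
      R := fun _ _ => fun V _ G a => G.Adj (a (Sum.inr (0, 0))) (a (Sum.inr (1, 0))) }
  let K : ∀ N, Str Unit (fun _ => 2) N → Prop := fun N M =>
    ∃ G' : SimpleGraph (Fin N), (∀ x y, G'.Adj x y ↔ M () ![x, y]) ∧ P N G'
  refine ⟨fun V _ G a => ∃ N, N * Θ.e ≤ Nat.card V ∧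
    ∃ M : Str Unit (fun _ => 2) N, K N M ∧ Θ.Defines G a M, ?_, ?_⟩
  · refine Df.small Θ K (by simp [Θ]) (fun i => ?_) (fun i i' => ?_) (fun j f => ?_)
    · exact Df.all (by simp) _ fun t => t.elim
    · exact Df.eq (by simp) _ _
    · exact Df.adj (by simp) _ _
  · intro n G
    constructor
    · rintro ⟨N, hN, M, ⟨G', hG', hPG⟩, h, h1, h2, h3⟩
      have hbij : Bijective fun x : Fin n => h () fun _ => x := by
        constructor
        · intro x y hxy
          exact (h2 () () (fun _ => x) (fun _ => y) (fun t => t.elim) (fun t => t.elim)).1 hxy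
        · intro z
          obtain ⟨i, x, -, hx⟩ := h1 z
          refine ⟨x 0, ?_⟩
          have e1 : (fun _ => x 0) = x := by
            funext l
            have : l = (0 : Fin 1) := Subsingleton.elim _ _
            rw [this]
          show h () (fun _ => x 0) = z
          rw [e1]
          exact hx
      have hnN : n = N := by
        have := Fintype.card_of_bijective hbij
        rwa [Fintype.card_fin, Fintype.card_fin] at this
      subst hnN
      refine hP n G' G ⟨(RelIso.symm ⟨Equiv.ofBijective _ hbij, ?_⟩)⟩ hPG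
      intro x y
      show G'.Adj (h () fun _ => x) (h () fun _ => y) ↔ G.Adj x y
      rw [hG']
      have e1 := h3 () (fun _ => ()) ![fun _ => x, fun _ => y] (fun l t => t.elim)
      have e2 : (fun l => h () ((![fun _ => x, fun _ => y] : Fin 2 → Fin 1 → Fin n) l)) =
          ![h () fun _ => x, h () fun _ => y] := by
        funext l
        fin_cases l <;> rfl
      have e3 : G.Adj x y ↔ M () fun l => h () ((![fun _ => x, fun _ => y] :
          Fin 2 → Fin 1 → Fin n) l) := e1
      rw [e2] at e3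
      exact e3.symm
    · intro hp
      refine ⟨n, by simp [Θ], fun _ f => G.Adj (f 0) (f 1), ⟨G, fun x y => Iff.rfl, hp⟩,
        fun _ x => x 0, ?_, ?_, ?_⟩
      · intro z
        exact ⟨(), fun _ => z, fun t => t.elim, rfl⟩
      · intro i i' x x' _ _
        exact Iff.rfl
      · intro j f X _
        exact Iff.rfl

end Run7.h625.SQ
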