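import Pool.Agent.Run7.h625.SQ.VC

set_option autoImplicit false

/-! Pairs of graphs with different vertex cover numbers. -/

namespace Run7.h625.SQ

open Finset Filter Function
open Matrix hiding row
open Pool.Agent.W888.GX (row Exp row_dot)

/-- `C` is a vertex cover of `G`. -/
def IsCover {V : Type} (G : SimpleGraph V) (C : Finset V) : Prop :=
  ∀ u v, G.Adj u v → u ∈ C ∨ v ∈ C

/-- The smallest number of vertices in a vertex cover is at most `t`. -/
def CoverLe {V : Type} (G : SimpleGraph V) (t : ℕ) : Prop :=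
  ∃ C : Finset V, IsCover G C ∧ C.card ≤ t

theorem CoverLe.map {V V' : Type} {G : SimpleGraph V} {G' : SimpleGraph V'} (e : V ≃ V')
    (h : ∀ x y, G.Adj x y ↔ G'.Adj (e x) (e y)) {t : ℕ} (hG : CoverLe G t) : CoverLe G' t := by
  obtain ⟨C, h1, h2⟩ := hG
  refine ⟨C.map e.toEmbedding, ?_, by rwa [Finset.card_map]⟩
  intro u v huv
  have := h1 (e.symm u) (e.symm v) (by rw [h]; simpa using huv)
  rcases this with h3 | h3
  · exact Or.inl (Finset.mem_map.2 ⟨_, h3, by simp⟩)
  · exact Or.inr (Finset.mem_map.2 ⟨_, h3, by simp⟩)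

open Classical in
theorem cover_zero {n m k : ℕ} (r : ℕ) (g : Fin k → Fin m) {c : Fin m → Fin 3 → Fin n}
    (hg : ∀ i, Injective (c (g i))) :
    CoverLe (gx (pS c (vP r g)) (0 : Fin m → ZMod 2))ᶜ (3 * k) := by
  haveI := Fintype.ofFinite (Vx (pS c (vP r g)) (0 : Fin m → ZMod 2))
  refine ⟨univ.filter fun p => p.co ≠ 0, ?_, ?_⟩
  · intro p q hpq
    rw [SimpleGraph.compl_adj] at hpq
    by_contra hcon
    rw [not_or, Finset.mem_filter, Finset.mem_filter] at hcon
    simp only [Finset.mem_univ, true_and, not_not] at hcon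
    apply hpq.2
    refine ⟨fun h => hpq.1 (Vx.ext' h (hcon.1.trans hcon.2.symm)), trivial, fun v _ _ => ?_⟩
    rw [hcon.1, hcon.2]
  · have h1 := Finset.card_filter_add_card_filter_not
      (s := (univ : Finset (Vx (pS c (vP r g)) (0 : Fin m → ZMod 2)))) (fun p => p.co ≠ 0)
    have h2 := card_vP r g hg
    rw [Nat.card_eq_fintype_card, ← Finset.card_univ] at h2
    rw [h2] at h1
    have h3 : k + r ≤ (univ.filter fun p : Vx (pS c (vP r g)) (0 : Fin m → ZMod 2) =>
        ¬ p.co ≠ 0).card := by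
      have h4 : (univ : Finset (Fin k ⊕ Fin r)).card = k + r := by
        rw [Finset.card_univ, Fintype.card_sum, Fintype.card_fin, Fintype.card_fin]
      rw [← h4]
      refine Finset.card_le_card_of_injOn
        (fun φ => (⟨(φ, 0), fun _ _ => rfl, fun e _ => by simp⟩ :
          Vx (pS c (vP r g)) (0 : Fin m → ZMod 2))) ?_ ?_
      · intro φ _
        simp only [Finset.coe_filter, Finset.mem_univ, true_and, Set.mem_setOf_eq, not_not]
        rfl
      · intro φ _ ψ _ h
        exact congrArg (fun p => p.fib) h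
    omega

open Classical in
theorem cover_unsat {n m k : ℕ} (r : ℕ) (g : Fin k → Fin m) (hgi : Injective g)
    {c : Fin m → Fin 3 → Fin n} {b : Fin m → ZMod 2} {B : ℝ}
    (hb : ∀ x : Fin n → ZMod 2,
      ((univ.filter fun i : Fin k => ∑ l, x (c (g i) l) = b (g i)).card : ℝ) ≤ B)
    (hc : Nat.card (Vx (pS c (vP r g)) b) = 4 * k + r) {t : ℕ}
    (h : CoverLe (gx (pS c (vP r g)) b)ᶜ t) : 4 * (k : ℝ) - B ≤ t := by
  haveI := Fintype.ofFinite (Vx (pS c (vP r g)) b)
  obtain ⟨C, hC, ht⟩ := h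
  have hcl : (gx (pS c (vP r g)) b).IsClique ((univ \ C : Finset _) : Set _) := by
    intro p hp q hq hpq
    by_contra hcon
    rw [Finset.mem_coe, Finset.mem_sdiff] at hp hq
    have h1 : (gx (pS c (vP r g)) b)ᶜ.Adj p q := by
      rw [SimpleGraph.compl_adj]
      exact ⟨hpq, hcon⟩
    rcases hC p q h1 with h2 | h2
    · exact hp.2 h2
    · exact hq.2 h2
  obtain ⟨hinj, Y, hY⟩ := glue (univ \ C) hcl
  have h1 : (univ \ C).card ≤
      (univ.filter fun i : Fin k => ∑ l, Y (c (g i) l) = b (g i)).card + r := by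
    have h2 : ((univ.filter fun i : Fin k => ∑ l, Y (c (g i) l) = b (g i)).disjSum
        (univ : Finset (Fin r))).card =
        (univ.filter fun i : Fin k => ∑ l, Y (c (g i) l) = b (g i)).card + r := by
      rw [Finset.card_disjSum, Finset.card_univ, Fintype.card_fin]
    rw [← h2]
    refine Finset.card_le_card_of_injOn (fun p => p.fib) ?_ ?_
    · intro p hp
      rw [Finset.mem_coe] at hp
      have h3 := hY p hp
      rw [Finset.mem_coe]
      show p.fib ∈ _
      rcases hf : p.fib with i | j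
      · rw [Finset.inl_mem_disjSum, Finset.mem_filter]
        refine ⟨Finset.mem_univ _, ?_⟩
        have h4 := h3 (g i) (by
          rw [hf]
          show g i ∈ ({g i} : Finset (Fin m))
          exact Finset.mem_singleton_self _)
        rw [← h4, ← row_dot c (g i) Y]
        rfl
      · rw [Finset.inr_mem_disjSum]
        exact Finset.mem_univ _
    · intro p hp q hq hpq
      exact hinj p (Finset.mem_coe.1 hp) q (Finset.mem_coe.1 hq) hpq
  have h5 : (univ \ C).card + C.card = 4 * k + r := by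
    rw [Finset.card_sdiff_add_card_eq_card (Finset.subset_univ C), Finset.card_univ,
      ← Nat.card_eq_fintype_card, hc]
  have h6 := hb Y
  have h7 : ((univ \ C).card : ℝ) ≤ B + r := by
    have : ((univ \ C).card : ℝ) ≤
        (univ.filter fun i : Fin k => ∑ l, Y (c (g i) l) = b (g i)).card + r := by
      exact_mod_cast h1
    linarith
  have h8 : ((univ \ C).card : ℝ) + C.card = 4 * k + r := by exact_mod_cast h5
  have h9 : (C.card : ℝ) ≤ t := by exact_mod_cast ht
  linarith

/-- **The pair.** -/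
theorem vc_pair (ρ : ℝ) (hρ : 0 < ρ) : ∃ c : ℝ, 0 < c ∧ ∀ᶠ n : ℕ in atTop,
    ∃ (k : ℕ) (G H : SimpleGraph (Fin n)), c * n ≤ k ∧ 4 * k ≤ n ∧ CoverLe G (3 * k) ∧
      (∀ t, CoverLe H t → (7 / 2 - ρ) * k ≤ t) ∧
      ∀ (w : ℕ) (s : ℕ → ℕ), (w : ℝ) + s n ≤ c * n → ∀ q, Df w s Empty q →
        (q (Fin n) G Empty.elim ↔ q (Fin n) H Empty.elim) := by
  classical
  obtain ⟨C0, hC0⟩ := exists_sys3 ρ hρ
  obtain ⟨C, hC⟩ : ∃ C, C = C0 + 1 := ⟨_, rfl⟩
  have hCpos : 0 < C := by omega
  have hCr : (1 : ℝ) ≤ C := by exact_mod_cast hCpos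
  refine ⟨1 / (24 * C), by positivity, ?_⟩
  filter_upwards [eventually_ge_atTop (100 * C)] with n hn
  obtain ⟨K, hK⟩ : ∃ K, K = n / (4 * C) - 1 := ⟨_, rfl⟩
  have hnC : 25 ≤ n / (4 * C) := by
    rw [Nat.le_div_iff_mul_le (by positivity)]
    omega
  have hK1 : K + 1 = n / (4 * C) := by omega
  have hKn : 4 * (C * (K + 1)) ≤ n := by
    rw [hK1, ← mul_assoc]
    exact Nat.mul_div_le n (4 * C)
  have hKr : (n : ℝ) / (4 * C) ≤ K + 2 := by
    rw [div_le_iff₀ (by positivity)]
    have h1 : n < (n / (4 * C) + 1) * (4 * C) := by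
      rw [mul_comm]
      exact Nat.lt_mul_div_succ n (by positivity)
    rw [← hK1] at h1
    have h2 : (n : ℝ) < ((K + 1 + 1 : ℕ) : ℝ) * (4 * C : ℕ) := by exact_mod_cast h1
    push_cast at h2
    linarith
  have hnr : (25 : ℝ) ≤ (n : ℝ) / (4 * C) := by
    rw [le_div_iff₀ (by positivity)]
    have : ((100 * C : ℕ) : ℝ) ≤ n := by exact_mod_cast hn
    push_cast at this
    linarith
  have hcn : 1 / (24 * (C : ℝ)) * n = (n : ℝ) / (4 * C) / 6 := by
    field_simp
    ring
  rw [hcn]
  obtain ⟨n0, m0, c, b, G0, hm0, hKG, -, hE, hinj, hval⟩ := hC0 K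
  obtain ⟨k, hk⟩ : ∃ k, k = G0.card := ⟨_, rfl⟩
  have hkm : k ≤ m0 := by
    rw [hk]
    have := Finset.card_le_univ G0
    rwa [Fintype.card_fin] at this
  have hk4 : 4 * k ≤ n := by
    have h1 : m0 ≤ C * (K + 1) := hm0.trans (Nat.mul_le_mul_right _ (by omega))
    omega
  have hkr : (K : ℝ) ≤ k := by rw [hk]; exact_mod_cast hKG
  obtain ⟨r, hr⟩ := Nat.exists_eq_add_of_le hk4
  let eG : Fin k ≃ G0 := (Fintype.equivFinOfCardEq (by rw [Fintype.card_coe, hk])).symm
  let g : Fin k → Fin m0 := fun i => (eG i).1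
  have hgi : Injective g := fun i j h => eG.injective (Subtype.ext h)
  have hg : ∀ i, Injective (c (g i)) := fun i => hinj _ (eG i).2
  obtain ⟨W, hW⟩ : ∃ W, W = K / 3 := ⟨_, rfl⟩
  have hW1 : 1 ≤ W := by omega
  have hWr : (n : ℝ) / (4 * C) / 6 ≤ W := by
    have h1 : K < 3 * W + 3 := by omega
    have h2 : (K : ℝ) < 3 * W + 3 := by exact_mod_cast h1
    linarith
  have hP : ∀ φ, vP r g φ ⊆ G0 := by
    rintro (i | j)
    · intro e he
      have : e = g i := by
        have : e ∈ ({g i} : Finset (Fin m0)) := he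
        simpa using this
      rw [this]
      exact (eG i).2
    · intro e he
      have : e ∈ (∅ : Finset (Fin m0)) := he
      simp at this
  have hPc : ∀ φ, (vP r g φ).card ≤ 1 := by
    rintro (i | j)
    · show (({g i} : Finset (Fin m0))).card ≤ 1
      rw [Finset.card_singleton]
    · show ((∅ : Finset (Fin m0))).card ≤ 1
      rw [Finset.card_empty]
      omega
  let F : LocFam (pS c (vP r g)) W := pF (vP r g) hP hE (by omega) (fun φ => by
    have := hPc φ
    calc W * ((vP r g φ).card * 3) ≤ W * (1 * 3) :=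
          Nat.mul_le_mul_left _ (Nat.mul_le_mul_right _ this)
      _ ≤ K := by omega) hW1
  have hc0 : Nat.card (Vx (pS c (vP r g)) (0 : Fin m0 → ZMod 2)) = n := by
    rw [card_vP r g hg, hr]
  have hUU : ∀ e, b e = (0 : Fin m0 → ZMod 2) e + b e • (1 : ZMod 2) := by
    intro e; simp
  have hc1 : Nat.card (Vx (pS c (vP r g)) b) = n := by
    rw [← card_Vx F hW1 (0 : Fin m0 → ZMod 2) b 1 b hUU, hc0]
  haveI := Fintype.ofFinite (Vx (pS c (vP r g)) (0 : Fin m0 → ZMod 2))
  haveI := Fintype.ofFinite (Vx (pS c (vP r g)) b)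
  let e0 : Vx (pS c (vP r g)) (0 : Fin m0 → ZMod 2) ≃ Fin n :=
    Fintype.equivFinOfCardEq (by rw [← Nat.card_eq_fintype_card, hc0])
  let e1 : Vx (pS c (vP r g)) b ≃ Fin n :=
    Fintype.equivFinOfCardEq (by rw [← Nat.card_eq_fintype_card, hc1])
  have adj0 : ∀ {V : Type} (G : SimpleGraph V) (e : V ≃ Fin n) (x y : V),
      G.Adj x y ↔ (G.comap e.symm).Adj (e x) (e y) := by
    intro V G e x y
    rw [SimpleGraph.comap_adj, e.symm_apply_apply, e.symm_apply_apply]
  refine ⟨k, (gx (pS c (vP r g)) (0 : Fin m0 → ZMod 2))ᶜ.comap e0.symm,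
    (gx (pS c (vP r g)) b)ᶜ.comap e1.symm, by linarith, hk4,
    (cover_zero r g hg).map e0 (adj0 _ e0), ?_, ?_⟩
  · intro t ht
    have h1 : CoverLe (gx (pS c (vP r g)) b)ᶜ t := by
      refine ht.map e1.symm fun x y => ?_
      rw [SimpleGraph.comap_adj]
    have h2 := cover_unsat (B := (1 / 2 + ρ) * k) r g hgi (fun x => by
      have h3 := hval x
      rw [← hk] at h3
      refine le_trans ?_ h3
      have h4 : (univ.filter fun i : Fin k => ∑ l, x (c (g i) l) = b (g i)).card ≤
          (G0.filter fun j => ∑ l, x (c j l) = b j).card := by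
        refine Finset.card_le_card_of_injOn g ?_ hgi.injOn
        intro i hi
        simp only [Finset.coe_filter, Finset.mem_univ, true_and, Set.mem_setOf_eq] at hi ⊢
        exact ⟨(eG i).2, hi⟩
      exact_mod_cast h4) (by rw [hc1, hr]) h1
    linarith
  · intro w s hws q hq
    have hws' : w + s n ≤ W := by
      have : ((w + s n : ℕ) : ℝ) ≤ W := by push_cast; linarith
      exact_mod_cast this
    have hinv := inv_df (A := ZMod 2) F (n := n) hws' hq.co
    have hr0 : Rx F (Empty.elim : Empty → Vx (pS c (vP r g)) (0 : Fin m0 → ZMod 2))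
        (Empty.elim : Empty → Vx (pS c (vP r g)) b) :=
      ⟨1, b, ∅, 0, hUU, fun i => i.elim, F.start b, fun i => i.elim⟩
    have h1 := hinv.iff hc0 hc1 hr0
    have h2 := hq.iso (gx (pS c (vP r g)) (0 : Fin m0 → ZMod 2))ᶜ _ e0 (adj0 _ e0) Empty.elim
    have h3 := hq.iso (gx (pS c (vP r g)) b)ᶜ _ e1 (adj0 _ e1) Empty.elim
    have e2 : (e0 ∘ Empty.elim : Empty → Fin n) = Empty.elim := by funext i; exact i.elim
    have e3 : (e1 ∘ Empty.elim : Empty → Fin n) = Empty.elim := by funext i; exact i.elim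
    rw [e2] at h2
    rw [e3] at h3
    exact h2.symm.trans (h1.trans h3)

end Run7.h625.SQ
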